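import Pool.Agent.Lib.MP_467fc0_an.Chars

/-! Multiple averages: multilinearity, approximation, and vanishing off the structured spectrum. -/

namespace Pool.Agent.Lib.MP_467fc0_an

open Finset Filter Topology Polynomial MeasureTheory UnitAddTorus
open scoped ComplexConjugate ENNReal

section General

variable {X : Type*} [MeasurableSpace X] {μ : Measure X} {l : ℕ}

lemma exists_bound {f : X → ℂ} (hf : MemLp f ∞ μ) : ∃ C : ℝ, 1 ≤ C ∧ ∀ᵐ x ∂μ, ‖f x‖ ≤ C := by
  refine ⟨max 1 (lpNorm f ∞ μ), le_max_left _ _, ?_⟩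
  filter_upwards [ae_le_lpNorm_exponent_top hf] with x hx
  exact hx.trans (le_max_right _ _)

/-- The average along given maps. -/
noncomputable def mavg (S : ℕ → Fin l → X → X) (f : Fin l → X → ℂ) (N : ℕ) (x : X) : ℂ :=
  avg (fun n => ∏ i, f i (S n i x)) N

omit [MeasurableSpace X] in
lemma prod_update (f : Fin l → X → ℂ) (i : Fin l) (g : X → ℂ) (y : Fin l → X) :
    ∏ j, Function.update f i g j (y j) = g (y i) * ∏ j ∈ univ.erase i, f j (y j) := by
  rw [← mul_prod_erase _ _ (mem_univ i), Function.update_self]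
  congr 1
  exact prod_congr rfl fun j hj => by rw [Function.update_of_ne (ne_of_mem_erase hj)]

omit [MeasurableSpace X] in
lemma mavg_update_add (S : ℕ → Fin l → X → X) (f : Fin l → X → ℂ) (i : Fin l) (g g' : X → ℂ)
    (N : ℕ) : mavg S (Function.update f i (g + g')) N =
      mavg S (Function.update f i g) N + mavg S (Function.update f i g') N := by
  funext x
  simp only [mavg, avg, Pi.add_apply, prod_update _ _ _ (fun j => S _ j x), add_mul,
    sum_add_distrib, mul_add]

omit [MeasurableSpace X] in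
lemma mavg_update_smul (S : ℕ → Fin l → X → X) (f : Fin l → X → ℂ) (i : Fin l) (c : ℂ)
    (g : X → ℂ) (N : ℕ) :
    mavg S (Function.update f i (c • g)) N = c • mavg S (Function.update f i g) N := by
  funext x
  simp only [mavg, avg, Pi.smul_apply, prod_update _ _ _ (fun j => S _ j x), smul_eq_mul,
    mul_assoc, ← mul_sum]
  ring

variable {S : ℕ → Fin l → X → X} (hS : ∀ n i, MeasurePreserving (S n i) μ μ)

include hS

lemma aesm_term {f : Fin l → X → ℂ} (hf : ∀ i, AEStronglyMeasurable (f i) μ) (n : ℕ) :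
    AEStronglyMeasurable (fun x => ∏ i, f i (S n i x)) μ :=
  Finset.aestronglyMeasurable_fun_prod _ fun i _ =>
    (hf i).comp_quasiMeasurePreserving (hS n i).quasiMeasurePreserving

lemma aesm_mavg {f : Fin l → X → ℂ} (hf : ∀ i, AEStronglyMeasurable (f i) μ) (N : ℕ) :
    AEStronglyMeasurable (mavg S f N) μ :=
  (Finset.aestronglyMeasurable_fun_sum _ fun n _ => aesm_term hS hf n).const_mul _

omit hS in
lemma memLp_update {f : Fin l → X → ℂ} {p : ℝ≥0∞} (hf : ∀ i, MemLp (f i) p μ) (i : Fin l)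
    {g : X → ℂ} (hg : MemLp g p μ) (j : Fin l) : MemLp (Function.update f i g j) p μ := by
  by_cases h : j = i
  · subst h
    rwa [Function.update_self]
  · rw [Function.update_of_ne h]
    exact hf j

lemma eLpNorm_mavg_le {f : Fin l → X → ℂ} (hf : ∀ i, MemLp (f i) ∞ μ) :
    ∃ C : ℝ≥0∞, C ≠ ∞ ∧ ∀ (i : Fin l) (g : X → ℂ), MemLp g ∞ μ → ∀ N,
      eLpNorm (mavg S (Function.update f i g) N) 2 μ ≤ C * eLpNorm g 2 μ := by
  choose C hC1 hC using fun i => exists_bound (hf i)
  refine ⟨ENNReal.ofReal (∏ i, C i), ENNReal.ofReal_ne_top, fun i g hg N => ?_⟩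
  have hm := fun j => (memLp_update hf i hg j).1
  have h1 : ∀ n, eLpNorm (fun x => ∏ j, Function.update f i g j (S n j x)) 2 μ ≤
      ENNReal.ofReal (∏ i, C i) * eLpNorm g 2 μ := by
    intro n
    rw [← eLpNorm_comp_measurePreserving hg.1 (hS n i)]
    refine eLpNorm_le_mul_eLpNorm_of_ae_le_mul ?_ 2
    filter_upwards [ae_all_iff.mpr fun j => (hS n j).quasiMeasurePreserving.ae (hC j)] with x hx
    rw [prod_update _ _ _ (fun j => S n j x), norm_mul, mul_comm, norm_prod]
    refine mul_le_mul_of_nonneg_right ?_ (norm_nonneg _)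
    refine (prod_le_prod (fun j _ => norm_nonneg _) fun j _ => hx j).trans ?_
    rw [← mul_prod_erase _ _ (mem_univ i)]
    exact le_mul_of_one_le_left (prod_nonneg fun j _ => zero_le_one.trans (hC1 j)) (hC1 i)
  have h2 : mavg S (Function.update f i g) N =
      (N : ℂ)⁻¹ • ∑ n ∈ range N, fun x => ∏ j, Function.update f i g j (S n j x) := by
    funext x
    simp [mavg, avg]
  rw [h2]
  refine eLpNorm_const_smul_le.trans ?_
  refine (mul_le_mul_right ((eLpNorm_sum_le (fun n _ => aesm_term hS hm n) (by norm_num)).trans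
    (sum_le_sum fun n _ => h1 n)) _).trans ?_
  rw [sum_const, card_range, nsmul_eq_mul, ← mul_assoc]
  refine mul_le_of_le_one_left' ?_
  rcases Nat.eq_zero_or_pos N with rfl | hN
  · simp
  · rw [enorm_inv (by exact_mod_cast hN.ne'), ← ofReal_norm, Complex.norm_natCast,
      ENNReal.ofReal_natCast]
    exact (ENNReal.inv_mul_cancel (by exact_mod_cast hN.ne') (by simp)).le

lemma tendsto_of_span {f : Fin l → X → ℂ} (hf : ∀ i, MemLp (f i) ∞ μ) (i : Fin l)
    (E : Set (X → ℂ)) (hE : ∀ g ∈ E, MemLp g ∞ μ ∧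
      Tendsto (fun N => eLpNorm (mavg S (Function.update f i g) N) 2 μ) atTop (𝓝 0))
    {P : X → ℂ} (hP : P ∈ Submodule.span ℂ E) : MemLp P ∞ μ ∧
      Tendsto (fun N => eLpNorm (mavg S (Function.update f i P) N) 2 μ) atTop (𝓝 0) := by
  induction hP using Submodule.span_induction with
  | mem g hg => exact hE g hg
  | zero =>
    refine ⟨MemLp.zero, ?_⟩
    have : ∀ N, mavg S (Function.update f i 0) N = 0 := fun N => by
      simpa using mavg_update_smul S f i 0 0 N
    simp [this]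
  | add g g' _ _ h h' =>
    refine ⟨h.1.add h'.1, ?_⟩
    have h1 := h.2.add h'.2
    rw [add_zero] at h1
    refine tendsto_of_tendsto_of_tendsto_of_le_of_le tendsto_const_nhds h1 (fun _ => zero_le)
      fun N => ?_
    simp only [mavg_update_add]
    exact eLpNorm_add_le (aesm_mavg hS (fun j => (memLp_update hf i h.1 j).1) N)
      (aesm_mavg hS (fun j => (memLp_update hf i h'.1 j).1) N) (by norm_num)
  | smul c g _ h =>
    refine ⟨h.1.const_smul c, ?_⟩
    have h1 := ENNReal.Tendsto.const_mul (a := ‖c‖ₑ) h.2 (Or.inr enorm_ne_top)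
    rw [mul_zero] at h1
    simpa only [mavg_update_smul, eLpNorm_const_smul] using h1

lemma tendsto_of_approx {f : Fin l → X → ℂ} (hf : ∀ i, MemLp (f i) ∞ μ) (i : Fin l)
    (h : ∀ ε : ℝ≥0∞, ε ≠ 0 → ∃ P, MemLp P ∞ μ ∧ eLpNorm (f i - P) 2 μ ≤ ε ∧
      Tendsto (fun N => eLpNorm (mavg S (Function.update f i P) N) 2 μ) atTop (𝓝 0)) :
    Tendsto (fun N => eLpNorm (mavg S f N) 2 μ) atTop (𝓝 0) := by
  obtain ⟨C, hC, hb⟩ := eLpNorm_mavg_le hS hf
  rw [ENNReal.tendsto_nhds_zero]
  intro ε hε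
  obtain ⟨δ, hδ, hδ'⟩ := ENNReal.exists_nnreal_pos_mul_lt hC (ENNReal.half_pos hε.ne').ne'
  obtain ⟨P, h1, h2, h3⟩ := h δ (by exact_mod_cast hδ.ne')
  filter_upwards [ENNReal.tendsto_nhds_zero.mp h3 (ε / 2) (ENNReal.half_pos hε.ne')] with N hN
  have e : mavg S f N = mavg S (Function.update f i (f i - P)) N +
      mavg S (Function.update f i P) N := by
    rw [← mavg_update_add, sub_add_cancel, Function.update_eq_self]
  rw [e, ← ENNReal.add_halves ε]
  refine (eLpNorm_add_le (aesm_mavg hS (fun j => (memLp_update hf i ((hf i).sub h1) j).1) N)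
    (aesm_mavg hS (fun j => (memLp_update hf i h1 j).1) N) (by norm_num)).trans
    (add_le_add ?_ hN)
  refine (hb i _ ((hf i).sub h1) N).trans ((mul_le_mul_right h2 C).trans ?_)
  rw [mul_comm]
  exact hδ'.le

end General

variable {ι : Type} [Fintype ι]

/-- Fourier coefficient against a character with phase. -/
noncomputable def fc (f : Tor ι → ℂ) (g : GG ι) : ℂ := ∫ x, f x * conj (chi g x) ∂(haar ι)

lemma chi_mk_zero (ξ : ι → ℤ) (x : Tor ι) : chi (ξ, 0) x = mFourier ξ x := by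
  simp [chi, ee_zero]

lemma fc_chi (g g' : GG ι) : fc (chi g) g' = ∫ x, chi (g - g') x ∂(haar ι) := by
  simp only [fc, sub_eq_add_neg, chi_add, chi_neg]

lemma fourier_approx {f : Tor ι → ℂ} (hf : MemLp f 2 (haar ι)) {ε : ℝ≥0∞} (hε : ε ≠ 0) :
    ∃ P ∈ Submodule.span ℂ {h : Tor ι → ℂ | ∃ ξ, fc f (ξ, 0) ≠ 0 ∧ h = chi (ξ, 0)},
      eLpNorm (f - P) 2 (haar ι) ≤ ε := by
  classical
  let F : Lp ℂ 2 (haar ι) := hf.toLp f
  have hs := hasSum_mFourier_series_L2 (d := ι) F
  have hc : ∀ ξ, mFourierCoeff F ξ = fc f (ξ, 0) := by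
    intro ξ
    refine integral_congr_ae ?_
    filter_upwards [hf.coeFn_toLp] with x hx
    rw [chi_mk_zero, ← mFourier_neg, smul_eq_mul, mul_comm]
    congr 1
  obtain ⟨s, hs'⟩ := (EMetric.tendsto_nhds.mp hs ε (pos_iff_ne_zero.mpr hε)).exists
  refine ⟨∑ ξ ∈ s, fc f (ξ, 0) • chi (ξ, 0), Submodule.sum_mem _ fun ξ _ => ?_, ?_⟩
  · by_cases h : fc f (ξ, 0) = 0
    · rw [h, zero_smul]
      exact Submodule.zero_mem _
    · exact Submodule.smul_mem _ _ (Submodule.subset_span ⟨ξ, h, rfl⟩)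
  · rw [edist_comm, Lp.edist_def] at hs'
    refine le_trans (le_of_eq (eLpNorm_congr_ae ?_)) hs'.le
    have h1 : ∀ᵐ x ∂(haar ι), ∀ ξ, (mFourierCoeff F ξ • mFourierLp 2 ξ : Lp ℂ 2 (haar ι)) x =
        fc f (ξ, 0) * chi (ξ, 0) x := by
      refine ae_all_iff.mpr fun ξ => ?_
      filter_upwards [Lp.coeFn_smul (mFourierCoeff F ξ) (mFourierLp 2 ξ : Lp ℂ 2 (haar ι)),
        coeFn_mFourierLp 2 ξ] with x a1 a2
      rw [a1, Pi.smul_apply, a2, hc, chi_mk_zero, smul_eq_mul]
    filter_upwards [hf.coeFn_toLp, h1, Lp.coeFn_finsetSum s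
      (fun ξ => (mFourierCoeff F ξ • mFourierLp 2 ξ : Lp ℂ 2 (haar ι)))] with x a1 a2 a3
    simp only [Pi.sub_apply, Finset.sum_apply, Pi.smul_apply, smul_eq_mul] at a3 ⊢
    rw [a3]
    simp only [a2]
    congr 1
    exact a1.symm

variable {T : Equiv.Perm (Tor ι)} {N : Module.End ℤ (GG ι)} {M : ℕ} (hW : Setup T N M)

include hW in
theorem mavg_tendsto_zero {l : ℕ} (p : Fin l → ℤ[X]) (hp : ∀ i, 0 < (p i).natDegree)
    (hp' : ∀ i j, i ≠ j → 0 < (p i - p j).natDegree) (i0 : Fin l) (f : Fin l → Tor ι → ℂ)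
    (hf : ∀ i, MemLp (f i) ∞ (haar ι))
    (h0 : ∀ ξ, (N ^ l) (ξ, 0) ∈ Nul ι → fc (f i0) (ξ, 0) = 0) :
    Tendsto (fun n => eLpNorm (mavg (fun n i => (T ^ (p i).eval (n : ℤ) : Equiv.Perm (Tor ι))) f n)
      2 (haar ι)) atTop (𝓝 0) := by
  classical
  have hS : ∀ (n : ℕ) (i : Fin l), MeasurePreserving
      (T ^ (p i).eval (n : ℤ) : Equiv.Perm (Tor ι)) (haar ι) (haar ι) := fun n i => hW.mp _
  have key : ∀ s : Finset (Fin l), ∀ f : Fin l → Tor ι → ℂ, (∀ i, MemLp (f i) ∞ (haar ι)) →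
      (∀ j ∉ s, ∃ ξ, f j = chi (ξ, 0)) →
      (∀ ξ, (N ^ l) (ξ, 0) ∈ Nul ι → fc (f i0) (ξ, 0) = 0) →
      Tendsto (fun n => eLpNorm
        (mavg (fun n i => (T ^ (p i).eval (n : ℤ) : Equiv.Perm (Tor ι))) f n) 2 (haar ι))
        atTop (𝓝 0) := by
    intro s
    induction s using Finset.induction_on with
    | empty =>
      intro f _ hc h0
      choose ξ hξ using fun j => hc j (notMem_empty j)
      have h1 := chi_avg_tendsto (fun n : ℕ => ∑ i, Phi N M ((p i).eval (n : ℤ)) (ξ i, 0))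
        (fun L => ⟨∑ i, (Qp N M L (ξ i, 0)).comp ((p i).map (Int.castRingHom ℝ)), fun n => by
          rw [map_sum, eval_finsetSum]
          refine sum_congr rfl fun i _ => ?_
          rw [eval_comp, eval_natCast_map, ← Qp_eval]
          rfl⟩)
        (fun h => by
          have h2 := h0 _ (nul_of_relation hW.hN hW.hN0 p hp hp' (fun i => (ξ i, 0)) _ h i0)
          rw [hξ, fc_chi, sub_self] at h2
          simp [chi_zero] at h2)
      refine h1.congr fun n => ?_
      congr 1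
      funext x
      simp only [mavg, hξ, hW.chiT, chi_sum]
    | insert j s hj ih =>
      intro f hf hc h0
      refine tendsto_of_approx hS hf j fun ε hε => ?_
      obtain ⟨P, hP, hε'⟩ := fourier_approx ((hf j).mono_exponent le_top) hε
      have h1 := tendsto_of_span hS hf j _ ?_ hP
      · exact ⟨P, h1.1, hε', h1.2⟩
      rintro _ ⟨ξ, hξ, rfl⟩
      have h2 := memLp_of_continuous (continuous_chi (ξ, 0)) ∞
      refine ⟨h2, ih _ (memLp_update hf j h2) (fun j' hj' => ?_) fun ξ' hξ' => ?_⟩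
      · by_cases h : j' = j
        · subst h
          exact ⟨ξ, Function.update_self ..⟩
        · rw [Function.update_of_ne h]
          exact hc j' (by simp [h, hj'])
      · by_cases h : i0 = j
        · subst h
          rw [Function.update_self, fc_chi]
          refine integral_chi_ne fun h3 => hξ ?_
          have h4 : ξ = ξ' := sub_eq_zero.mp h3
          rw [h4]
          exact h0 ξ' hξ'
        · rw [Function.update_of_ne h]
          exact h0 ξ' hξ'
  exact key univ f hf (fun j hj => absurd (mem_univ j) hj) h0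

end Pool.Agent.Lib.MP_467fc0_an
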