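import Mathlib

/-! The van der Corput lemma and Weyl's theorem on polynomial exponential sums. -/

namespace Pool.Agent.Lib.MP_467fc0_an

open Finset Filter Topology Polynomial
open scoped ComplexConjugate

/-- Cesàro averages. -/
noncomputable def avg (v : ℕ → ℂ) (N : ℕ) : ℂ := (N : ℂ)⁻¹ * ∑ n ∈ range N, v n

lemma tendsto_avg_of_bounded_sum {s : ℕ → ℂ} {B : ℝ} (h : ∀ N, ‖s N‖ ≤ B) :
    Tendsto (fun N : ℕ => (N : ℂ)⁻¹ * s N) atTop (𝓝 0) := by
  refine squeeze_zero_norm (a := fun N : ℕ => B / N) (fun N => ?_) (tendsto_const_div_atTop_nhds_zero_nat B)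
  rw [norm_mul, norm_inv, Complex.norm_natCast, div_eq_inv_mul]
  exact mul_le_mul_of_nonneg_left (h N) (by positivity)

lemma avg_shift_sub {v : ℕ → ℂ} (hv : ∀ n, ‖v n‖ ≤ 1) (k : ℕ) :
    Tendsto (fun N => avg (fun n => v (n + k)) N - avg v N) atTop (𝓝 0) := by
  have h : ∀ N, ‖∑ n ∈ range N, v (n + k) - ∑ n ∈ range N, v n‖ ≤ 2 * k := by
    intro N
    have e1 := sum_range_add v N k
    have e2 := sum_range_add v k N
    rw [add_comm k N] at e2
    have e3 : ∑ n ∈ range N, v (n + k) - ∑ n ∈ range N, v n =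
        ∑ n ∈ range k, v (N + n) - ∑ n ∈ range k, v n := by
      simp only [add_comm k] at e2
      linear_combination e1 - e2
    rw [e3]
    have b1 : ‖∑ n ∈ range k, v (N + n)‖ ≤ k :=
      (norm_sum_le_of_le _ fun n _ => hv (N + n)).trans (by simp)
    have b2 : ‖∑ n ∈ range k, v n‖ ≤ k := (norm_sum_le_of_le _ fun n _ => hv n).trans (by simp)
    linarith [norm_sub_le (∑ n ∈ range k, v (N + n)) (∑ n ∈ range k, v n)]
  simpa only [avg, mul_sub] using tendsto_avg_of_bounded_sum h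

lemma avg_shift {v : ℕ → ℂ} (hv : ∀ n, ‖v n‖ ≤ 1) (k : ℕ) (h : Tendsto (avg v) atTop (𝓝 0)) :
    Tendsto (avg fun n => v (n + k)) atTop (𝓝 0) := by
  simpa using (avg_shift_sub hv k).add h

lemma norm_avg_le_one {v : ℕ → ℂ} (hv : ∀ n, ‖v n‖ ≤ 1) (N : ℕ) : ‖avg v N‖ ≤ 1 := by
  rw [avg, norm_mul, norm_inv, Complex.norm_natCast]
  have b2 : ‖∑ n ∈ range N, v n‖ ≤ N := (norm_sum_le_of_le _ fun n _ => hv n).trans (by simp)
  rcases Nat.eq_zero_or_pos N with rfl | hN
  · simp
  · rw [inv_mul_le_iff₀ (by exact_mod_cast hN)]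
    simpa using b2

lemma norm_avg_sq_le (z : ℕ → ℂ) (N : ℕ) :
    ‖avg z N‖ ^ 2 ≤ (avg (fun n => z n * conj (z n)) N).re := by
  rcases Nat.eq_zero_or_pos N with rfl | hN
  · simp [avg]
  have hN' : (0 : ℝ) < N := by exact_mod_cast hN
  have e : avg (fun n => z n * conj (z n)) N = (((N : ℝ)⁻¹ * ∑ n ∈ range N, ‖z n‖ ^ 2 : ℝ) : ℂ) := by
    simp only [avg, Complex.mul_conj']
    push_cast
    rfl
  rw [e, Complex.ofReal_re, avg, norm_mul, norm_inv, Complex.norm_natCast, mul_pow]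
  have h1 : ‖∑ n ∈ range N, z n‖ ^ 2 ≤ (∑ n ∈ range N, ‖z n‖) ^ 2 :=
    pow_le_pow_left₀ (norm_nonneg _) (norm_sum_le _ _) 2
  have h2 : (∑ n ∈ range N, ‖z n‖) ^ 2 ≤ N * ∑ n ∈ range N, ‖z n‖ ^ 2 := by
    simpa using sq_sum_le_card_mul_sum_sq (s := range N) (f := fun n => ‖z n‖)
  calc (N : ℝ)⁻¹ ^ 2 * ‖∑ n ∈ range N, z n‖ ^ 2
      ≤ (N : ℝ)⁻¹ ^ 2 * (N * ∑ n ∈ range N, ‖z n‖ ^ 2) :=
        mul_le_mul_of_nonneg_left (h1.trans h2) (by positivity)
    _ = (N : ℝ)⁻¹ * ∑ n ∈ range N, ‖z n‖ ^ 2 := by field_simp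

lemma van_der_corput {u : ℕ → ℂ} (hu : ∀ n, ‖u n‖ ≤ 1)
    (h : ∀ k, 1 ≤ k → Tendsto (avg fun n => u (n + k) * conj (u n)) atTop (𝓝 0)) :
    Tendsto (avg u) atTop (𝓝 0) := by
  have hb : ∀ a b n, ‖u (n + a) * conj (u (n + b))‖ ≤ 1 := by
    intro a b n
    rw [norm_mul, Complex.norm_conj]
    exact mul_le_one₀ (hu _) (norm_nonneg _) (hu _)
  have hoff : ∀ a b, a ≠ b → Tendsto (avg fun n => u (n + a) * conj (u (n + b))) atTop (𝓝 0) := by
    have key : ∀ a b, b < a →
        Tendsto (avg fun n => u (n + a) * conj (u (n + b))) atTop (𝓝 0) := by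
      intro a b hab
      have h1 := avg_shift (v := fun n => u (n + (a - b)) * conj (u n))
        (fun n => by simpa using hb (a - b) 0 n) b (h (a - b) (by omega))
      have e : ∀ n, n + b + (a - b) = n + a := fun n => by omega
      simpa only [e] using h1
    intro a b hab
    rcases lt_or_gt_of_ne hab with h1 | h1
    · have h2 := (Complex.continuous_conj.tendsto 0).comp (key b a h1)
      rw [map_zero] at h2
      refine h2.congr fun N => ?_
      simp [avg, mul_comm]
    · exact key a b h1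
  rw [tendsto_zero_iff_norm_tendsto_zero, Metric.tendsto_atTop]
  intro ε hε
  obtain ⟨H, hH⟩ := exists_nat_gt (8 / ε ^ 2)
  have hH0 : (0 : ℝ) < H := lt_trans (by positivity) hH
  have hH0' : (H : ℂ) ≠ 0 := by exact_mod_cast hH0.ne'
  let z : ℕ → ℂ := fun n => (H : ℂ)⁻¹ * ∑ a ∈ range H, u (n + a)
  have t1 : Tendsto (fun N => avg z N - avg u N) atTop (𝓝 0) := by
    have h1 := (tendsto_finsetSum (range H) fun a _ => avg_shift_sub hu a).const_mul (H : ℂ)⁻¹
    simp only [sum_const_zero, mul_zero] at h1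
    refine h1.congr fun N => ?_
    simp only [avg, z, sum_sub_distrib, sum_const, card_range, nsmul_eq_mul, ← mul_sum]
    rw [sum_comm]
    field_simp
  let D : ℕ → ℝ := fun N => ∑ a ∈ range H, ∑ b ∈ range H,
    if a = b then 0 else ‖avg (fun n => u (n + a) * conj (u (n + b))) N‖
  have t2 : Tendsto D atTop (𝓝 0) := by
    have h1 := tendsto_finsetSum (range H) fun a _ => tendsto_finsetSum (range H) fun b _ =>
      show Tendsto (fun N => if a = b then 0 else
        ‖avg (fun n => u (n + a) * conj (u (n + b))) N‖) atTop (𝓝 0) by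
        split_ifs with hab
        · exact tendsto_const_nhds
        · exact tendsto_zero_iff_norm_tendsto_zero.mp (hoff a b hab)
    simpa using h1
  have t3 : ∀ N, ‖avg z N‖ ^ 2 ≤ (H : ℝ)⁻¹ ^ 2 * (H + D N) := by
    intro N
    refine (norm_avg_sq_le z N).trans ((Complex.re_le_norm _).trans ?_)
    have e : avg (fun n => z n * conj (z n)) N = (H : ℂ)⁻¹ ^ 2 * ∑ a ∈ range H, ∑ b ∈ range H,
        avg (fun n => u (n + a) * conj (u (n + b))) N := by
      have e0 : ∀ n, z n * conj (z n) = (H : ℂ)⁻¹ ^ 2 * ∑ a ∈ range H, ∑ b ∈ range H,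
          u (n + a) * conj (u (n + b)) := by
        intro n
        simp only [z, map_mul, map_sum, map_inv₀, Complex.conj_natCast]
        rw [← sum_mul_sum]
        ring
      simp only [avg, e0, ← mul_sum]
      rw [mul_left_comm]
      congr 2
      rw [sum_comm]
      refine sum_congr rfl fun a _ => ?_
      simp only [mul_sum]
      exact sum_comm
    rw [e, norm_mul, norm_pow, norm_inv, Complex.norm_natCast]
    refine mul_le_mul_of_nonneg_left ?_ (by positivity)
    refine (norm_sum_le_of_le _ fun a _ => norm_sum_le_of_le _ fun b _ =>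
      show ‖avg (fun n => u (n + a) * conj (u (n + b))) N‖ ≤ (if a = b then 1 else 0) +
        (if a = b then 0 else ‖avg (fun n => u (n + a) * conj (u (n + b))) N‖) by
        split_ifs
        · simpa using norm_avg_le_one (hb a b) N
        · simp).trans (le_of_eq ?_)
    simp only [sum_add_distrib, D]
    congr 1
    rw [sum_congr rfl (g := fun _ => (1 : ℝ)) fun a ha => by simp [mem_range.mp ha]]
    simp
  have e1 := (tendsto_zero_iff_norm_tendsto_zero.mp t1).eventually (gt_mem_nhds (half_pos hε))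
  have e2 := t2.eventually (gt_mem_nhds hH0)
  obtain ⟨N0, hN0⟩ := eventually_atTop.mp (e1.and e2)
  refine ⟨N0, fun N hN => ?_⟩
  obtain ⟨f1, f2⟩ := hN0 N hN
  have f3 : ‖avg z N‖ ^ 2 < (ε / 2) ^ 2 := by
    refine (t3 N).trans_lt ?_
    have g1 : (H : ℝ)⁻¹ ^ 2 * (H + D N) < (H : ℝ)⁻¹ ^ 2 * (H + H) :=
      mul_lt_mul_of_pos_left (by linarith) (by positivity)
    have g2 : (H : ℝ)⁻¹ ^ 2 * (H + H) = 2 / H := by field_simp; ring
    have g3 : 2 / (H : ℝ) < (ε / 2) ^ 2 := by
      rw [div_lt_iff₀ hH0]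
      rw [div_lt_iff₀ (by positivity)] at hH
      nlinarith
    linarith
  have f4 : ‖avg z N‖ < ε / 2 := lt_of_pow_lt_pow_left₀ 2 (half_pos hε).le f3
  rw [Real.dist_0_eq_abs, abs_norm]
  have f5 := norm_sub_norm_le (avg u N) (avg z N)
  rw [norm_sub_rev] at f5
  linarith

/-- The character `exp (2 π i x)`. -/
noncomputable def ee (x : ℝ) : ℂ := Complex.exp (2 * Real.pi * Complex.I * x)

lemma ee_add (x y : ℝ) : ee (x + y) = ee x * ee y := by
  simp only [ee, ← Complex.exp_add]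
  congr 1
  push_cast
  ring

lemma norm_ee (x : ℝ) : ‖ee x‖ = 1 := by
  have := Complex.norm_exp_I_mul_ofReal (2 * Real.pi * x)
  rw [← this, ee]
  congr 2
  push_cast
  ring

lemma ee_int (z : ℤ) : ee z = 1 := by
  rw [ee, ← Complex.exp_int_mul_two_pi_mul_I z]
  congr 1
  push_cast
  ring

lemma ee_zero : ee 0 = 1 := by simp [ee]

lemma conj_ee (x : ℝ) : conj (ee x) = ee (-x) := by
  simp only [ee, ← Complex.exp_conj, map_mul, Complex.conj_ofReal, Complex.conj_I, map_ofNat]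
  congr 1
  push_cast
  ring

lemma ee_ne_one {x : ℝ} (hx : Irrational x) : ee x ≠ 1 := by
  intro h
  obtain ⟨n, hn⟩ := Complex.exp_eq_one_iff.mp h
  have h1 : (2 * Real.pi * Complex.I) ≠ 0 := Complex.two_pi_I_ne_zero
  have h2 : (x : ℂ) = n := mul_left_cancel₀ h1 (by rw [hn]; ring)
  exact hx.ne_int n (by exact_mod_cast h2)

lemma taylor_coeff_eq (θ : ℝ[X]) (r : ℝ) (n m : ℕ) (h : θ.natDegree ≤ n + m) :
    (taylor r θ).coeff n = ∑ j ∈ range (m + 1), ((j + n).choose n : ℝ) * θ.coeff (j + n) * r ^ j := by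
  rw [taylor_coeff, eval_eq_sum_range' (n := m + 1)
    ((natDegree_hasseDeriv_le _ _).trans_lt (by omega))]
  simp only [hasseDeriv_coeff]

lemma weyl_aux (d : ℕ) : ∀ θ : ℝ[X], θ.natDegree ≤ d + 1 → Irrational (θ.coeff (d + 1)) →
    ∀ (q : ℕ) (c : ℕ → ℂ), 1 ≤ q → (∀ n, c (n + q) = c n) → (∀ n, ‖c n‖ ≤ 1) →
    Tendsto (avg fun n => c n * ee (θ.eval (n : ℝ))) atTop (𝓝 0) := by
  induction d with
  | zero =>
    intro θ hθ hirr q c hq hc hc1
    have hb : ∀ n : ℕ, ‖c n * ee (θ.eval (n : ℝ))‖ ≤ 1 := fun n => by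
      rw [norm_mul, norm_ee, mul_one]
      exact hc1 n
    have h1 := avg_shift_sub hb q
    have hω : ee (q * θ.coeff 1) - 1 ≠ 0 :=
      sub_ne_zero.mpr (ee_ne_one (hirr.natCast_mul (by omega)))
    have h2 := h1.const_mul (ee (q * θ.coeff 1) - 1)⁻¹
    rw [mul_zero] at h2
    refine h2.congr fun N => ?_
    have e : ∀ n : ℕ, c (n + q) * ee (θ.eval ((n + q : ℕ) : ℝ)) =
        ee (q * θ.coeff 1) * (c n * ee (θ.eval (n : ℝ))) := by
      intro n
      rw [hc, mul_left_comm, ← ee_add, eval_eq_sum_range' (n := 2) (by omega),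
        eval_eq_sum_range' (n := 2) (by omega)]
      congr 2
      simp only [sum_range_succ, sum_range_zero]
      push_cast
      ring
    simp only [e, avg, ← mul_sum]
    field_simp
  | succ d ih =>
    intro θ hθ hirr q c hq hc hc1
    refine van_der_corput (fun n => ?_) fun k hk => ?_
    · rw [norm_mul, norm_ee, mul_one]
      exact hc1 n
    · have h1 := ih (taylor (k : ℝ) θ - θ) (by
          rw [natDegree_le_iff_coeff_eq_zero]
          intro N hN
          rw [coeff_sub, taylor_coeff_eq θ k N 0 (by omega)]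
          simp)
        (by
          rw [coeff_sub, taylor_coeff_eq θ k (d + 1) 1 (by omega)]
          simp only [sum_range_succ, sum_range_zero, zero_add, Nat.choose_self, Nat.cast_one,
            one_mul, pow_zero, mul_one, pow_one, add_sub_cancel_left]
          rw [add_comm 1 (d + 1)]
          exact (hirr.natCast_mul (Nat.choose_pos (by omega)).ne').mul_natCast (by omega))
        q (fun n => c (n + k) * conj (c n)) hq
        (fun n => by rw [add_right_comm, hc, hc])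
        (fun n => by
          rw [norm_mul, Complex.norm_conj]
          exact mul_le_one₀ (hc1 _) (norm_nonneg _) (hc1 _))
      refine h1.congr fun N => ?_
      congr 1
      funext n
      rw [eval_sub, taylor_eval, sub_eq_add_neg, ee_add, map_mul, conj_ee]
      push_cast
      ring

lemma rat_poly_period (ρ : ℚ[X]) : ∃ q : ℕ, 1 ≤ q ∧ ∀ n k : ℕ, ∃ z : ℤ,
    ρ.eval ((n + k * q : ℕ) : ℚ) = ρ.eval (n : ℚ) + z := by
  induction ρ using Polynomial.induction_on' with
  | add p1 p2 h1 h2 =>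
    obtain ⟨q1, a1, b1⟩ := h1
    obtain ⟨q2, a2, b2⟩ := h2
    refine ⟨q1 * q2, Nat.mul_pos a1 a2, fun n k => ?_⟩
    obtain ⟨z1, e1⟩ := b1 n (k * q2)
    obtain ⟨z2, e2⟩ := b2 n (k * q1)
    refine ⟨z1 + z2, ?_⟩
    rw [show k * q2 * q1 = k * (q1 * q2) by ring] at e1
    rw [show k * q1 * q2 = k * (q1 * q2) by ring] at e2
    rw [eval_add, eval_add, e1, e2]
    push_cast
    ring
  | monomial i a =>
    refine ⟨a.den, a.den_pos, fun n k => ?_⟩
    obtain ⟨t, ht⟩ := sub_dvd_pow_sub_pow ((n : ℤ) + k * a.den) n i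
    refine ⟨k * a.num * t, ?_⟩
    have h1 : (((n : ℤ) + k * a.den) ^ i - n ^ i : ℤ) = k * a.den * t := by
      rw [ht]
      ring
    have h2 : ((n : ℚ) + k * a.den) ^ i - (n : ℚ) ^ i = k * a.den * t := by exact_mod_cast h1
    have h3 : a * a.den = a.num := Rat.mul_den_eq_num a
    simp only [eval_monomial]
    push_cast
    linear_combination a * h2 + k * t * h3

theorem weyl (θ : ℝ[X]) (j : ℕ) (hj : 1 ≤ j) (hirr : Irrational (θ.coeff j)) :
    Tendsto (avg fun n => ee (θ.eval (n : ℝ))) atTop (𝓝 0) := by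
  classical
  obtain ⟨i, hi, hmax⟩ := exists_max_image
    ((range (θ.natDegree + 1)).filter fun i => 1 ≤ i ∧ Irrational (θ.coeff i)) id
    ⟨j, mem_filter.mpr ⟨mem_range.mpr (Nat.lt_succ_of_le (le_natDegree_of_ne_zero hirr.ne_zero)),
      hj, hirr⟩⟩
  obtain ⟨-, hi1, hi2⟩ := mem_filter.mp hi
  have hrat : ∀ l, i < l → ∃ r : ℚ, (r : ℝ) = θ.coeff l := by
    intro l hl
    by_cases h : l ≤ θ.natDegree
    · by_contra hcon
      have := hmax l (mem_filter.mpr ⟨mem_range.mpr (by omega), by omega, hcon⟩)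
      simp only [id] at this
      omega
    · exact ⟨0, by rw [coeff_eq_zero_of_natDegree_lt (by omega)]; simp⟩
  choose! r hr using hrat
  let ρ : ℚ[X] := ∑ l ∈ range (θ.natDegree + 1), monomial l (if i < l then r l else 0)
  have hρ : ∀ l, ((ρ.coeff l : ℚ) : ℝ) = if i < l then θ.coeff l else 0 := by
    intro l
    simp only [ρ, finsetSum_coeff, coeff_monomial, sum_ite_eq', mem_range]
    by_cases h1 : l < θ.natDegree + 1
    · rw [if_pos h1]
      split_ifs with h2
      · exact hr l h2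
      · simp
    · rw [if_neg h1, coeff_eq_zero_of_natDegree_lt (by omega)]
      simp
  obtain ⟨q, hq, hper⟩ := rat_poly_period ρ
  obtain ⟨d, rfl⟩ : ∃ d, i = d + 1 := ⟨i - 1, by omega⟩
  have h1 := weyl_aux d (θ - ρ.map (algebraMap ℚ ℝ)) (by
      rw [natDegree_le_iff_coeff_eq_zero]
      intro N hN
      rw [coeff_sub, coeff_map, eq_ratCast, hρ, if_pos hN, sub_self])
    (by
      rw [coeff_sub, coeff_map, eq_ratCast, hρ, if_neg (lt_irrefl _), sub_zero]
      exact hi2)
    q (fun n => ee ((ρ.eval (n : ℚ) : ℚ) : ℝ)) hq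
    (fun n => by
      obtain ⟨z, hz⟩ := hper n 1
      rw [one_mul] at hz
      rw [hz, Rat.cast_add, ee_add, Rat.cast_intCast, ee_int, mul_one])
    (fun n => (norm_ee _).le)
  refine h1.congr fun N => ?_
  congr 1
  funext n
  rw [← ee_add, eval_sub]
  congr 1
  have : (ρ.map (algebraMap ℚ ℝ)).eval (n : ℝ) = ((ρ.eval (n : ℚ) : ℚ) : ℝ) := by
    rw [eval_natCast_map, eq_ratCast]
  rw [this]
  ring

end Pool.Agent.Lib.MP_467fc0_an
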