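import Pool.Agent.Lib.MP_467fc0_an.Orbit
import Pool.Agent.Lib.MP_467fc0_an.Weyl

/-! Characters of the torus under a unipotent affine map. -/

namespace Pool.Agent.Lib.MP_467fc0_an

open Finset Filter Topology Polynomial MeasureTheory UnitAddTorus
open scoped ComplexConjugate ENNReal

variable {ι : Type} [Fintype ι]

/-- The torus. -/
abbrev Tor (ι : Type) := ι → UnitAddCircle

/-- Haar probability measure on the torus. -/
noncomputable abbrev haar (ι : Type) [Fintype ι] : Measure (Tor ι) :=
  Measure.pi fun _ : ι => AddCircle.haarAddCircle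

/-- A character with a phase. -/
noncomputable def chi (g : GG ι) (x : Tor ι) : ℂ := ee g.2 * mFourier g.1 x

lemma chi_add (g g' : GG ι) (x : Tor ι) : chi (g + g') x = chi g x * chi g' x := by
  simp only [chi, Prod.fst_add, Prod.snd_add, ee_add, mFourier_add]
  ring

lemma chi_neg (g : GG ι) (x : Tor ι) : chi (-g) x = conj (chi g x) := by
  simp only [chi, Prod.fst_neg, Prod.snd_neg, mFourier_neg, map_mul, conj_ee]

lemma chi_zero (x : Tor ι) : chi (0 : GG ι) x = 1 := by
  simp [chi, ee_zero, mFourier_zero]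

lemma chi_sum {κ : Type*} (s : Finset κ) (g : κ → GG ι) (x : Tor ι) :
    chi (∑ i ∈ s, g i) x = ∏ i ∈ s, chi (g i) x := by
  classical
  induction s using Finset.induction_on with
  | empty => simp [chi_zero]
  | insert a s ha ih => rw [sum_insert ha, prod_insert ha, chi_add, ih]

lemma norm_mFourier_apply (ξ : ι → ℤ) (x : Tor ι) : ‖mFourier ξ x‖ = 1 := by
  simp only [mFourier, fourier_apply, ContinuousMap.coe_mk, norm_prod, Circle.norm_coe,
    Finset.prod_const_one]

lemma norm_chi (g : GG ι) (x : Tor ι) : ‖chi g x‖ = 1 := by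
  rw [chi, norm_mul, norm_ee, norm_mFourier_apply, one_mul]

lemma continuous_chi (g : GG ι) : Continuous (chi g) :=
  continuous_const.mul (mFourier g.1).continuous

lemma mFourier_translate (ξ : ι → ℤ) (x h : Tor ι) :
    mFourier ξ (x + h) = mFourier ξ x * mFourier ξ h := by
  simp only [mFourier, ContinuousMap.coe_mk, fourier_apply, Pi.add_apply, smul_add,
    AddCircle.toCircle_add, Circle.coe_mul, prod_mul_distrib]

lemma chi_translate (g : GG ι) (x h : Tor ι) : chi g (x + h) = chi g x * mFourier g.1 h := by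
  rw [chi, chi, mFourier_translate, mul_assoc]

lemma mFourier_coe (ξ : ι → ℤ) (y : ι → ℝ) :
    mFourier ξ (fun i => (y i : UnitAddCircle)) = ee (∑ i, ξ i * y i) := by
  simp only [mFourier, ContinuousMap.coe_mk, fourier_coe_apply, ee, ← Complex.exp_sum]
  congr 1
  push_cast
  rw [mul_sum]
  refine sum_congr rfl fun i _ => ?_
  ring

lemma memLp_of_continuous {f : Tor ι → ℂ} (hf : Continuous f) (p : ℝ≥0∞) : MemLp f p (haar ι) := by
  obtain ⟨C, hC⟩ := (isCompact_range hf).isBounded.exists_norm_le
  exact MemLp.of_bound hf.aestronglyMeasurable C (Eventually.of_forall fun x => hC _ ⟨x, rfl⟩)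

lemma integrable_of_continuous {f : Tor ι → ℂ} (hf : Continuous f) : Integrable f (haar ι) :=
  memLp_one_iff_integrable.mp (memLp_of_continuous hf 1)

lemma integral_mFourier_ne {ξ : ι → ℤ} (h : ξ ≠ 0) : ∫ x, mFourier ξ x ∂(haar ι) = 0 := by
  classical
  have h1 := orthonormal_iff_ite.mp (orthonormal_mFourier (d := ι)) 0 ξ
  rw [if_neg h.symm] at h1
  simp only [ContinuousMap.inner_toLp, ← mFourier_neg, ← mFourier_add, neg_zero, add_zero] at h1
  exact h1

lemma integral_chi_ne {g : GG ι} (h : g.1 ≠ 0) : ∫ x, chi g x ∂(haar ι) = 0 := by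
  simp only [chi]
  rw [integral_const_mul, integral_mFourier_ne h, mul_zero]

lemma norm_integral_chi_le (g : GG ι) : ‖∫ x, chi g x ∂(haar ι)‖ ≤ 1 := by
  have := norm_integral_le_of_norm_le_const (μ := haar ι) (f := chi g) (C := 1)
    (Eventually.of_forall fun x => (norm_chi g x).le)
  simpa using this

/-- The data attached to a Weyl system. -/
structure Setup (T : Equiv.Perm (Tor ι)) (N : Module.End ℤ (GG ι)) (M : ℕ) : Prop where
  hN : N ^ (M + 1) = 0
  hN0 : ∀ g : GG ι, g.1 = 0 → N g = 0
  chiT : ∀ (g : GG ι) (n : ℤ) (x : Tor ι), chi g ((T ^ n) x) = chi (Phi N M n g) x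
  mp : ∀ n : ℤ, MeasurePreserving (T ^ n) (haar ι) (haar ι)

theorem exists_setup [DecidableEq ι] (A : Matrix ι ι ℤ) (b : Tor ι) (T : Equiv.Perm (Tor ι))
    (hA : IsNilpotent (A - 1)) (hT : ∀ x i, T x i = ∑ j, A i j • x j + b i) :
    ∃ N M, Setup T N M := by
  choose β hβ using fun i => QuotientAddGroup.mk_surjective (b i)
  let N : Module.End ℤ (GG ι) := AddMonoidHom.toIntLinearMap
    { toFun := fun g => (Matrix.vecMul g.1 (A - 1), ∑ i, g.1 i * β i)
      map_zero' := by simp
      map_add' := by
        intro g g'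
        simp [Matrix.add_vecMul, add_mul, sum_add_distrib] }
  have hNa : ∀ g : GG ι, N g = (Matrix.vecMul g.1 (A - 1), ∑ i, g.1 i * β i) := fun _ => rfl
  have hN0 : ∀ g : GG ι, g.1 = 0 → N g = 0 := by
    intro g hg
    simp [hNa, hg]
  obtain ⟨M, hM⟩ := hA
  have hpow : ∀ k (g : GG ι), ((N ^ k) g).1 = Matrix.vecMul g.1 ((A - 1) ^ k) := by
    intro k g
    induction k with
    | zero => simp
    | succ k ih => rw [pow_succ', Module.End.mul_apply, hNa, ih, Matrix.vecMul_vecMul, pow_succ]
  have hN : N ^ (M + 1) = 0 := by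
    refine LinearMap.ext fun g => ?_
    rw [pow_succ', Module.End.mul_apply, hN0 _ (by rw [hpow, hM]; simp)]
    rfl
  have h1 : ∀ (g : GG ι) (x : Tor ι), chi g (T x) = chi ((1 + N) g) x := by
    intro g x
    choose y hy using fun i => QuotientAddGroup.mk_surjective (x i)
    have hx : x = fun i => (y i : UnitAddCircle) := funext fun i => (hy i).symm
    have hTx : T x = fun i => ((∑ j, A i j * y j + β i : ℝ) : UnitAddCircle) := by
      funext i
      rw [hT, ← hβ i, AddCircle.coe_add]
      congr 1
      rw [QuotientAddGroup.mk_sum]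
      refine sum_congr rfl fun j _ => ?_
      rw [← hy j, ← zsmul_eq_mul, QuotientAddGroup.mk_zsmul]
    rw [hTx, hx, chi, chi, mFourier_coe, mFourier_coe, ← ee_add, ← ee_add]
    congr 1
    simp only [LinearMap.add_apply, Module.End.one_apply, hNa, Prod.snd_add, Prod.fst_add,
      Matrix.vecMul_sub, Matrix.vecMul_one, add_sub_cancel, Matrix.vecMul, dotProduct]
    push_cast
    simp only [mul_add, sum_add_distrib, mul_sum, sum_mul]
    rw [sum_comm]
    simp only [mul_assoc]
    ring
  have hcont : Continuous T := by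
    refine continuous_pi fun i => ?_
    simp only [hT]
    fun_prop
  let L : Tor ι →+ Tor ι :=
    { toFun := fun x i => ∑ j, A i j • x j
      map_zero' := by ext i; simp
      map_add' := by intro x y; ext i; simp [sum_add_distrib] }
  have hTL : ∀ x, T x = L x + b := fun x => funext fun i => hT x i
  have hmp : MeasurePreserving T (haar ι) (haar ι) := by
    have h2 : MeasurePreserving L (haar ι) (haar ι) := by
      refine AddMonoidHom.measurePreserving ?_ ?_ rfl
      · have : (L : Tor ι → Tor ι) = fun x => T x - b := funext fun x => by rw [hTL]; simp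
        rw [this]
        exact hcont.sub continuous_const
      · intro y
        obtain ⟨x, hx⟩ := T.surjective (y + b)
        exact ⟨x, by rw [hTL] at hx; exact add_right_cancel hx⟩
    have h3 : (T : Tor ι → Tor ι) = (fun y => y + b) ∘ L := funext hTL
    rw [h3]
    exact (measurePreserving_add_right _ b).comp h2
  have hmp' : MeasurePreserving T.symm (haar ι) (haar ι) :=
    MeasurePreserving.symm (hcont.homeoOfEquivCompactToT2 (f := T)).toMeasurableEquiv hmp
  refine ⟨N, M, hN, hN0, ?_, ?_⟩
  · intro g n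
    induction n using Int.induction_on with
    | zero => simp [Phi_zero]
    | succ n ih =>
      intro x
      rw [zpow_add_one, Equiv.Perm.mul_apply, ih, h1, add_comm (n : ℤ) 1, Phi_add hN, Phi_one hN]
      rfl
    | pred n ih =>
      intro x
      have h2 := h1 (Phi N M (-(n : ℤ) - 1) g) (T⁻¹ x)
      rw [← Phi_one hN, ← Module.End.mul_apply, ← Phi_add hN, add_sub_cancel] at h2
      rw [zpow_sub_one, Equiv.Perm.mul_apply, ih, ← h2]
      simp
  · intro n
    induction n using Int.induction_on with
    | zero => exact MeasurePreserving.id _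
    | succ n ih =>
      rw [zpow_add_one]
      exact ih.comp hmp
    | pred n ih =>
      rw [zpow_sub_one]
      exact ih.comp hmp'

lemma tendsto_eLpNorm_of_integral_sq {X : Type*} [MeasurableSpace X] {μ : Measure X}
    {F : ℕ → X → ℂ} (hF : ∀ n, MemLp (F n) 2 μ)
    (h : Tendsto (fun n => ∫ x, ‖F n x‖ ^ 2 ∂μ) atTop (𝓝 0)) :
    Tendsto (fun n => eLpNorm (F n) 2 μ) atTop (𝓝 0) := by
  have h1 := (ENNReal.continuous_ofReal.tendsto _).comp ((Real.continuous_sqrt.tendsto _).comp h)
  simp only [Real.sqrt_zero, ENNReal.ofReal_zero] at h1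
  refine h1.congr fun n => ?_
  rw [(hF n).eLpNorm_eq_integral_rpow_norm (by norm_num) (by norm_num)]
  simp [Real.sqrt_eq_rpow]

theorem chi_avg_tendsto (s : ℕ → GG ι)
    (hs : ∀ L : GG ι →+ ℝ, ∃ q : ℝ[X], ∀ n : ℕ, L (s n) = q.eval (n : ℝ))
    (hne : ¬ ∀ n, s n - s 0 ∈ Nul ι) :
    Tendsto (fun N => eLpNorm (fun x => avg (fun n => chi (s n) x) N) 2 (haar ι)) atTop (𝓝 0) := by
  classical
  have hc : ∀ N, Continuous fun x => avg (fun n => chi (s n) x) N := fun N =>
    continuous_const.mul (continuous_finsetSum _ fun n _ => continuous_chi _)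
  refine tendsto_eLpNorm_of_integral_sq (fun N => memLp_of_continuous (hc N) 2) ?_
  by_cases h1 : ∀ n, (s n).1 = (s 0).1
  · obtain ⟨θ, hθ⟩ := hs (AddMonoidHom.snd _ _)
    have h2 : ∃ j, 1 ≤ j ∧ Irrational (θ.coeff j) := by
      by_contra hcon
      push Not at hcon
      refine hne fun n => ⟨by simp [h1 n], ?_⟩
      have h3 : ∀ j, ∃ r : ℚ, (r : ℝ) = θ.coeff (j + 1) := fun j => by
        simpa [Irrational] using hcon (j + 1) (by omega)
      choose r hr using h3
      refine ⟨∑ j ∈ range θ.natDegree, r j * (n : ℚ) ^ (j + 1), ?_⟩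
      have e1 : (s n).2 = θ.eval (n : ℝ) := hθ n
      have e2 : (s 0).2 = θ.eval ((0 : ℕ) : ℝ) := hθ 0
      rw [Prod.snd_sub, e1, e2, eval_eq_sum_range, sum_range_succ', Nat.cast_zero,
        ← coeff_zero_eq_eval_zero]
      push_cast
      simp [hr]
    obtain ⟨j, hj, hirr⟩ := h2
    have h3 := ((weyl θ j hj hirr).norm).pow 2
    simp only [norm_zero, ne_eq, OfNat.ofNat_ne_zero, not_false_eq_true, zero_pow] at h3
    refine h3.congr fun N => ?_
    have e : ∀ x, ‖avg (fun n => chi (s n) x) N‖ = ‖avg (fun n => ee (θ.eval (n : ℝ))) N‖ := by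
      intro x
      have e1 : ∀ n, chi (s n) x = ee (θ.eval (n : ℝ)) * mFourier (s 0).1 x := fun n => by
        rw [chi, h1 n, ← hθ n]
        rfl
      simp only [avg, e1, ← sum_mul, norm_mul, norm_mFourier_apply, mul_one]
    simp [e]
  · push Not at h1
    obtain ⟨n0, hn0⟩ := h1
    obtain ⟨i, hi⟩ := Function.ne_iff.mp hn0
    obtain ⟨q, hq⟩ := hs ((Int.castAddHom ℝ).comp ((Pi.evalAddMonoidHom (fun _ : ι => ℤ) i).comp
      (AddMonoidHom.fst _ _)))
    have hq' : ∀ n : ℕ, (((s n).1 i : ℤ) : ℝ) = q.eval (n : ℝ) := hq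
    have hcount : ∀ N n : ℕ, ((range N).filter fun m => (s n).1 = (s m).1).card ≤ q.natDegree := by
      intro N n
      have hq0 : q - C (q.eval (n : ℝ)) ≠ 0 := by
        intro h0
        have h3 : ∀ m : ℕ, q.eval (m : ℝ) = q.eval (n : ℝ) := fun m => by
          simpa [sub_eq_zero] using congrArg (eval (m : ℝ)) h0
        apply hi
        have := (h3 n0).trans (h3 0).symm
        rw [← hq', ← hq'] at this
        exact_mod_cast this
      have h4 : (((range N).filter fun m => (s n).1 = (s m).1).image
          (Nat.cast : ℕ → ℝ)).val ⊆ (q - C (q.eval (n : ℝ))).roots := by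
        intro y hy
        obtain ⟨m, hm, rfl⟩ := mem_image.mp (mem_val.mp hy)
        rw [mem_roots hq0, IsRoot, eval_sub, eval_C, ← hq', ← hq', (mem_filter.mp hm).2, sub_self]
      have h5 := card_le_degree_of_subset_roots h4
      rwa [card_image_of_injective _ Nat.cast_injective, natDegree_sub_C] at h5
    refine squeeze_zero (fun N => integral_nonneg fun x => by positivity) (fun N => ?_)
      (tendsto_const_div_atTop_nhds_zero_nat (q.natDegree : ℝ))
    have e1 : ∀ x, ((‖avg (fun n => chi (s n) x) N‖ ^ 2 : ℝ) : ℂ) =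
        (N : ℂ)⁻¹ ^ 2 * ∑ n ∈ range N, ∑ m ∈ range N, chi (s n - s m) x := by
      intro x
      push_cast
      rw [← Complex.mul_conj']
      simp only [avg, map_mul, map_sum, map_inv₀, Complex.conj_natCast, sub_eq_add_neg, chi_add,
        chi_neg]
      rw [← sum_mul_sum]
      ring
    have e2 : ((∫ x, ‖avg (fun n => chi (s n) x) N‖ ^ 2 ∂(haar ι) : ℝ) : ℂ) =
        (N : ℂ)⁻¹ ^ 2 * ∑ n ∈ range N, ∑ m ∈ range N, ∫ x, chi (s n - s m) x ∂(haar ι) := by
      rw [← integral_complex_ofReal]
      simp only [e1]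
      rw [integral_const_mul, integral_finsetSum _ fun n _ => integrable_of_continuous
        (continuous_finsetSum _ fun m _ => continuous_chi _)]
      congr 1
      exact sum_congr rfl fun n _ => integral_finsetSum _ fun m _ =>
        integrable_of_continuous (continuous_chi _)
    have e3 : ‖∑ n ∈ range N, ∑ m ∈ range N, ∫ x, chi (s n - s m) x ∂(haar ι)‖ ≤
        N * q.natDegree := by
      refine (norm_sum_le_of_le _ (n := fun _ => (q.natDegree : ℝ)) fun n _ => ?_).trans (by simp)
      refine (norm_sum_le_of_le _ (n := fun m => if (s n).1 = (s m).1 then (1 : ℝ) else 0)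
        fun m _ => ?_).trans ?_
      · split_ifs with h
        · exact norm_integral_chi_le _
        · rw [integral_chi_ne (by simpa [sub_eq_zero] using h), norm_zero]
      · rw [sum_boole]
        exact_mod_cast hcount N n
    have e4 := congrArg norm e2
    rw [Complex.norm_real, norm_mul, norm_pow, norm_inv, Complex.norm_natCast] at e4
    refine (le_abs_self _).trans ?_
    rw [← Real.norm_eq_abs, e4]
    rcases Nat.eq_zero_or_pos N with rfl | hN
    · simp
    · have hN' : (0 : ℝ) < N := by exact_mod_cast hN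
      refine (mul_le_mul_of_nonneg_left e3 (by positivity)).trans (le_of_eq ?_)
      field_simp

end Pool.Agent.Lib.MP_467fc0_an
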