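import Mathlib

namespace Pool.Agent.Lib.MP_467fc0_an

open MeasureTheory Filter Topology
open scoped ENNReal

variable {X : Type*}

/-- `hkPow μ T k f` is the `2 ^ (k + 1)`-th power of the Host–Kra seminorm of order `k + 1`. -/
noncomputable def hkPow [MeasurableSpace X] (μ : Measure X) (T : Equiv.Perm X) :
    ℕ → (X → ℂ) → ℝ
  | 0, f => ∫ x, ‖condExp (MeasurableSpace.invariants T) μ f x‖ ^ 2 ∂μ
  | k + 1, f => limsup (fun H : ℕ => (H : ℝ)⁻¹ * ∑ h ∈ Finset.Icc 1 H,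
      hkPow μ T k (fun x => starRingEnd ℂ (f x) * f ((T ^ h) x))) atTop

/-- `Z` is a Host–Kra factor of order `k`. -/
def IsHostKraFactor (Z : MeasurableSpace X) [mX : MeasurableSpace X] (μ : Measure X)
    (T : Equiv.Perm X) (k : ℕ) : Prop :=
  Z ≤ mX ∧
    (∀ s : Set X, MeasurableSet[Z] s → MeasurableSet[Z] (T ⁻¹' s) ∧ MeasurableSet[Z] (T '' s)) ∧
    ∀ f : X → ℂ, MemLp f ∞ μ → (condExp Z μ f =ᵐ[μ] 0 ↔ hkPow μ T k f = 0)

/-- The polynomial multiple ergodic average. -/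
noncomputable def polyAvg {l : ℕ} (T : Equiv.Perm X) (p : Fin l → Polynomial ℤ)
    (f : Fin l → X → ℂ) (N : ℕ) (x : X) : ℂ :=
  (N : ℂ)⁻¹ * ∑ n ∈ Finset.Icc 1 N, ∏ i, f i ((T ^ (p i).eval (n : ℤ)) x)

/-- `Z` is characteristic for mean convergence of the averages. -/
def IsCharacteristic (Z : MeasurableSpace X) [MeasurableSpace X] {l : ℕ} (μ : Measure X)
    (T : Equiv.Perm X) (p : Fin l → Polynomial ℤ) : Prop :=
  ∀ f : Fin l → X → ℂ, (∀ i, MemLp (f i) ∞ μ) →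
    Tendsto (fun N => eLpNorm (polyAvg T p f N - polyAvg T p (fun i => condExp Z μ (f i)) N) 2 μ)
      atTop (𝓝 0)

end Pool.Agent.Lib.MP_467fc0_an
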