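import Mathlib

/-! The order of vanishing at zero of an exponential polynomial. -/

namespace Pool.Agent.Lib.MP_467fc0_an

open PowerSeries Finset

variable {K : Type*} [Field K] [CharZero K]

/-- The series `exp (a z)`. -/
noncomputable def ex (a : K) : K⟦X⟧ := rescale a (exp K)

lemma coeff_ex (a : K) (n : ℕ) : coeff n (ex a) = a ^ n * ((n.factorial : K))⁻¹ := by
  simp [ex, coeff_rescale, coeff_exp]

lemma derivative_ex (a : K) : d⁄dX K (ex a) = C a * ex a := by
  ext n
  rw [coeff_derivative, coeff_C_mul, coeff_ex, coeff_ex, Nat.factorial_succ]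
  have h1 : ((n.factorial : ℕ) : K) ≠ 0 := by exact_mod_cast n.factorial_ne_zero
  have h2 : ((n : K) + 1) ≠ 0 := by exact_mod_cast n.succ_ne_zero
  push_cast
  field_simp
  ring

lemma exp_poly_zero [DecidableEq K] (A : Finset K) : ∀ (n : ℕ) (T : K → K⟦X⟧) (nn : K → ℕ),
    ∑ a ∈ A, nn a = n → (∀ a ∈ A, ∀ m, nn a ≤ m → coeff m (T a) = 0) →
    (∀ m < n, coeff m (∑ a ∈ A, ex a * T a) = 0) → ∀ a ∈ A, T a = 0 := by
  intro n
  induction n with
  | zero =>
    intro T nn hn hT _ a ha
    ext m
    have : nn a = 0 := (sum_eq_zero_iff.mp hn) a ha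
    simpa using hT a ha m (by omega)
  | succ n ih =>
    intro T nn hn hT hG
    obtain ⟨a1, ha1, hpos⟩ : ∃ a1 ∈ A, nn a1 ≠ 0 := by
      by_contra hcon
      push Not at hcon
      rw [sum_eq_zero hcon] at hn
      omega
    let T' : K → K⟦X⟧ := fun a => d⁄dX K (T a) + C (a - a1) * T a
    have hT'c : ∀ a m, coeff m (T' a) = coeff (m + 1) (T a) * (m + 1) + (a - a1) * coeff m (T a) := by
      intro a m
      simp only [T', map_add, coeff_derivative, coeff_C_mul]
    have hsum : ∑ a ∈ A, ex a * T' a =
        d⁄dX K (∑ a ∈ A, ex a * T a) - C a1 * ∑ a ∈ A, ex a * T a := by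
      rw [map_sum, mul_sum, ← sum_sub_distrib]
      refine sum_congr rfl fun a _ => ?_
      rw [Derivation.leibniz, derivative_ex]
      simp only [T', smul_eq_mul, map_sub]
      ring
    have h0 := ih T' (Function.update nn a1 (nn a1 - 1)) (by
        rw [sum_update_of_mem ha1]
        rw [← add_sum_erase _ _ ha1, ← sdiff_singleton_eq_erase] at hn
        omega)
      (by
        intro a ha m hm
        rw [hT'c]
        by_cases h : a = a1
        · subst h
          rw [Function.update_self] at hm
          rw [hT a ha (m + 1) (by omega)]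
          simp
        · rw [Function.update_of_ne h] at hm
          rw [hT a ha (m + 1) (by omega), hT a ha m hm]
          simp)
      (by
        intro m hm
        rw [hsum, map_sub, coeff_derivative, coeff_C_mul, hG (m + 1) (by omega), hG m (by omega)]
        simp)
    have hne : ∀ a ∈ A, a ≠ a1 → T a = 0 := by
      intro a ha h
      have key : ∀ j m, nn a ≤ m + j → coeff m (T a) = 0 := by
        intro j
        induction j with
        | zero => exact fun m hm => hT a ha m hm
        | succ j ihj =>
          intro m hm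
          have e1 := hT'c a m
          rw [h0 a ha, ihj (m + 1) (by omega)] at e1
          simp only [map_zero, zero_mul, zero_add] at e1
          exact (mul_eq_zero.mp e1.symm).resolve_left (sub_ne_zero.mpr h)
      ext m
      simpa using key (nn a) m (by omega)
    intro a ha
    by_cases h : a = a1
    · subst h
      ext m
      cases m with
      | zero =>
        have e1 := hG 0 (by omega)
        rw [sum_eq_single_of_mem a ha (fun b hb hne' => by rw [hne b hb hne', mul_zero])] at e1
        rw [coeff_mul] at e1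
        simpa [coeff_ex, ex] using e1
      | succ m =>
        have e1 := hT'c a m
        rw [h0 a ha] at e1
        simp only [map_zero, sub_self, zero_mul, add_zero] at e1
        have h2 : ((m : K) + 1) ≠ 0 := by exact_mod_cast m.succ_ne_zero
        simpa using (mul_eq_zero.mp e1.symm).resolve_right h2
    · exact hne a ha h

lemma exp_poly_order [DecidableEq K] (A : Finset K) (T : K → K⟦X⟧) (nn : K → ℕ) (μ : ℕ)
    (hT : ∀ a ∈ A, ∀ m, coeff m (T a) ≠ 0 → μ ≤ m ∧ m < μ + nn a) (hne : ∃ a ∈ A, T a ≠ 0) :
    ∃ m < μ + ∑ a ∈ A, nn a, coeff m (∑ a ∈ A, ex a * T a) ≠ 0 := by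
  by_contra hcon
  push Not at hcon
  let T' : K → K⟦X⟧ := fun a => mk fun m => coeff (m + μ) (T a)
  have hTT : ∀ a ∈ A, T a = X ^ μ * T' a := by
    intro a ha
    ext m
    rw [coeff_X_pow_mul']
    split_ifs with h
    · simp [T', Nat.sub_add_cancel h]
    · by_contra h1
      exact h (hT a ha m h1).1
  have hs : ∑ a ∈ A, ex a * T a = X ^ μ * ∑ a ∈ A, ex a * T' a := by
    rw [mul_sum]
    refine sum_congr rfl fun a ha => ?_
    rw [hTT a ha]
    ring
  have h0 := exp_poly_zero A _ T' nn rfl
    (by
      intro a ha m hm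
      simp only [T', coeff_mk]
      by_contra h1
      have := (hT a ha _ h1).2
      omega)
    (by
      intro m hm
      have := hcon (m + μ) (by omega)
      rwa [hs, coeff_X_pow_mul] at this)
  obtain ⟨a, ha, h1⟩ := hne
  exact h1 (by rw [hTT a ha, h0 a ha, mul_zero])

end Pool.Agent.Lib.MP_467fc0_an
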