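import Pool.Agent.Lib.MP_467fc0_an.Sep

/-! Families with many separated pairs and a relation of the largest possible degree. -/

namespace Pool.Agent.Lib.MP_467fc0_an

open Finset Polynomial

/-- A family with `κ` separated pairs and a relation of degree `D`. -/
def Extr (ι : Type) [Fintype ι] (κ D : ℕ) : Prop :=
  ∃ (P Q : ι → ℤ[X]) (i0 j : ι) (u v : Fin κ → ι), P i0 = 0 ∧ j ≠ i0 ∧
    (∀ a b, a ≠ b → 0 < (P a - P b).natDegree) ∧ Sep univ univ u v P ∧
    (∀ n : ℤ, ∑ a, taylor ((P a).eval n) (Q a) = 0) ∧ (∀ a, (Q a).natDegree ≤ D) ∧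
    (Q j).coeff D ≠ 0

lemma diff_lt (w : ℤ) {G : ℤ[X]} {k : ℕ} (h : G.degree < (k + 1 : ℕ)) :
    (taylor w G - G).degree < k := by
  by_cases h0 : G = 0
  · simp [h0]
  have h1 := degree_sub_lt_left (degree_taylor G w) (by simpa using h0) (leadingCoeff_taylor w G)
  rw [degree_taylor] at h1
  refine h1.trans_le ?_
  rw [degree_eq_natDegree h0] at h ⊢
  exact_mod_cast Nat.lt_succ_iff.mp (by exact_mod_cast h)

lemma fwd_zero (w : ℤ) : ∀ (k : ℕ) (G : ℤ[X]), G.degree < k →
    (fwdDiff w)^[k] (fun y : ℤ => taylor y G) = 0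
  | 0, G, h => by
    obtain rfl : G = 0 := by simpa using h
    funext y
    simp
  | k + 1, G, h => by
    rw [Function.iterate_succ_apply, ← fwd_zero w k _ (diff_lt w h)]
    congr 1
    funext y
    rw [fwdDiff, map_sub, taylor_taylor]

lemma extr_base (k : ℕ) : Extr (Fin (k + 1) × Bool) (k + 1) k := by
  have hd : ∀ (s t : Fin (k + 1)) (r : ℤ[X]), s ≠ t → r.coeff 2 = 0 →
      2 ≤ (C (s : ℤ) * X ^ 2 - C (t : ℤ) * X ^ 2 + r).natDegree := fun s t r h hr =>
    le_natDegree_of_ne_zero (by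
      simp only [coeff_add, coeff_sub, coeff_C_mul, coeff_X_pow, if_true, mul_one, hr, add_zero]
      exact sub_ne_zero.mpr fun e => h (Fin.ext (by exact_mod_cast e)))
  refine ⟨fun a => C (a.1 : ℤ) * X ^ 2 + if a.2 then X else 0,
    fun a => C ((if a.2 then 1 else -1) * ((-1) ^ (k - a.1) * (k.choose a.1 : ℤ))) * X ^ k,
    (0, false), (0, true), fun s => (s, false), fun s => (s, true), by simp, by simp, ?_,
    ⟨fun t _ => ⟨mem_univ _, mem_univ _, by simp⟩, fun s _ t _ h => ?_⟩, fun n => ?_,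
    fun a => (natDegree_C_mul_le _ _).trans (natDegree_X_pow_le _),
    by rw [coeff_C_mul]; simp⟩
  · rintro ⟨s, b⟩ ⟨t, c⟩ h
    by_cases e : s = t
    · subst e
      cases b <;> cases c <;> simp at h ⊢
    · simp only [add_sub_add_comm]
      refine lt_of_lt_of_le two_pos (hd s t _ e ?_)
      cases b <;> cases c <;> simp [coeff_X]
  · have := hd s t 0 h (by simp)
    simp only [Bool.false_eq_true, if_false, if_true, add_zero, sub_add_cancel_left, natDegree_neg,
      natDegree_X] at this ⊢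
    omega
  · have h1 := congrFun (fwd_zero (n ^ 2) k (taylor n (X ^ k) - X ^ k)
      (diff_lt n (by rw [degree_X_pow]; exact_mod_cast k.lt_succ_self))) 0
    rw [fwdDiff_iter_eq_sum_shift, sum_range] at h1
    rw [Fintype.sum_prod_type]
    refine Eq.trans (sum_congr rfl fun s _ => ?_) h1
    rw [Fintype.sum_bool, map_sub, taylor_taylor]
    simp only [C_mul', map_smul, if_true, Bool.false_eq_true, if_false, eval_add, eval_smul,
      eval_pow, eval_X, add_zero, zero_add, one_mul, neg_mul, map_neg,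
      smul_eq_mul, nsmul_eq_mul, sub_eq_add_neg, smul_add, smul_neg]

lemma exists_prim (D : ℕ) (Q : ℤ[X]) (h : Q.natDegree ≤ D) : ∃ I : ℤ[X],
    derivative I = C ((D + 1).factorial : ℤ) * Q ∧ I.natDegree ≤ D + 1 := by
  refine ⟨∑ m ∈ range (D + 1), monomial (m + 1) (((D + 1).factorial / (m + 1) : ℕ) * Q.coeff m),
    ?_, natDegree_sum_le_of_forall_le _ _ fun m hm => (natDegree_monomial_le _).trans
      (mem_range.mp hm)⟩
  conv_rhs => rw [Q.as_sum_range' (D + 1) (Nat.lt_succ_of_le h)]
  rw [derivative_sum, mul_sum]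
  refine sum_congr rfl fun m hm => ?_
  rw [derivative_monomial_succ, C_mul_monomial]
  congr 1
  have := Nat.div_mul_cancel (Nat.dvd_factorial m.succ_pos (mem_range.mp hm))
  rw [mul_right_comm]
  congr 1
  exact_mod_cast this

lemma Extr.step {ι : Type} [Fintype ι] {κ D : ℕ} (h : Extr ι κ D)
    (hc : Fintype.card ι = D + κ + 1) : Extr (Option ι) κ (D + 1) := by
  classical
  obtain ⟨P, Q, i0, j, u, v, h0, hj, hP, hs, hr, hd, hQ⟩ := h
  choose I hI hI' using fun a => exists_prim D (Q a) (hd a)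
  have hIj : (I j).coeff (D + 1) ≠ 0 := fun e => by
    have h1 := coeff_derivative (I j) D
    rw [hI, e, zero_mul, coeff_C_mul] at h1
    exact mul_ne_zero (by exact_mod_cast (D + 1).factorial_ne_zero) hQ h1
  obtain ⟨H, hH⟩ : ∃ H : ℤ[X], ∀ n : ℤ, ∑ a, taylor ((P a).eval n) (I a) = C (H.eval n) := by
    refine ⟨∑ a, (I a).comp (P a), fun n => ?_⟩
    rw [eq_C_of_derivative_eq_zero (p := ∑ a, taylor ((P a).eval n) (I a)) ?_]
    · simp only [finsetSum_coeff, taylor_coeff_zero, eval_finsetSum, eval_comp]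
    · have h1 : ∀ a, derivative (taylor ((P a).eval n) (I a)) =
          C ((D + 1).factorial : ℤ) * taylor ((P a).eval n) (Q a) := fun a => by
        rw [taylor_apply, derivative_comp, hI, taylor_apply]
        simp
      simp only [derivative_sum, h1, ← mul_sum, hr, mul_zero]
  have hH0 : 0 < H.natDegree := by
    refine Nat.pos_of_ne_zero fun e => ?_
    have hinj : Function.Injective (Int.castRingHom ℚ) := Int.cast_injective
    have hd' : ∀ a b, ((P a).map (Int.castRingHom ℚ) - (P b).map (Int.castRingHom ℚ)).natDegree =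
        (P a - P b).natDegree := fun a b => by
      rw [← Polynomial.map_sub, natDegree_map_eq_of_injective hinj]
    have h1 := algebraic_sep u v (fun o => (P o).map (Int.castRingHom ℚ))
      (fun a => (I a - if a = i0 then H else 0).map (Int.castRingHom ℚ))
      (fun a b hab => by rw [hd']; exact hP a b hab)
      ⟨hs.1, fun t ht t' ht' h => by rw [hd', hd']; exact hs.2 t ht t' ht' h⟩ (fun m n => ?_) j
      (D + 1) (by rw [Fintype.card_fin]; omega)
    · simp [hj, hIj] at h1
    · have h2 := congrArg (eval (m : ℤ)) (hH n)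
      have h3 : ∀ a, ((I a - if a = i0 then H else 0).map (Int.castRingHom ℚ)).eval
          ((m : ℚ) + ((P a).map (Int.castRingHom ℚ)).eval (n : ℚ)) =
          ((((I a).eval (m + (P a).eval (n : ℤ)) - if a = i0 then H.coeff 0 else 0 : ℤ)) : ℚ) := by
        intro a
        rw [eval_natCast_map, eq_intCast, ← Int.cast_natCast, ← Int.cast_add, eval_intCast_map,
          eq_intCast, Int.cast_id, eval_sub]
        split_ifs
        · rw [eq_C_of_natDegree_eq_zero e]; simp
        · simp
      simp only [h3]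
      rw [← Int.cast_sum, sum_sub_distrib]
      simp only [eval_finsetSum, taylor_eval, eval_C] at h2
      rw [h2, eq_C_of_natDegree_eq_zero e]
      simp
  have hlc : H.coeff H.natDegree ≠ 0 := leadingCoeff_ne_zero.mpr (ne_zero_of_natDegree_gt hH0)
  obtain ⟨c, hc'⟩ := Infinite.exists_notMem_finset
    (univ.image fun a => (P a).coeff H.natDegree / H.coeff H.natDegree)
  have hne : ∀ a, c * H.coeff H.natDegree ≠ (P a).coeff H.natDegree := fun a e =>
    hc' (mem_image.mpr ⟨a, mem_univ _, by rw [← e, Int.mul_ediv_cancel _ hlc]⟩)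
  have hc0 : c ≠ 0 := fun e => hne i0 (by simp [e, h0])
  have hdeg : ∀ a, 0 < (C c * H - P a).natDegree := fun a =>
    hH0.trans_le (le_natDegree_of_ne_zero (by
      rw [coeff_sub, coeff_C_mul]; exact sub_ne_zero.mpr (hne a)))
  refine ⟨fun o => o.elim (C c * H) P,
    fun o => o.elim (-X) fun a => C c * I a + if a = i0 then X else 0, some i0, some j,
    fun t => some (u t), fun t => some (v t), h0, by simpa using hj, ?_,
    ⟨fun t ht => ⟨mem_univ _, mem_univ _, by simpa using (hs.1 t ht).2.2⟩, hs.2⟩, fun n => ?_, ?_,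
    by simp [hj, hc0, hIj]⟩
  · rintro (_ | a) (_ | b) hab
    · exact absurd rfl hab
    · exact hdeg b
    · rw [← natDegree_neg, neg_sub]; exact hdeg a
    · exact hP a b fun h => hab (by rw [h])
  · have h1 : ∀ a, taylor ((P a).eval n) (C c * I a + if a = i0 then X else 0) =
        C c * taylor ((P a).eval n) (I a) + if a = i0 then X else 0 := fun a => by
      rw [map_add, taylor_mul, taylor_C]
      split_ifs with e
      · simp [e, h0]
      · simp
    simp only [Fintype.sum_option, Option.elim, h1, sum_add_distrib, ← mul_sum, hH, map_neg,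
      taylor_X, sum_ite_eq', mem_univ, if_true, eval_mul, eval_C, map_mul]
    ring
  · rintro (_ | a)
    · simp
    · refine (natDegree_add_le _ _).trans (max_le ((natDegree_C_mul_le _ _).trans (hI' a)) ?_)
      split_ifs <;> simp

lemma Extr.equiv {ι ι' : Type} [Fintype ι] [Fintype ι'] {κ D : ℕ} (h : Extr ι κ D)
    (hc : Fintype.card ι' = Fintype.card ι) (i1 : ι') :
    ∃ (P Q : ι' → ℤ[X]) (j : ι') (u v : Fin κ → ι'), P i1 = 0 ∧ j ≠ i1 ∧
    (∀ a b, a ≠ b → 0 < (P a - P b).natDegree) ∧ Sep univ univ u v P ∧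
    (∀ n : ℤ, ∑ a, taylor ((P a).eval n) (Q a) = 0) ∧ (∀ a, (Q a).natDegree ≤ D) ∧
    (Q j).coeff D ≠ 0 := by
  classical
  obtain ⟨P, Q, i0, j, u, v, h0, hj, hP, hs, hr, hd, hQ⟩ := h
  obtain ⟨e, he⟩ : ∃ e : ι' ≃ ι, e i1 = i0 :=
    ⟨(Fintype.equivOfCardEq hc).trans (Equiv.swap (Fintype.equivOfCardEq hc i1) i0), by simp⟩
  refine ⟨P ∘ e, Q ∘ e, e.symm j, e.symm ∘ u, e.symm ∘ v, by simp [he, h0],
    fun h => hj (by rw [← he, ← h]; simp), fun a b h => hP _ _ (e.injective.ne h),
    ⟨fun t ht => ⟨mem_univ _, mem_univ _, e.symm.injective.ne (hs.1 t ht).2.2⟩,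
      fun t ht t' ht' h => by simpa using hs.2 t ht t' ht' h⟩,
    fun n => (e.sum_comp fun a => taylor ((P a).eval n) (Q a)).trans (hr n), fun a => hd _,
    by simpa using hQ⟩

lemma exists_extr (k : ℕ) : ∀ t : ℕ, ∃ (ι : Type) (_ : Fintype ι),
    Fintype.card ι = k + t + (k + 1) + 1 ∧ Extr ι (k + 1) (k + t)
  | 0 => ⟨_, _, by simp; omega, extr_base k⟩
  | t + 1 => by
    obtain ⟨ι, _, h1, h2⟩ := exists_extr k t
    exact ⟨Option ι, _, by simp; omega, h2.step h1⟩

end Pool.Agent.Lib.MP_467fc0_an
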