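import Pool.Agent.Lib.MP_467fc0_an.Spectrum

/-! The Host–Kra factors of a Weyl system. -/

namespace Pool.Agent.Lib.MP_467fc0_an

open Finset Filter Topology MeasureTheory UnitAddTorus
open scoped ComplexConjugate ENNReal

variable {ι : Type} [Fintype ι]

lemma bounded_trig_approx {f : Tor ι → ℂ} (hf : AEStronglyMeasurable f (haar ι)) {C : ℝ}
    (hC : 1 ≤ C) (hb : ∀ᵐ x ∂(haar ι), ‖f x‖ ≤ C) {ε : ℝ} (hε : 0 < ε) :
    ∃ (s : Finset (ι → ℤ)) (c : (ι → ℤ) → ℂ), (∀ x, ‖∑ ξ ∈ s, c ξ * chi (ξ, 0) x‖ ≤ 2 * C) ∧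
      ∫ x, ‖f x - ∑ ξ ∈ s, c ξ * chi (ξ, 0) x‖ ∂(haar ι) ≤ ε := by
  have f1 : Integrable f (haar ι) := Integrable.of_bound hf C hb
  obtain ⟨φ, h1, φ1⟩ := f1.exists_boundedContinuous_integral_sub_le (ε := ε / 4) (by positivity)
  have hpos : ∀ x, 0 < max C ‖φ x‖ := fun x => lt_max_of_lt_left (by linarith)
  let ψ : C(UnitAddTorus ι, ℂ) := ⟨fun x => ((C / max C ‖φ x‖ : ℝ) : ℂ) * φ x,
    (Complex.continuous_ofReal.comp (continuous_const.div
      (continuous_const.max φ.continuous.norm) fun x => (hpos x).ne')).mul φ.continuous⟩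
  have hψ : ∀ x, ψ x = ((C / max C ‖φ x‖ : ℝ) : ℂ) * φ x := fun _ => rfl
  have h2 : ∀ x, ‖ψ x‖ ≤ C := by
    intro x
    rw [hψ, norm_mul, Complex.norm_real, Real.norm_of_nonneg (div_nonneg (by linarith) (hpos x).le),
      div_mul_eq_mul_div, div_le_iff₀ (hpos x)]
    exact mul_le_mul_of_nonneg_left (le_max_right _ _) (by linarith)
  have h3 : ∀ x, ‖f x‖ ≤ C → ‖φ x - ψ x‖ ≤ ‖f x - φ x‖ := by
    intro x hx
    rcases le_total ‖φ x‖ C with h | h
    · rw [hψ, max_eq_left h, div_self (by linarith)]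
      simp
    · have e : φ x - ψ x = (((‖φ x‖ - C) / ‖φ x‖ : ℝ) : ℂ) * φ x := by
        have h0 : ((‖φ x‖ : ℝ) : ℂ) ≠ 0 := by exact_mod_cast (show ‖φ x‖ ≠ 0 by linarith)
        rw [hψ, max_eq_right h]
        push_cast
        field_simp
      rw [e, norm_mul, Complex.norm_real,
        Real.norm_of_nonneg (div_nonneg (by linarith) (norm_nonneg _)),
        div_mul_cancel₀ _ (show ‖φ x‖ ≠ 0 by linarith), norm_sub_rev]
      linarith [norm_sub_norm_le (φ x) (f x)]
  have h4 : ψ ∈ closure (Submodule.span ℂ (Set.range (mFourier (d := ι))) : Set _) := by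
    rw [← Submodule.topologicalClosure_coe, span_mFourier_closure_eq_top]
    trivial
  obtain ⟨P, hP, h5⟩ := Metric.mem_closure_iff.mp h4 (min 1 (ε / 2)) (by positivity)
  obtain ⟨c, rfl⟩ := Finsupp.mem_span_range_iff_exists_finsupp.mp hP
  have h6 : ∀ x, ‖ψ x - ∑ ξ ∈ c.support, c ξ * chi (ξ, 0) x‖ ≤ min 1 (ε / 2) := by
    intro x
    have h7 := (ContinuousMap.dist_apply_le_dist x).trans h5.le
    rw [dist_eq_norm] at h7
    simpa [Finsupp.sum, chi_mk_zero] using h7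
  refine ⟨c.support, c, fun x => ?_, ?_⟩
  · have := norm_sub_norm_le (∑ ξ ∈ c.support, c ξ * chi (ξ, 0) x) (ψ x)
    rw [norm_sub_rev] at this
    linarith [h6 x, h2 x, min_le_left 1 (ε / 2)]
  · have h7 : ∫ x, ‖f x - ∑ ξ ∈ c.support, c ξ * chi (ξ, 0) x‖ ∂(haar ι) ≤
        ∫ x, (2 * ‖f x - φ x‖ + ε / 2) ∂(haar ι) := by
      refine integral_mono_of_nonneg (Eventually.of_forall fun x => norm_nonneg _)
        (((f1.sub φ1).norm.const_mul _).add (integrable_const _)) ?_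
      filter_upwards [hb] with x hx
      have a1 := norm_sub_le_norm_sub_add_norm_sub (f x) (φ x) (ψ x)
      have a2 := norm_sub_le_norm_sub_add_norm_sub (f x) (ψ x)
        (∑ ξ ∈ c.support, c ξ * chi (ξ, 0) x)
      linarith [h3 x hx, h6 x, min_le_right 1 (ε / 2)]
    have i1 : Integrable (fun x => 2 * ‖f x - φ x‖) (haar ι) := (f1.sub φ1).norm.const_mul _
    rw [integral_add i1 (integrable_const _), integral_const_mul] at h7
    simp only [integral_const, probReal_univ, smul_eq_mul, one_mul] at h7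
    linarith

variable (N : Module.End ℤ (GG ι)) (k : ℕ)

/-- The annihilator of the structured spectrum. -/
def Ann : Set (Tor ι) := {h | ∀ g : GG ι, (N ^ (k + 1)) g ∈ Nul ι → mFourier g.1 h = 1}

/-- The sets invariant under the annihilator. -/
@[reducible] def Zf : MeasurableSpace (Tor ι) :=
  ⨅ h ∈ Ann N k, MeasurableSpace.invariants fun x : Tor ι => x + h

lemma zero_mem_Ann : (0 : Tor ι) ∈ Ann N k := fun g _ => by simp [mFourier]

lemma measurableSet_Zf {s : Set (Tor ι)} :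
    MeasurableSet[Zf N k] s ↔ MeasurableSet s ∧ ∀ h ∈ Ann N k, (fun x => x + h) ⁻¹' s = s := by
  rw [Zf, MeasurableSpace.measurableSet_iInf]
  refine ⟨fun h => ⟨?_, fun a ha => ?_⟩, fun h a => ?_⟩
  · exact (MeasurableSpace.measurableSet_iInf.mp (h 0) (zero_mem_Ann N k)).1
  · exact (MeasurableSpace.measurableSet_iInf.mp (h a) ha).2
  · exact MeasurableSpace.measurableSet_iInf.mpr fun ha => ⟨h.1, h.2 a ha⟩

lemma Zf_le : Zf N k ≤ (inferInstance : MeasurableSpace (Tor ι)) :=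
  fun _ hs => ((measurableSet_Zf N k).mp hs).1

variable {N k}

lemma measurable_chi_Zf {g : GG ι} (hg : (N ^ (k + 1)) g ∈ Nul ι) : Measurable[Zf N k] (chi g) := by
  intro s hs
  refine (measurableSet_Zf N k).mpr ⟨(continuous_chi g).measurable hs, fun h hh => ?_⟩
  ext x
  simp [chi_translate, hh g hg]

variable {T : Equiv.Perm (Tor ι)} {M : ℕ} (hW : Setup T N M)

include hW

lemma Setup.pow_fst (g : GG ι) : (N ^ (k + 1)) (g.1, 0) = (N ^ (k + 1)) g := by
  have e : g = (g.1, 0) + (0, g.2) := by simp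
  conv_rhs => rw [e, map_add, pow_succ, Module.End.mul_apply _ _ (0, g.2), hW.hN0 (0, g.2) rfl,
    map_zero, add_zero, ← pow_succ]

lemma exists_mem_Ann {g : GG ι} (hg : (N ^ (k + 1)) g ∉ Nul ι) :
    ∃ h ∈ Ann N k, mFourier g.1 h = -1 := by
  classical
  obtain ⟨L, hL, hr⟩ := nul_sep hg
  let ψ : (ι → ℤ) →+ ℚ := L.comp ((N ^ (k + 1)).toAddMonoidHom.comp (AddMonoidHom.inl _ _))
  have hψ : ∀ g' : GG ι, ψ g'.1 = L ((N ^ (k + 1)) g') := fun g' => by
    rw [← hW.pow_fst g']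
    rfl
  have key : ∀ ξ : ι → ℤ, mFourier ξ (fun i => (((ψ (Pi.single i 1) : ℝ) /
      (2 * L ((N ^ (k + 1)) g)) : ℝ) : UnitAddCircle)) =
      ee (ψ ξ / (2 * L ((N ^ (k + 1)) g))) := by
    intro ξ
    rw [mFourier_coe]
    congr 1
    have e : ξ = ∑ i, ξ i • Pi.single i 1 := by
      ext j
      simp [Pi.single_apply]
    conv_rhs => rw [e, map_sum]
    simp only [map_zsmul]
    simp only [zsmul_eq_mul]
    push_cast
    rw [sum_div]
    exact sum_congr rfl fun i _ => (mul_div_assoc _ _ _).symm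
  refine ⟨_, fun g' hg' => by rw [key, hψ, hL _ hg']; simp [ee_zero], ?_⟩
  have hr' : ((L ((N ^ (k + 1)) g) : ℚ) : ℝ) ≠ 0 := by exact_mod_cast hr
  rw [key, hψ, show ((L ((N ^ (k + 1)) g) : ℚ) : ℝ) / (2 * L ((N ^ (k + 1)) g)) = 1 / 2 by
    field_simp, ee, ← Complex.exp_pi_mul_I]
  congr 1
  push_cast
  ring

lemma condExp_chi_Zf {g : GG ι} (hg : (N ^ (k + 1)) g ∉ Nul ι) :
    condExp (Zf N k) (haar ι) (chi g) =ᵐ[haar ι] 0 := by
  refine (ae_eq_condExp_of_forall_setIntegral_eq (Zf_le N k)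
    (integrable_of_continuous (continuous_chi g)) (fun s _ _ => integrableOn_zero)
    (fun s hs _ => ?_) aestronglyMeasurable_zero).symm
  obtain ⟨h, hh, h1⟩ := exists_mem_Ann hW hg
  obtain ⟨h2, h3⟩ := (measurableSet_Zf N k).mp hs
  have h4 := (measurePreserving_add_right (haar ι) h).restrict_preimage h2
  rw [h3 h hh] at h4
  have h5 : ∫ x in s, chi g (x + h) ∂(haar ι) = ∫ x in s, chi g x ∂(haar ι) := by
    conv_rhs => rw [← h4.map_eq]
    rw [integral_map h4.measurable.aemeasurable (continuous_chi g).aestronglyMeasurable]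
  simp only [chi_translate, h1, mul_neg, mul_one, integral_neg] at h5
  simp only [integral_zero]
  linear_combination (1 / 2 : ℂ) * h5

lemma preimage_Zf (n : ℤ) {s : Set (Tor ι)} (hs : MeasurableSet[Zf N k] s) :
    MeasurableSet[Zf N k] ((T ^ n : Equiv.Perm (Tor ι)) ⁻¹' s) := by
  obtain ⟨h1, h2⟩ := (measurableSet_Zf N k).mp hs
  refine (measurableSet_Zf N k).mpr ⟨(hW.mp n).measurable h1, fun h hh => ?_⟩
  ext x
  have h3 : (T ^ n) (x + h) - (T ^ n) x ∈ Ann N k := by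
    intro g hg
    have a1 := chi_translate g ((T ^ n) x) ((T ^ n) (x + h) - (T ^ n) x)
    rw [add_sub_cancel, hW.chiT, hW.chiT, chi_translate,
      hh _ ((pow_Phi_mem_iff hW.hN hW.hN0 n _ g).mpr hg)] at a1
    refine (mul_left_cancel₀ (norm_ne_zero_iff.mp ?_) a1).symm
    rw [norm_chi]
    exact one_ne_zero
  have h4 := Set.ext_iff.mp (h2 _ h3) ((T ^ n) x)
  simpa using h4

lemma condExp_Zf_eq_zero {f : Tor ι → ℂ} (hf : MemLp f 2 (haar ι))
    (h0 : ∀ ξ, (N ^ (k + 1)) (ξ, 0) ∈ Nul ι → fc f (ξ, 0) = 0) :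
    condExp (Zf N k) (haar ι) f =ᵐ[haar ι] 0 := by
  rw [← eLpNorm_eq_zero_iff (p := 2) integrable_condExp.1 (by norm_num)]
  refine le_zero_iff.mp (ENNReal.le_of_forall_pos_le_add fun ε hε _ => ?_)
  obtain ⟨P, hP, h1⟩ := fourier_approx hf (ε := ε) (by exact_mod_cast hε.ne')
  have h2 : Integrable P (haar ι) ∧ condExp (Zf N k) (haar ι) P =ᵐ[haar ι] 0 := by
    clear h1
    induction hP using Submodule.span_induction with
    | mem g hg =>
      obtain ⟨ξ, hξ, rfl⟩ := hg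
      exact ⟨integrable_of_continuous (continuous_chi _), condExp_chi_Zf hW fun h => hξ (h0 ξ h)⟩
    | zero => exact ⟨integrable_zero _ _ _, by rw [condExp_zero]⟩
    | add g g' _ _ h h' =>
      refine ⟨h.1.add h'.1, ?_⟩
      filter_upwards [condExp_add h.1 h'.1 (Zf N k), h.2, h'.2] with x a1 a2 a3
      rw [a1, Pi.add_apply, a2, a3]
      simp
    | smul c g _ h =>
      refine ⟨h.1.smul c, ?_⟩
      filter_upwards [condExp_smul (μ := haar ι) c g (Zf N k), h.2] with x a1 a2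
      rw [a1, Pi.smul_apply, a2]
      simp
  rw [zero_add]
  refine le_trans (le_of_eq (eLpNorm_congr_ae ?_))
    ((eLpNorm_condExp_le_eLpNorm (m := Zf N k) (f - P) (by norm_num)).trans h1)
  filter_upwards [condExp_sub (hf.integrable (by norm_num)) h2.1 (Zf N k), h2.2] with x a1 a2
  rw [a1, Pi.sub_apply, a2]
  simp

lemma hkPow_eq_zero {f : Tor ι → ℂ} (hf : MemLp f ∞ (haar ι))
    (h0 : condExp (Zf N k) (haar ι) f =ᵐ[haar ι] 0) : hkPow (haar ι) T k f = 0 := by
  classical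
  obtain ⟨C, hC, hb⟩ := exists_bound hf
  obtain ⟨L, hL, hlip⟩ := hkPow_lip hW.mpn k (4 * C) (by linarith)
  obtain ⟨B, hB⟩ := hkPow_bounds hW.mpn k C
  have f1 : Integrable f (haar ι) := hf.integrable le_top
  refine le_antisymm (le_of_forall_pos_le_add fun ε hε => ?_) (hB f hb).1
  have hp : 0 < 2 * L + 1 := by positivity
  obtain ⟨s, c, h1, h2⟩ := bounded_trig_approx hf.1 hC hb (ε := ε / (2 * L + 1)) (by positivity)
  let P : Tor ι → ℂ := fun x => ∑ ξ ∈ s, c ξ * chi (ξ, 0) x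
  let s' := s.filter fun ξ => (N ^ (k + 1)) (ξ, 0) ∉ Nul ι
  let P' : Tor ι → ℂ := fun x => ∑ ξ ∈ s', c ξ * chi (ξ, 0) x
  have hc : ∀ t : Finset (ι → ℤ), Continuous fun x => ∑ ξ ∈ t, c ξ * chi (ξ, 0) x := fun t =>
    continuous_finsetSum _ fun ξ _ => continuous_const.mul (continuous_chi _)
  have P1 : Integrable P (haar ι) := integrable_of_continuous (hc s)
  have h3 : ∀ᵐ x ∂(haar ι), P' x = P x - condExp (Zf N k) (haar ι) P x := by
    have e : P = ∑ ξ ∈ s, c ξ • chi (ξ, 0) := by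
      funext x
      simp [P]
    have a1 := condExp_finsetSum (μ := haar ι) (s := s) (f := fun ξ => c ξ • chi (ξ, 0))
      (fun i _ => (integrable_of_continuous (continuous_chi _)).smul _) (Zf N k)
    have a2 : ∀ᵐ x ∂(haar ι), ∀ ξ ∈ s, condExp (Zf N k) (haar ι) (c ξ • chi (ξ, 0)) x =
        if (N ^ (k + 1)) (ξ, 0) ∈ Nul ι then c ξ * chi (ξ, 0) x else 0 := by
      refine (eventually_all_finset s).mpr fun ξ _ => ?_
      split_ifs with h
      · filter_upwards [condExp_smul (μ := haar ι) (c ξ) (chi (ξ, 0)) (Zf N k)] with x a1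
        rw [a1, condExp_of_stronglyMeasurable (Zf_le N k) (measurable_chi_Zf h).stronglyMeasurable
          (integrable_of_continuous (continuous_chi _))]
        rfl
      · filter_upwards [condExp_smul (μ := haar ι) (c ξ) (chi (ξ, 0)) (Zf N k),
          condExp_chi_Zf hW h] with x a1 a2
        rw [a1, Pi.smul_apply, a2]
        simp
    rw [← e] at a1
    filter_upwards [a1, a2] with x a1 a2
    rw [a1, Finset.sum_apply, sum_congr rfl a2, ← sum_filter, eq_sub_iff_add_eq, add_comm]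
    exact sum_filter_add_sum_filter_not _ _ _
  have h4 : ∀ᵐ x ∂(haar ι), ‖P' x‖ ≤ 4 * C := by
    filter_upwards [h3, ae_bdd_norm_condExp_of_ae_bdd_norm (m := Zf N k) (μ := haar ι) (f := P)
      (Eventually.of_forall h1)] with x a1 a2
    rw [a1]
    linarith [norm_sub_le (P x) (condExp (Zf N k) (haar ι) P x), h1 x]
  have h5 : ∫ x, ‖f x - P' x‖ ∂(haar ι) ≤
      ∫ x, (‖f x - P x‖ + ‖condExp (Zf N k) (haar ι) (f - P) x‖) ∂(haar ι) := by
    refine integral_mono_of_nonneg (Eventually.of_forall fun x => norm_nonneg _)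
      ((f1.sub P1).norm.add integrable_condExp.norm) ?_
    filter_upwards [h3, h0, condExp_sub f1 P1 (Zf N k)] with x a1 a2 a3
    rw [a1, a3, Pi.sub_apply, a2, ← sub_add]
    simpa using norm_add_le (f x - P x) (condExp (Zf N k) (haar ι) P x)
  have i1 : Integrable (fun x => ‖f x - P x‖) (haar ι) := (f1.sub P1).norm
  rw [integral_add i1 integrable_condExp.norm] at h5
  have h6 : ∫ x, ‖condExp (Zf N k) (haar ι) (f - P) x‖ ∂(haar ι) ≤
      ∫ x, ‖f x - P x‖ ∂(haar ι) := integral_norm_condExp_le _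
  have h7 := hlip f P' hf.1 (hc s').aestronglyMeasurable (hb.mono fun x hx => by linarith) h4
  rw [hkPow_trig hW k _ s' c (fun ξ => (ξ, 0)) fun ξ hξ => (mem_filter.mp hξ).2] at h7
  have h8 : L * ∫ x, ‖f x - P' x‖ ∂(haar ι) ≤ L * (2 * (ε / (2 * L + 1))) :=
    mul_le_mul_of_nonneg_left (by linarith) hL
  have h9 : L * (2 * (ε / (2 * L + 1))) ≤ ε := by
    rw [← mul_assoc, ← mul_div_assoc, div_le_iff₀ hp]
    nlinarith
  linarith

theorem isHostKraFactor_Zf : IsHostKraFactor (Zf N (k + 1)) (haar ι) T (k + 1) := by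
  refine ⟨Zf_le N _, fun s hs => ⟨?_, ?_⟩, fun f hf => ⟨hkPow_eq_zero hW hf, fun h => ?_⟩⟩
  · simpa using preimage_Zf hW 1 hs
  · have h1 := preimage_Zf hW (-1) hs
    rwa [zpow_neg_one, Equiv.Perm.inv_def, ← Equiv.image_eq_preimage_symm] at h1
  · exact condExp_Zf_eq_zero hW (hf.mono_exponent le_top) fun ξ hξ => fc_eq_zero hW k hf h hξ

end Pool.Agent.Lib.MP_467fc0_an
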