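import Pool.Agent.Lib.MP_467fc0_an.Upper
import Pool.Agent.Lib.MP_467fc0_an.Extr

/-! A relation of degree `D` gives a Weyl system whose factors of lower order are not
characteristic. -/

namespace Pool.Agent.Lib.MP_467fc0_an

open Finset Filter Topology MeasureTheory Polynomial UnitAddTorus
open scoped ComplexConjugate ENNReal

/-- The Pascal matrix. -/
def pas (D : ℕ) : Matrix (Fin (D + 1)) (Fin (D + 1)) ℤ := fun i j => (i : ℕ).choose j

lemma pas_nil (D : ℕ) : IsNilpotent (pas D - 1) := by
  have key : ∀ (n : ℕ) (i j : Fin (D + 1)), (i : ℕ) < j + n → ((pas D - 1) ^ n) i j = 0 := by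
    intro n
    induction n with
    | zero =>
      intro i j h
      rw [pow_zero, Matrix.one_apply_ne fun e => by simp [e] at h]
    | succ n ih =>
      intro i j h
      rw [pow_succ, Matrix.mul_apply]
      refine sum_eq_zero fun k _ => ?_
      by_cases h1 : (i : ℕ) < k + n
      · rw [ih i k h1, zero_mul]
      · refine mul_eq_zero_of_right _ ?_
        rcases (show (k : ℕ) ≤ j by omega).lt_or_eq with h2 | h2
        · rw [Matrix.sub_apply, Matrix.one_apply_ne fun e => by simp [e] at h2, pas,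
            Nat.choose_eq_zero_of_lt h2]
          simp
        · obtain rfl := Fin.ext h2
          simp [pas]
  exact ⟨D + 1, Matrix.ext fun i j => key _ i j (by omega)⟩

lemma exists_perm {ι : Type} [Fintype ι] [DecidableEq ι] (A : Matrix ι ι ℤ)
    (hA : IsNilpotent (A - 1)) :
    ∃ T : Equiv.Perm (Tor ι), ∀ x i, T x i = ∑ j, A i j • x j + (0 : Tor ι) i := by
  have h := hA.isUnit_one_add
  rw [add_sub_cancel] at h
  obtain ⟨U, rfl⟩ := h
  have key : ∀ (B C : Matrix ι ι ℤ), B * C = 1 → ∀ (x : Tor ι) i,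
      ∑ j, B i j • ∑ k, C j k • x k = x i := fun B C e x i => by
    simp only [smul_sum, smul_smul]
    rw [sum_comm]
    simp only [← sum_smul, ← Matrix.mul_apply, e, Matrix.one_apply]
    simp
  exact ⟨⟨fun x i => ∑ j, U.1 i j • x j, fun x i => ∑ j, U.2 i j • x j,
    fun x => funext (key _ _ U.4 x), fun x => funext (key _ _ U.3 x)⟩, fun x i => by simp⟩

/-- The character attached to a polynomial. -/
def cv (D : ℕ) : ℤ[X] →+ GG (Fin (D + 1)) where
  toFun Q := (fun i => Q.coeff i, 0)
  map_zero' := by ext <;> simp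
  map_add' := by intro a b; ext <;> simp

lemma chi_pas {D : ℕ} {T : Equiv.Perm (Tor (Fin (D + 1)))}
    (hT : ∀ x i, T x i = ∑ j, pas D i j • x j + (0 : Tor (Fin (D + 1))) i) (n : ℤ) :
    ∀ {Q : ℤ[X]}, Q.natDegree ≤ D → ∀ x, chi (cv D Q) ((T ^ n) x) = chi (cv D (taylor n Q)) x := by
  have h1 : ∀ {Q : ℤ[X]}, Q.natDegree ≤ D → ∀ x,
      chi (cv D Q) (T x) = chi (cv D (taylor 1 Q)) x := by
    intro Q hQ x
    choose y hy using fun i => QuotientAddGroup.mk_surjective (x i)
    have hx : x = fun i => (y i : UnitAddCircle) := funext fun i => (hy i).symm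
    have hTx : T x = fun i => ((∑ j, pas D i j * y j : ℝ) : UnitAddCircle) := by
      funext i
      rw [hT, Pi.zero_apply, add_zero, QuotientAddGroup.mk_sum]
      refine sum_congr rfl fun j _ => ?_
      rw [← hy j, ← zsmul_eq_mul, QuotientAddGroup.mk_zsmul]
    rw [hTx, hx, chi, chi, mFourier_coe, mFourier_coe]
    congr 2
    simp only [mul_sum]
    rw [sum_comm]
    refine sum_congr rfl fun j _ => ?_
    have : (cv D (taylor 1 Q)).1 j = ∑ i : Fin (D + 1), Q.coeff i * pas D i j := by
      change (taylor 1 Q).coeff j = _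
      rw [taylor_coeff, hasseDeriv_apply, sum_over_range' _ (by simp) _ (Nat.lt_succ_of_le hQ),
        eval_finsetSum, sum_range]
      exact sum_congr rfl fun i _ => by simp [pas, mul_comm]
    rw [this]
    push_cast
    rw [sum_mul]
    exact sum_congr rfl fun i _ => (mul_assoc _ _ _).symm
  induction n using Int.induction_on with
  | zero => simp
  | succ n ih =>
    intro Q hQ x
    rw [zpow_add_one, Equiv.Perm.mul_apply, ih hQ, h1 (by rwa [natDegree_taylor]), taylor_taylor,
      add_comm (1 : ℤ)]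
  | pred n ih =>
    intro Q hQ x
    have h2 := h1 (Q := taylor (-(n : ℤ) - 1) Q) (by rwa [natDegree_taylor]) (T⁻¹ x)
    rw [taylor_taylor, add_sub_cancel] at h2
    rw [zpow_sub_one, Equiv.Perm.mul_apply, ih hQ, ← h2]
    simp

lemma chi_inj {ι : Type} [Fintype ι] {g g' : GG ι} (h : ∀ x, chi g x = chi g' x) : g.1 = g'.1 := by
  by_contra e
  have h1 := integral_chi_ne (g := g - g') (by simpa [sub_eq_zero] using e)
  rw [← fc_chi, funext h, fc_chi, sub_self] at h1
  simp [chi_zero] at h1

theorem not_char {l D d : ℕ} (hd : d < D) (P Q : Option (Fin l) → ℤ[X]) (h0 : P none = 0)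
    (hr : ∀ n : ℤ, ∑ a, taylor ((P a).eval n) (Q a) = 0) (hQ : ∀ a, (Q a).natDegree ≤ D)
    {j : Fin l} (hj : (Q (some j)).coeff D ≠ 0) {T : Equiv.Perm (Tor (Fin (D + 1)))}
    (hT : ∀ x i, T x i = ∑ j, pas D i j • x j + (0 : Tor (Fin (D + 1))) i) :
    ∀ Z, @IsHostKraFactor _ Z MeasurableSpace.pi (haar _) T d →
      ¬ @IsCharacteristic _ Z MeasurableSpace.pi _ (haar _) T (fun i => P (some i)) := by
  obtain ⟨N, M, hW⟩ := exists_setup _ _ T (pas_nil D) hT
  have hg : (N ^ (d + 1)) (cv D (Q (some j))) ∉ Nul _ := fun h => by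
    let L : GG (Fin (D + 1)) →+ ℚ := (Int.castAddHom ℚ).comp
      ((Pi.evalAddMonoidHom (fun _ => ℤ) 0).comp (AddMonoidHom.fst _ _))
    have e : Qp N M L (cv D (Q (some j))) = (Q (some j)).map (Int.castRingHom ℚ) := by
      refine eq_of_infinite_eval_eq _ _ ((Set.infinite_range_of_injective
        (Int.cast_injective (α := ℚ))).mono ?_)
      rintro _ ⟨n, rfl⟩
      have h1 := chi_inj fun x => (hW.chiT _ n x).symm.trans (chi_pas hT n (hQ (some j)) x)
      rw [Set.mem_ofPred_eq, Qp_eval, eval_intCast_map, Int.cast_id, ← taylor_coeff_zero]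
      exact congrArg (fun z : Fin (D + 1) → ℤ => ((z 0 : ℤ) : ℚ)) h1
    have h2 : ∀ i, ((N ^ (d + 1 + i)) (cv D (Q (some j)))).1 = 0 := fun i => by
      induction i with
      | zero => exact h.1
      | succ i ih => rw [← add_assoc, pow_succ', Module.End.mul_apply, hW.hN0 _ ih]; rfl
    have h3 := congrArg (fun q => coeff q D) e
    simp only [Qp, finsetSum_coeff, coeff_C_mul, coeff_map, eq_intCast] at h3
    rw [sum_eq_zero fun i _ => ?_] at h3
    · exact hj (by exact_mod_cast h3.symm)
    · by_cases h4 : i < D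
      · rw [binP_coeff_gt _ h4, mul_zero]
      · obtain ⟨t, rfl⟩ := Nat.exists_eq_add_of_le (show d + 1 ≤ i by omega)
        refine mul_eq_zero_of_left ?_ _
        simp [L, h2]
  have hm := fun g : GG (Fin (D + 1)) => memLp_of_continuous (continuous_chi g) ∞
  have hk := hkPow_eq_zero hW (hm _) (condExp_chi_Zf hW hg)
  have h2 := hW.mp
  have h3 : ∀ n : ℕ, 0 < n → polyAvg T (fun i => P (some i)) (fun i => chi (cv D (Q (some i)))) n =
      chi (cv D (-Q none)) := fun n hn => by
    funext x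
    have h4 : ∀ m : ℤ, ∏ i, chi (cv D (Q (some i))) ((T ^ (P (some i)).eval m) x) =
        chi (cv D (-Q none)) x := fun m => by
      have := hr m
      rw [Fintype.sum_option, h0, eval_zero, taylor_zero] at this
      simp only [chi_pas hT _ (hQ _), ← chi_sum, ← map_sum]
      rw [eq_neg_of_add_eq_zero_right this]
    have h5 : (n : ℂ) ≠ 0 := by exact_mod_cast hn.ne'
    simp only [polyAvg, h4, sum_const, Nat.card_Icc, add_tsub_cancel_right, nsmul_eq_mul]
    field_simp
  have h6 : eLpNorm (chi (cv D (-Q none))) 2 (haar _) = 1 := by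
    rw [eLpNorm_congr_norm_ae (g := fun _ => (1 : ℝ))
      (Eventually.of_forall fun x => by rw [norm_chi, norm_one]),
      eLpNorm_const _ two_ne_zero (NeZero.ne _)]
    simp
  have h7 : ∀ F : Fin l → Tor (Fin (D + 1)) → ℂ, F j =ᵐ[haar _] 0 → ∀ n,
      polyAvg T (fun i => P (some i)) F n =ᵐ[haar _] 0 := fun F hF n => by
    filter_upwards [ae_all_iff.mpr fun m : ℕ =>
      (h2 ((P (some j)).eval (m : ℤ))).quasiMeasurePreserving.ae hF] with x hx
    rw [polyAvg, sum_eq_zero fun m _ => prod_eq_zero (mem_univ j) (hx m), mul_zero]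
    rfl
  have h8 : ∀ G : ℕ → Tor (Fin (D + 1)) → ℂ, (∀ n, G n =ᵐ[haar _] 0) →
      ¬ Tendsto (fun n => eLpNorm (polyAvg T (fun i => P (some i))
        (fun i => chi (cv D (Q (some i)))) n - G n) 2 (haar _)) atTop (𝓝 0) := fun G hG h => by
    refine one_ne_zero (tendsto_nhds_unique tendsto_const_nhds (h.congr' ?_))
    filter_upwards [eventually_gt_atTop 0] with n hn
    rw [h3 n hn, ← h6]
    refine eLpNorm_congr_ae ?_
    filter_upwards [hG n] with x hx
    rw [Pi.sub_apply, hx, Pi.zero_apply, sub_zero]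
  intro Z hZ hc
  exact h8 _ (h7 _ ((hZ.2.2 _ (hm _)).mpr hk)) (hc _ fun i => hm _)

end Pool.Agent.Lib.MP_467fc0_an
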