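import Pool.Agent.Lib.MP_467fc0_an.Factor

/-! The Host–Kra factor of order one less than the number of polynomials is characteristic. -/

namespace Pool.Agent.Lib.MP_467fc0_an

open Finset Filter Topology MeasureTheory Polynomial
open scoped ComplexConjugate ENNReal

lemma polyAvg_eq {X : Type*} {l : ℕ} (T : Equiv.Perm X) (p : Fin l → ℤ[X]) (f : Fin l → X → ℂ)
    (n : ℕ) : polyAvg T p f n =
      mavg (fun n i => (T ^ (taylor 1 (p i)).eval (n : ℤ) : Equiv.Perm X)) f n := by
  funext x
  rw [polyAvg, mavg, avg, ← Finset.Ico_add_one_right_eq_Icc, sum_Ico_eq_sum_range,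
    add_tsub_cancel_right]
  simp only [taylor_eval, Nat.cast_add, Nat.cast_one, add_comm]

lemma telescope {X : Type*} {Z : MeasurableSpace X} [mX : MeasurableSpace X] {μ : Measure X}
    [IsProbabilityMeasure μ] (hZ : Z ≤ mX) {l : ℕ} {S : ℕ → Fin l → X → X}
    (hS : ∀ n i, MeasurePreserving (S n i) μ μ)
    (h0 : ∀ (j : Fin l) (f : Fin l → X → ℂ), (∀ i, MemLp (f i) ∞ μ) →
      condExp Z μ (f j) =ᵐ[μ] 0 → Tendsto (fun n => eLpNorm (mavg S f n) 2 μ) atTop (𝓝 0))
    {f : Fin l → X → ℂ} (hf : ∀ i, MemLp (f i) ∞ μ) :
    Tendsto (fun n => eLpNorm (mavg S f n - mavg S (fun i => condExp Z μ (f i)) n) 2 μ) atTop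
      (𝓝 0) := by
  classical
  let F : Finset (Fin l) → Fin l → X → ℂ := fun s i => if i ∈ s then condExp Z μ (f i) else f i
  have hF : ∀ s i, MemLp (F s i) ∞ μ := by
    intro s i
    simp only [F]
    split_ifs
    · exact (hf i).condExp le_top
    · exact hf i
  have key : ∀ s, Tendsto (fun n => eLpNorm (mavg S f n - mavg S (F s) n) 2 μ) atTop (𝓝 0) := by
    intro s
    induction s using Finset.induction_on with
    | empty => simp [F]
    | insert j s hj ih =>
      have h1 : MemLp (f j - condExp Z μ (f j)) ∞ μ := (hf j).sub ((hf j).condExp le_top)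
      have h2 : condExp Z μ (f j - condExp Z μ (f j)) =ᵐ[μ] 0 := by
        filter_upwards [condExp_sub ((hf j).integrable le_top)
          (integrable_condExp (m := Z) (f := f j)) Z] with x hx
        rw [hx, condExp_of_stronglyMeasurable hZ stronglyMeasurable_condExp integrable_condExp]
        simp
      have h4 := ih.add (h0 j (Function.update (F s) j (f j - condExp Z μ (f j)))
        (memLp_update (hF s) j h1) (by rwa [Function.update_self]))
      rw [add_zero] at h4
      refine tendsto_of_tendsto_of_tendsto_of_le_of_le tendsto_const_nhds h4 (fun _ => zero_le)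
        fun n => ?_
      have e1 : F (insert j s) = Function.update (F s) j (condExp Z μ (f j)) := by
        funext i
        by_cases h : i = j
        · subst h
          simp [F]
        · simp [F, h]
      have e2 : F s = Function.update (F s) j (f j - condExp Z μ (f j) + condExp Z μ (f j)) := by
        rw [sub_add_cancel, eq_comm, Function.update_eq_self_iff]
        simp [F, hj]
      have e3 : mavg S f n - mavg S (F (insert j s)) n = (mavg S f n - mavg S (F s) n) +
          mavg S (Function.update (F s) j (f j - condExp Z μ (f j))) n := by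
        have e4 := mavg_update_add S (F s) j (f j - condExp Z μ (f j)) (condExp Z μ (f j)) n
        rw [← e2, ← e1] at e4
        rw [e4]
        abel
      simp only [e3]
      exact eLpNorm_add_le ((aesm_mavg hS (fun i => (hf i).1) n).sub
        (aesm_mavg hS (fun i => (hF s i).1) n))
        (aesm_mavg hS (fun i => (memLp_update (hF s) j h1 i).1) n) (by norm_num)
  simpa [F] using key univ

theorem isCharacteristic {ι : Type} [Fintype ι] {T : Equiv.Perm (Tor ι)}
    {N : Module.End ℤ (GG ι)} {M : ℕ} (hW : Setup T N M) {k : ℕ} (p : Fin (k + 2) → ℤ[X])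
    (hp : ∀ i, 0 < (p i).natDegree) (hp' : ∀ i j, i ≠ j → 0 < (p i - p j).natDegree) :
    ∀ Z, @IsHostKraFactor _ Z MeasurableSpace.pi (haar ι) T (k + 1) →
      @IsCharacteristic _ Z MeasurableSpace.pi _ (haar ι) T p := by
  have key := mavg_tendsto_zero hW (fun i => taylor 1 (p i))
    (fun i => by rw [natDegree_taylor]; exact hp i)
    (fun i j h => by rw [← map_sub, natDegree_taylor]; exact hp' i j h)
  have h1 := fun f hf h0 g hg => fc_eq_zero hW k (f := f) hf h0 (g := g) hg
  have h2 := hW.mp
  intro Z hZ f hf
  simp only [polyAvg_eq]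
  exact @telescope _ Z MeasurableSpace.pi _ _ hZ.1 _ _ (fun n i => h2 _)
    (fun j f hf h0 => key j f hf fun ξ hξ => h1 _ (hf j) ((hZ.2.2 _ (hf j)).mp h0) _ hξ) _ hf

end Pool.Agent.Lib.MP_467fc0_an
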