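import Pool.Agent.Lib.MP_467fc0_an.ExpPoly

/-! A Newton polygon bound for combinations of `exp (λ p_i(y))`, and the resulting bound on the
degree of algebraic relations of a polynomial progression. -/

namespace Pool.Agent.Lib.MP_467fc0_an

open Finset Polynomial
open scoped PowerSeries

variable {K : Type*} [Field K] [CharZero K] {ι : Type*}

/-- The series `exp (λ p(y))`. -/
noncomputable def EP (p : K[X]) : K[X]⟦X⟧ := PowerSeries.rescale p (PowerSeries.exp K[X])

lemma coeff_EP (p : K[X]) (n : ℕ) :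
    PowerSeries.coeff n (EP p) = C ((n.factorial : K))⁻¹ * p ^ n := by
  rw [EP, PowerSeries.coeff_rescale, PowerSeries.coeff_exp, mul_comm]
  congr 1
  rw [Polynomial.algebraMap_apply]
  simp

lemma EP_add (p q : K[X]) : EP (p + q) = EP p * EP q :=
  (PowerSeries.exp_mul_exp_eq_exp_add p q).symm

/-- The combination `∑ R_i(λ) exp (λ p_i(y))`. -/
noncomputable def FF (s : Finset ι) (p : ι → K[X]) (R : ι → K⟦X⟧) : K[X]⟦X⟧ :=
  ∑ i ∈ s, PowerSeries.map (C : K →+* K[X]) (R i) * EP (p i)

/-- The coefficient of `λ ^ m y ^ l`. -/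
noncomputable def cf (F : K[X]⟦X⟧) (m l : ℕ) : K := (PowerSeries.coeff m F).coeff l

omit [CharZero K] in
lemma cf_sum (s : Finset ι) (F : ι → K[X]⟦X⟧) (m l : ℕ) :
    cf (∑ i ∈ s, F i) m l = ∑ i ∈ s, cf (F i) m l := by
  simp [cf, finsetSum_coeff]

lemma cf_FF_bound (s : Finset ι) (p : ι → K[X]) (R : ι → K⟦X⟧) (d b : ℕ)
    (hp : ∀ i ∈ s, (p i).natDegree ≤ d) (hR : ∀ i ∈ s, ∀ a < b, PowerSeries.coeff a (R i) = 0)
    (m l : ℕ) (h : cf (FF s p R) m l ≠ 0) : (l : ℤ) - m * d ≤ -(b * d) := by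
  rw [FF, cf_sum] at h
  obtain ⟨i, hi, h⟩ := exists_ne_zero_of_sum_ne_zero h
  rw [cf, PowerSeries.coeff_mul, finsetSum_coeff] at h
  obtain ⟨x, hx, h⟩ := exists_ne_zero_of_sum_ne_zero h
  rw [PowerSeries.coeff_map, coeff_EP, coeff_C_mul, coeff_C_mul] at h
  have h1 : b ≤ x.1 := by
    by_contra hlt
    exact h (by rw [hR i hi x.1 (not_le.mp hlt), zero_mul])
  have h2 : l ≤ x.2 * d := by
    have h3 : (p i ^ x.2).coeff l ≠ 0 := fun h0 => h (by rw [h0, mul_zero, mul_zero])
    exact (le_natDegree_of_ne_zero h3).trans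
      (natDegree_pow_le.trans (Nat.mul_le_mul_left _ (hp i hi)))
  have h4 : x.1 + x.2 = m := mem_antidiagonal.mp hx
  have h5 : (l : ℤ) ≤ x.2 * d := by exact_mod_cast h2
  have h6 : (b : ℤ) * d ≤ x.1 * d := by exact_mod_cast Nat.mul_le_mul_right d h1
  rw [← h4]
  push_cast
  nlinarith

lemma cf_EP_mul (a : K) (d : ℕ) (F : K[X]⟦X⟧) (m l : ℕ) :
    cf (EP (C a * X ^ d) * F) m l = ∑ x ∈ antidiagonal m,
      (a ^ x.1 * ((x.1.factorial : K))⁻¹) * if x.1 * d ≤ l then cf F x.2 (l - x.1 * d) else 0 := by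
  rw [cf, PowerSeries.coeff_mul, finsetSum_coeff]
  refine sum_congr rfl fun x _ => ?_
  rw [coeff_EP, mul_pow, ← pow_mul, ← map_pow, mul_assoc, mul_assoc, coeff_C_mul, coeff_C_mul,
    coeff_X_pow_mul', mul_comm d x.1]
  unfold cf
  ring

/-- The part of weight `w` for the slope `d`. -/
noncomputable def top (d : ℕ) (w : ℤ) (F : K[X]⟦X⟧) : K⟦X⟧ :=
  PowerSeries.mk fun m => if 0 ≤ w + m * d then cf F m (w + m * d).toNat else 0

omit [CharZero K] in
lemma top_sum (d : ℕ) (w : ℤ) (s : Finset ι) (F : ι → K[X]⟦X⟧) :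
    top d w (∑ i ∈ s, F i) = ∑ i ∈ s, top d w (F i) := by
  ext m
  simp only [top, map_sum, PowerSeries.coeff_mk, cf_sum]
  split_ifs <;> simp

lemma top_EP_mul (a : K) (d : ℕ) (w : ℤ) (F : K[X]⟦X⟧) :
    top d w (EP (C a * X ^ d) * F) = ex a * top d w F := by
  ext m
  rw [PowerSeries.coeff_mul]
  simp only [top, PowerSeries.coeff_mk, cf_EP_mul, coeff_ex]
  split_ifs with h
  · refine sum_congr rfl fun x hx => ?_
    have h4 : (x.1 : ℤ) + x.2 = m := by exact_mod_cast mem_antidiagonal.mp hx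
    have h5 : w + m * d = w + x.2 * d + ((x.1 * d : ℕ) : ℤ) := by
      rw [← h4]
      push_cast
      ring
    congr 1
    by_cases h6 : 0 ≤ w + x.2 * d
    · rw [if_pos h6, if_pos (by omega)]
      congr 1
      omega
    · rw [if_neg h6, if_neg (by omega)]
  · symm
    refine sum_eq_zero fun x hx => ?_
    have h4 : (x.1 : ℤ) + x.2 = m := by exact_mod_cast mem_antidiagonal.mp hx
    have h5 : w + m * d = w + x.2 * d + ((x.1 * d : ℕ) : ℤ) := by
      rw [← h4]
      push_cast
      ring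
    rw [if_neg (by omega), mul_zero]

lemma bd_EP_mul (a : K) (d : ℕ) (w : ℤ) (F : K[X]⟦X⟧)
    (hF : ∀ m l, cf F m l ≠ 0 → (l : ℤ) - m * d ≤ w) (m l : ℕ)
    (h : cf (EP (C a * X ^ d) * F) m l ≠ 0) : (l : ℤ) - m * d ≤ w := by
  rw [cf_EP_mul] at h
  obtain ⟨x, hx, h⟩ := exists_ne_zero_of_sum_ne_zero h
  have h1 := right_ne_zero_of_mul h
  split_ifs at h1 with h2
  · have h3 := hF _ _ h1
    have h4 : (x.1 : ℤ) + x.2 = m := by exact_mod_cast mem_antidiagonal.mp hx
    rw [Nat.cast_sub h2] at h3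
    rw [← h4]
    push_cast at h3 ⊢
    linarith
  · exact absurd rfl h1

theorem newton (d : ℕ) : ∀ (s : Finset ι) (p : ι → K[X]) (R : ι → K⟦X⟧) (b : ℕ),
    (∀ i ∈ s, (p i).natDegree ≤ d) → (∀ i ∈ s, ∀ j ∈ s, i ≠ j → 0 < (p i - p j).natDegree) →
    (∃ i ∈ s, PowerSeries.coeff b (R i) ≠ 0) →
    ∃ m0 l0 : ℕ, m0 + 1 ≤ b + s.card ∧ cf (FF s p R) m0 l0 ≠ 0 ∧
      ∀ m l, cf (FF s p R) m l ≠ 0 → (l : ℤ) - m * d ≤ l0 - m0 * d := by
  classical
  induction d with
  | zero =>
    rintro s p R b hp hne ⟨i, hi, hb⟩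
    have hs : s = {i} := by
      refine eq_singleton_iff_unique_mem.mpr ⟨hi, fun j hj => ?_⟩
      by_contra h
      have h1 := hne j hj i hi h
      have h2 := natDegree_sub_le (p j) (p i)
      have h3 := hp j hj
      have h4 := hp i hi
      omega
    have hex : ∃ b, PowerSeries.coeff b (R i) ≠ 0 := ⟨b, hb⟩
    refine ⟨Nat.find hex, 0, ?_, ?_, ?_⟩
    · have := Nat.find_min' hex hb
      rw [hs, card_singleton]
      omega
    · rw [hs, FF, sum_singleton, cf, PowerSeries.coeff_mul,
        sum_eq_single_of_mem (Nat.find hex, 0) (by simp)]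
      · simpa [coeff_EP] using Nat.find_spec hex
      · intro x hx hne'
        have h4 : x.1 + x.2 = Nat.find hex := mem_antidiagonal.mp hx
        have h5 : x.1 < Nat.find hex := by
          by_contra h6
          exact hne' (Prod.ext (by simp only; omega) (by simp only; omega))
        have h6 := Nat.find_min hex h5
        rw [not_not] at h6
        rw [PowerSeries.coeff_map, h6, map_zero, zero_mul]
    · intro m l h
      simpa using cf_FF_bound s p R 0 0 hp (by simp) m l h
  | succ d ih =>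
    rintro s p R b hp hne ⟨i0, hi0, hb⟩
    let lc : ι → K := fun i => (p i).coeff (d + 1)
    let A : Finset K := s.image lc
    let cls : K → Finset ι := fun a => s.filter fun i => lc i = a
    let q : ι → K[X] := fun i => p i - C (lc i) * X ^ (d + 1)
    have hq : ∀ i ∈ s, (q i).natDegree ≤ d := by
      intro i hi
      rw [natDegree_le_iff_coeff_eq_zero]
      intro N hN
      simp only [q, coeff_sub, coeff_C_mul, coeff_X_pow]
      by_cases h : N = d + 1
      · simp [h, lc]
      · rw [if_neg h, coeff_eq_zero_of_natDegree_lt (by have := hp i hi; omega)]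
        simp
    let G : K → K[X]⟦X⟧ := fun a => FF (cls a) q R
    have hdec : FF s p R = ∑ a ∈ A, EP (C a * X ^ (d + 1)) * G a := by
      rw [FF, ← sum_fiberwise_of_maps_to (g := lc) (t := A) fun i hi => mem_image_of_mem lc hi]
      refine sum_congr rfl fun a _ => ?_
      simp only [G, FF, mul_sum]
      refine sum_congr rfl fun i hi => ?_
      have h1 : lc i = a := (mem_filter.mp hi).2
      have h2 : p i = C a * X ^ (d + 1) + q i := by simp [q, h1]
      rw [h2, EP_add]
      ring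
    have hcard : ∑ a ∈ A, (cls a).card = s.card :=
      (card_eq_sum_card_fiberwise fun i hi => mem_image_of_mem lc hi).symm
    have hcls : ∀ a, G a ≠ 0 ∨ a = lc i0 → ∃ ba ma la : ℕ, (a = lc i0 → ba ≤ b) ∧
        ma + 1 ≤ ba + (cls a).card ∧ cf (G a) ma la ≠ 0 ∧
        (∀ m l, cf (G a) m l ≠ 0 → (l : ℤ) - m * d ≤ la - ma * d) ∧
        (∀ m l, cf (G a) m l ≠ 0 → (l : ℤ) - m * (d + 1 : ℕ) ≤ -(ba * (d + 1 : ℕ))) := by
      intro a ha
      have hex : ∃ b, ∃ i ∈ cls a, PowerSeries.coeff b (R i) ≠ 0 := by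
        rcases ha with ha | ha
        · obtain ⟨i, hi, h⟩ := exists_ne_zero_of_sum_ne_zero ha
          by_contra hcon
          push Not at hcon
          have : R i = 0 := PowerSeries.ext fun n => by simpa using hcon n i hi
          exact h (by rw [this, map_zero, zero_mul])
        · exact ⟨b, i0, mem_filter.mpr ⟨hi0, ha.symm⟩, hb⟩
      obtain ⟨ma, la, h1, h2, h3⟩ := ih (cls a) q R (Nat.find hex)
        (fun i hi => hq i (mem_filter.mp hi).1)
        (fun i hi j hj hij => by
          have e : q i - q j = p i - p j := by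
            simp only [q, (mem_filter.mp hi).2, (mem_filter.mp hj).2]
            ring
          rw [e]
          exact hne i (mem_filter.mp hi).1 j (mem_filter.mp hj).1 hij)
        (Nat.find_spec hex)
      refine ⟨Nat.find hex, ma, la, fun h => ?_, h1, h2, h3, ?_⟩
      · exact Nat.find_min' hex ⟨i0, mem_filter.mpr ⟨hi0, h.symm⟩, hb⟩
      · refine cf_FF_bound (cls a) q R (d + 1) _
          (fun i hi => (hq i (mem_filter.mp hi).1).trans (Nat.le_succ d)) ?_
        intro i hi c hc
        by_contra h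
        exact Nat.find_min hex hc ⟨i, hi, h⟩
    choose! ba ma la c1 c2 c3 c4 c5 using hcls
    have ha0 : lc i0 ∈ A := mem_image_of_mem lc hi0
    have hGne : ∀ a m l, cf (G a) m l ≠ 0 → G a ≠ 0 := by
      intro a m l h h0
      exact h (by simp [h0, cf])
    obtain ⟨w, ⟨a2, ha2, m2, l2, hw1, hw2⟩, hw⟩ := Int.exists_greatest_of_bdd
      (P := fun z => ∃ a ∈ A, ∃ m l : ℕ, cf (G a) m l ≠ 0 ∧ z = (l : ℤ) - m * (d + 1 : ℕ))
      ⟨0, by
        rintro z ⟨a, _, m, l, h, rfl⟩
        have h1 := c5 a (Or.inl (hGne a m l h)) m l h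
        have h2 : (0 : ℤ) ≤ ba a * (d + 1 : ℕ) := by positivity
        linarith⟩
      ⟨_, lc i0, ha0, ma (lc i0), la (lc i0), c3 _ (Or.inr rfl), rfl⟩
    have hwb : ∀ a ∈ A, ∀ m l, cf (G a) m l ≠ 0 → (l : ℤ) - m * (d + 1 : ℕ) ≤ w :=
      fun a ha m l h => hw _ ⟨a, ha, m, l, h, rfl⟩
    have hμex : ∃ m : ℕ, 0 ≤ w + m * (d + 1 : ℕ) := ⟨m2, by rw [hw2]; simp⟩
    let μ := Nat.find hμex
    have hμ : 0 ≤ w + μ * (d + 1 : ℕ) := Nat.find_spec hμex
    let T : K → K⟦X⟧ := fun a => top (d + 1) w (G a)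
    have hT : ∀ a ∈ A, ∀ m, PowerSeries.coeff m (T a) ≠ 0 →
        G a ≠ 0 ∧ μ ≤ m ∧ m ≤ ma a ∧ ba a ≤ μ ∧ w ≤ -(ba a * (d + 1 : ℕ)) := by
      intro a ha m h
      simp only [T, top, PowerSeries.coeff_mk] at h
      split_ifs at h with h1
      swap
      · exact absurd rfl h
      have h2 := hGne a _ _ h
      have h3 := c4 a (Or.inl h2) _ _ h
      have h4 := c5 a (Or.inl h2) _ _ h
      have h5 := hwb a ha _ _ (c3 a (Or.inl h2))
      rw [Int.toNat_of_nonneg h1] at h3 h4
      have h6 : w ≤ -(ba a * (d + 1 : ℕ)) := by linarith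
      refine ⟨h2, Nat.find_min' hμex h1, ?_, ?_, h6⟩
      · push_cast at h3 h5
        have : (m : ℤ) ≤ ma a := by nlinarith
        exact_mod_cast this
      · have h7 : (ba a : ℤ) * (d + 1 : ℕ) ≤ μ * (d + 1 : ℕ) := by linarith
        have h8 : (0 : ℤ) < (d + 1 : ℕ) := by positivity
        exact_mod_cast le_of_mul_le_mul_right h7 h8
    have hT2 : PowerSeries.coeff m2 (T a2) ≠ 0 := by
      simp only [T, top, PowerSeries.coeff_mk]
      rw [if_pos (by rw [hw2]; simp), hw2]
      simpa using hw1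
    let nn : K → ℕ := fun a => if T a = 0 then 0 else ba a + (cls a).card - μ
    have hTne : ∀ a, T a ≠ 0 → ∃ m, PowerSeries.coeff m (T a) ≠ 0 := by
      intro a h
      by_contra hcon
      push Not at hcon
      exact h (PowerSeries.ext fun n => by simpa using hcon n)
    obtain ⟨m0, hm0, hc0⟩ := exp_poly_order A T nn μ
      (by
        intro a ha m h
        obtain ⟨h1, h2, h3, h4, -⟩ := hT a ha m h
        have h5 := c2 a (Or.inl h1)
        have h6 : T a ≠ 0 := fun h0 => h (by rw [h0, map_zero])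
        simp only [nn, if_neg h6]
        omega)
      ⟨a2, ha2, fun h0 => hT2 (by rw [h0, map_zero])⟩
    have htop : top (d + 1) w (FF s p R) = ∑ a ∈ A, ex a * T a := by
      rw [hdec, top_sum]
      exact sum_congr rfl fun a _ => top_EP_mul a (d + 1) w (G a)
    rw [← htop] at hc0
    simp only [top, PowerSeries.coeff_mk] at hc0
    split_ifs at hc0 with h1
    swap
    · exact absurd rfl hc0
    have hnn : ∀ a ∈ A, nn a ≤ (cls a).card := by
      intro a ha
      simp only [nn]
      split_ifs with h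
      · exact Nat.zero_le _
      · obtain ⟨m, hm⟩ := hTne a h
        have := (hT a ha m hm).2.2.2.1
        omega
    refine ⟨m0, (w + m0 * (d + 1 : ℕ)).toNat, ?_, hc0, ?_⟩
    · by_cases h0 : T (lc i0) = 0
      · have hne2 : a2 ≠ lc i0 := by
          rintro rfl
          exact hT2 (by rw [h0, map_zero])
        obtain ⟨g1, g2, g3, g4, g5⟩ := hT a2 ha2 m2 hT2
        have g6 := c2 a2 (Or.inl g1)
        have g7 := hwb _ ha0 _ _ (c3 _ (Or.inr rfl))
        have g8 := c2 _ (Or.inr rfl)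
        have g9 := c1 _ (Or.inr rfl) rfl
        have g10 : ba a2 ≤ ma (lc i0) := by
          have h7 : (ba a2 : ℤ) * (d + 1 : ℕ) ≤ ma (lc i0) * (d + 1 : ℕ) := by
            have : (0 : ℤ) ≤ la (lc i0) := by positivity
            linarith
          have h8 : (0 : ℤ) < (d + 1 : ℕ) := by positivity
          exact_mod_cast le_of_mul_le_mul_right h7 h8
        have ha2' : a2 ∈ A.erase (lc i0) := mem_erase.mpr ⟨hne2, ha2⟩
        rw [← add_sum_erase _ _ ha0, ← add_sum_erase _ _ ha2'] at hm0 hcard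
        have g11 : ∑ a ∈ (A.erase (lc i0)).erase a2, nn a ≤
            ∑ a ∈ (A.erase (lc i0)).erase a2, (cls a).card :=
          sum_le_sum fun a ha => hnn a (mem_of_mem_erase (mem_of_mem_erase ha))
        have g12 : nn (lc i0) = 0 := by simp [nn, h0]
        have g13 : nn a2 = ba a2 + (cls a2).card - μ := by
          simp only [nn]
          rw [if_neg fun h0 => hT2 (by rw [h0, map_zero])]
        omega
      · obtain ⟨m, hm⟩ := hTne _ h0
        obtain ⟨g1, g2, g3, g4, g5⟩ := hT _ ha0 m hm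
        have g8 := c2 _ (Or.inr rfl)
        have g9 := c1 _ (Or.inr rfl) rfl
        rw [← add_sum_erase _ _ ha0] at hm0 hcard
        have g11 : ∑ a ∈ A.erase (lc i0), nn a ≤ ∑ a ∈ A.erase (lc i0), (cls a).card :=
          sum_le_sum fun a ha => hnn a (mem_of_mem_erase ha)
        have g13 : nn (lc i0) = ba (lc i0) + (cls (lc i0)).card - μ := by
          simp only [nn]
          rw [if_neg h0]
        omega
    · intro m l h
      rw [Int.toNat_of_nonneg h1, add_sub_cancel_right]
      rw [hdec, cf_sum] at h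
      obtain ⟨a, ha, h⟩ := exists_ne_zero_of_sum_ne_zero h
      exact bd_EP_mul a (d + 1) w (G a) (hwb a ha) m l h

/-- **Bound on algebraic complexity.** If `∑ Q_i (x + P_i (y)) = 0` and the differences of the
`P_i` are not constant, then every `Q_i` has degree at most the number of terms minus two. -/
theorem algebraic_complexity [Fintype ι] (P Q : ι → K[X])
    (hP : ∀ i j, i ≠ j → 0 < (P i - P j).natDegree)
    (h : ∀ m n : ℕ, ∑ i, (Q i).eval ((m : K) + (P i).eval (n : K)) = 0) (i : ι) (j : ℕ)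
    (hj : Fintype.card ι ≤ j + 1) : (Q i).coeff j = 0 := by
  classical
  have hinf : ∀ f : K[X], (∀ n : ℕ, f.eval (n : K) = 0) → f = 0 := by
    intro f hf
    refine eq_zero_of_infinite_isRoot f ?_
    refine (Set.infinite_range_of_injective (Nat.cast_injective (R := K))).mono ?_
    rintro _ ⟨n, rfl⟩
    exact hf n
  have h1 : ∀ k, ∑ i, (hasseDeriv k (Q i)).comp (P i) = 0 := by
    intro k
    refine hinf _ fun n => ?_
    have h2 : ∑ i, taylor ((P i).eval (n : K)) (Q i) = 0 := by
      refine hinf _ fun m => ?_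
      simp only [eval_finsetSum, taylor_eval]
      exact h m n
    have h3 := congrArg (fun f : K[X] => f.coeff k) h2
    simpa only [finsetSum_coeff, taylor_coeff, coeff_zero, eval_finsetSum, eval_comp] using h3
  by_contra hne
  obtain ⟨i1, hi0, hi1⟩ := exists_max_image (univ.filter fun i => Q i ≠ 0) (fun i => (Q i).natDegree)
    ⟨i, by simpa using fun h0 : Q i = 0 => hne (by rw [h0, coeff_zero])⟩
  have hQ1 : Q i1 ≠ 0 := (mem_filter.mp hi0).2
  set s := (Q i1).natDegree with hs
  have hdeg : ∀ i, (Q i).natDegree ≤ s := by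
    intro i
    by_cases h0 : Q i = 0
    · simp [h0]
    · exact hi1 i (by simpa using h0)
  let R : ι → K⟦X⟧ := fun i => PowerSeries.mk fun a => ((s - a).factorial : K) * (Q i).coeff (s - a)
  obtain ⟨m0, l0, e1, e2, -⟩ := newton (univ.sup fun i => (P i).natDegree) univ P R 0
    (fun i hi => le_sup (f := fun i => (P i).natDegree) hi) (fun i _ j _ hij => hP i j hij)
    ⟨i1, mem_univ _, by
      simp only [R, PowerSeries.coeff_mk, Nat.sub_zero]
      exact mul_ne_zero (by exact_mod_cast s.factorial_ne_zero) (leadingCoeff_ne_zero.mpr hQ1)⟩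
  have hm : m0 ≤ s := by
    have := (le_natDegree_of_ne_zero hne).trans (hdeg i)
    rw [card_univ] at e1
    omega
  obtain ⟨k, hk⟩ := Nat.exists_eq_add_of_le hm
  apply e2
  have e3 : PowerSeries.coeff m0 (FF univ P R) =
      C (k.factorial : K) * ∑ i, (hasseDeriv k (Q i)).comp (P i) := by
    rw [FF, map_sum, mul_sum]
    refine sum_congr rfl fun i _ => ?_
    rw [mul_comm, PowerSeries.coeff_mul, Nat.sum_antidiagonal_eq_sum_range_succ_mk, comp,
      eval₂_eq_sum_range' _ (n := m0 + 1)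
        ((natDegree_hasseDeriv_le _ _).trans_lt (by have := hdeg i; omega)), mul_sum]
    refine sum_congr rfl fun b hb => ?_
    have hb' : b ≤ m0 := Nat.lt_succ_iff.mp (mem_range.mp hb)
    have e4 : s - (m0 - b) = b + k := by omega
    simp only [coeff_EP, PowerSeries.coeff_map, R, PowerSeries.coeff_mk, e4, hasseDeriv_coeff]
    rw [mul_right_comm, ← map_mul, ← mul_assoc (C (k.factorial : K)), ← map_mul]
    congr 2
    rw [← Nat.add_choose_mul_factorial_mul_factorial b k]
    have h1 : ((b.factorial : ℕ) : K) ≠ 0 := by exact_mod_cast b.factorial_ne_zero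
    push_cast
    field_simp
  rw [cf, e3, h1, mul_zero, coeff_zero]

end Pool.Agent.Lib.MP_467fc0_an
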