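import Pool.Agent.Lib.MP_467fc0_an.Newton

/-! Polynomial orbits of a unipotent endomorphism. -/

namespace Pool.Agent.Lib.MP_467fc0_an

open Finset Polynomial

section Binomial

variable (K : Type*) [Field K] [CharZero K]

/-- The binomial polynomial of degree `j`. -/
noncomputable def binP (j : ℕ) : K[X] := C ((j.factorial : K))⁻¹ * descPochhammer K j

lemma binP_eval (j : ℕ) (n : ℤ) : (binP K j).eval (n : K) = ((Ring.choose n j : ℤ) : K) := by
  have h1 := Ring.descPochhammer_eq_factorial_smul_choose n j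
  rw [← eval_eq_smeval, nsmul_eq_mul] at h1
  have h2 : ((j.factorial : ℕ) : K) ≠ 0 := by exact_mod_cast j.factorial_ne_zero
  rw [binP, eval_mul, eval_C, ← descPochhammer_map (Int.castRingHom K), eval_intCast_map,
    Int.cast_id, h1]
  simp only [eq_intCast]
  push_cast
  field_simp

lemma binP_coeff_self (j : ℕ) : (binP K j).coeff j ≠ 0 := by
  have h2 : ((j.factorial : ℕ) : K) ≠ 0 := by exact_mod_cast j.factorial_ne_zero
  have h3 := (monic_descPochhammer K j).coeff_natDegree
  rw [descPochhammer_natDegree] at h3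
  rw [binP, coeff_C_mul, h3, mul_one]
  exact inv_ne_zero h2

omit [CharZero K] in
lemma binP_coeff_gt {j l : ℕ} (h : j < l) : (binP K j).coeff l = 0 := by
  rw [binP, coeff_C_mul, coeff_eq_zero_of_natDegree_lt (by rwa [descPochhammer_natDegree]), mul_zero]

variable {K}

lemma binP_indep (c : ℕ → K) (d M : ℕ)
    (h : ∀ l, d ≤ l → (∑ j ∈ range M, C (c j) * binP K j).coeff l = 0) :
    ∀ j, d ≤ j → j < M → c j = 0 := by
  induction M with
  | zero => intro j _ hj; omega
  | succ M ih =>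
    by_cases hM : d ≤ M
    · have h1 := h M hM
      rw [sum_range_succ, coeff_add, finsetSum_coeff, sum_eq_zero fun j hj => by
        rw [coeff_C_mul, binP_coeff_gt K (mem_range.mp hj), mul_zero], zero_add, coeff_C_mul] at h1
      have h2 : c M = 0 := (mul_eq_zero.mp h1).resolve_right (binP_coeff_self K M)
      intro j hj hjM
      rcases Nat.lt_succ_iff_lt_or_eq.mp hjM with h3 | rfl
      · refine ih (fun l hl => ?_) j hj h3
        simpa [sum_range_succ, h2] using h l hl
      · exact h2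
    · intro j hj hjM
      omega

end Binomial

section Unip

variable {G : Type*} [AddCommGroup G] (N : Module.End ℤ G) (M : ℕ)

/-- The `n`-th power of `1 + N` through the binomial expansion. -/
noncomputable def Phi (n : ℤ) : Module.End ℤ G := ∑ j ∈ range (M + 1), Ring.choose n j • N ^ j

lemma Phi_zero : Phi N M 0 = 1 := by
  rw [Phi, sum_range_succ']
  simp

variable {N M}

lemma Phi_succ (hN : N ^ (M + 1) = 0) (n : ℤ) : Phi N M (n + 1) = Phi N M n * (1 + N) := by
  have h1 : Phi N M n * N = ∑ j ∈ range M, Ring.choose n j • N ^ (j + 1) := by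
    rw [Phi, sum_mul, sum_range_succ]
    simp only [smul_mul_assoc, ← pow_succ, hN, smul_zero, add_zero]
  rw [mul_add, mul_one, h1, Phi, Phi, sum_range_succ', sum_range_succ']
  simp only [Ring.choose_succ_succ, add_smul, sum_add_distrib, Ring.choose_zero_right]
  abel

lemma Phi_eq_zpow (hN : N ^ (M + 1) = 0) :
    ∃ u : (Module.End ℤ G)ˣ, (u : Module.End ℤ G) = 1 + N ∧
      ∀ n : ℤ, Phi N M n = ((u ^ n : (Module.End ℤ G)ˣ) : Module.End ℤ G) := by
  obtain ⟨u, hu⟩ := IsNilpotent.isUnit_one_add (r := N) ⟨_, hN⟩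
  refine ⟨u, hu, fun n => ?_⟩
  induction n using Int.induction_on with
  | zero => simp [Phi_zero]
  | succ n ih => rw [Phi_succ hN, ih, zpow_add_one, Units.val_mul, hu]
  | pred n ih =>
    have h1 := Phi_succ hN (-(n : ℤ) - 1)
    rw [sub_add_cancel, ih, ← hu] at h1
    rw [zpow_sub_one, Units.val_mul, h1, Units.mul_inv_cancel_right]

lemma Phi_add (hN : N ^ (M + 1) = 0) (m n : ℤ) : Phi N M (m + n) = Phi N M m * Phi N M n := by
  obtain ⟨u, -, h⟩ := Phi_eq_zpow hN
  rw [h, h, h, zpow_add, Units.val_mul]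

lemma Phi_one (hN : N ^ (M + 1) = 0) : Phi N M 1 = 1 + N := by
  have := Phi_succ hN 0
  rwa [zero_add, Phi_zero, one_mul] at this

lemma Phi_commute (n : ℤ) (k : ℕ) : N ^ k * Phi N M n = Phi N M n * N ^ k := by
  rw [Phi, mul_sum, sum_mul]
  refine sum_congr rfl fun j _ => ?_
  rw [mul_smul_comm, smul_mul_assoc, ← pow_add, ← pow_add, add_comm]

lemma Phi_apply (n : ℤ) (g : G) :
    Phi N M n g = ∑ j ∈ range (M + 1), Ring.choose n j • (N ^ j) g := by
  simp [Phi, LinearMap.sum_apply]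

lemma Phi_of_ker (n : ℤ) {g : G} (hg : N g = 0) : Phi N M n g = g := by
  rw [Phi_apply, sum_range_succ']
  simp [pow_succ, hg]

lemma Phi_of_ker_sq (hN : N ^ (M + 1) = 0) (n : ℕ) {g : G} (hg : N (N g) = 0) :
    Phi N M n g = g + n • N g := by
  induction n with
  | zero => simp [Phi_zero]
  | succ n ih =>
    rw [Nat.cast_succ, Phi_succ hN, Module.End.mul_apply, LinearMap.add_apply, map_add,
      Module.End.one_apply, ih, Phi_of_ker _ hg, succ_nsmul, add_assoc]

variable (N M) in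
/-- The polynomial `n ↦ L (Phi n g)`. -/
noncomputable def Qp {K : Type*} [Field K] (L : G →+ K) (g : G) : K[X] :=
  ∑ j ∈ range (M + 1), C (L ((N ^ j) g)) * binP K j

lemma Qp_eval {K : Type*} [Field K] [CharZero K] (L : G →+ K) (g : G) (n : ℤ) :
    (Qp N M L g).eval (n : K) = L (Phi N M n g) := by
  rw [Qp, Phi_apply, eval_finsetSum, map_sum]
  refine sum_congr rfl fun j _ => ?_
  rw [eval_mul, eval_C, binP_eval, map_zsmul, zsmul_eq_mul, mul_comm]

lemma Qp_vanish {K : Type*} [Field K] [CharZero K] (hN : N ^ (M + 1) = 0) (L : G →+ K) (g : G)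
    (d : ℕ) (h : ∀ l, d ≤ l → (Qp N M L g).coeff l = 0) : L ((N ^ d) g) = 0 := by
  by_cases hd : d < M + 1
  · exact binP_indep (fun j => L ((N ^ j) g)) d (M + 1) h d le_rfl hd
  · rw [pow_eq_zero_of_le (not_lt.mp hd) hN]
    simp

end Unip

section Concrete

variable {ι : Type*}

/-- Frequencies together with real phases. -/
abbrev GG (ι : Type*) := (ι → ℤ) × ℝ

/-- Trivial frequency and rational phase. -/
def Nul (ι : Type*) : AddSubgroup (GG ι) where
  carrier := {g | g.1 = 0 ∧ ∃ q : ℚ, (q : ℝ) = g.2}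
  zero_mem' := ⟨rfl, 0, by simp⟩
  add_mem' := by
    rintro a b ⟨h1, q1, e1⟩ ⟨h2, q2, e2⟩
    exact ⟨by simp [h1, h2], q1 + q2, by simp [e1, e2]⟩
  neg_mem' := by
    rintro a ⟨h1, q1, e1⟩
    exact ⟨by simp [h1], -q1, by simp [e1]⟩

lemma nul_sep {g : GG ι} (hg : g ∉ Nul ι) :
    ∃ L : GG ι →+ ℚ, (∀ y ∈ Nul ι, L y = 0) ∧ L g ≠ 0 := by
  by_cases h1 : g.1 = 0
  · have h2 : g.2 ∉ Submodule.span ℚ {(1 : ℝ)} := by
      intro h
      obtain ⟨q, hq⟩ := Submodule.mem_span_singleton.mp h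
      exact hg ⟨h1, q, by simpa [Rat.smul_def] using hq⟩
    obtain ⟨f, hf, hf'⟩ := Submodule.exists_dual_map_eq_bot_of_notMem h2 inferInstance
    refine ⟨f.toAddMonoidHom.comp (AddMonoidHom.snd _ _), ?_, hf⟩
    rintro y ⟨-, q, hq⟩
    have : f y.2 ∈ Submodule.map f (Submodule.span ℚ {(1 : ℝ)}) :=
      Submodule.mem_map_of_mem (Submodule.mem_span_singleton.mpr ⟨q, by simpa [Rat.smul_def] using hq⟩)
    rw [hf'] at this
    exact this
  · obtain ⟨i, hi⟩ := Function.ne_iff.mp h1
    refine ⟨(Int.castAddHom ℚ).comp ((Pi.evalAddMonoidHom (fun _ : ι => ℤ) i).comp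
      (AddMonoidHom.fst _ _)), ?_, by simpa using hi⟩
    rintro y ⟨hy, -⟩
    simp [hy]

lemma mem_nul_of_forall {g : GG ι}
    (h : ∀ L : GG ι →+ ℚ, (∀ y ∈ Nul ι, L y = 0) → L g = 0) : g ∈ Nul ι := by
  by_contra hg
  obtain ⟨L, h1, h2⟩ := nul_sep hg
  exact h2 (h L h1)

variable {N : Module.End ℤ (GG ι)} {M : ℕ} (hN : N ^ (M + 1) = 0)
  (hN0 : ∀ g : GG ι, g.1 = 0 → N g = 0)

include hN0 in
lemma Phi_nul (n : ℤ) {g : GG ι} (hg : g ∈ Nul ι) : Phi N M n g = g :=
  Phi_of_ker n (hN0 g hg.1)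

include hN hN0 in
lemma pow_Phi_mem_iff (n : ℤ) (k : ℕ) (g : GG ι) :
    (N ^ k) (Phi N M n g) ∈ Nul ι ↔ (N ^ k) g ∈ Nul ι := by
  have key : ∀ (n : ℤ) (g : GG ι), (N ^ k) g ∈ Nul ι → (N ^ k) (Phi N M n g) ∈ Nul ι := by
    intro n g h
    rw [← Module.End.mul_apply, Phi_commute, Module.End.mul_apply, Phi_nul hN0 n h]
    exact h
  refine ⟨fun h => ?_, key n g⟩
  have := key (-n) _ h
  rwa [← Module.End.mul_apply (Phi N M (-n)), ← Phi_add hN, neg_add_cancel, Phi_zero] at this

include hN hN0 in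
lemma nul_of_relation {l : ℕ} (p : Fin l → ℤ[X]) (hp : ∀ i, 0 < (p i).natDegree)
    (hp' : ∀ i j, i ≠ j → 0 < (p i - p j).natDegree) (g : Fin l → GG ι) (s0 : GG ι)
    (h : ∀ n : ℕ, ∑ i, Phi N M ((p i).eval (n : ℤ)) (g i) - s0 ∈ Nul ι) (i : Fin l) :
    (N ^ l) (g i) ∈ Nul ι := by
  refine mem_nul_of_forall fun L hL => Qp_vanish hN L (g i) l fun j hj => ?_
  have hinj : Function.Injective (Int.castRingHom ℚ) := Int.cast_injective
  refine algebraic_complexity (ι := Option (Fin l))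
    (fun o => o.elim 0 fun i => (p i).map (Int.castRingHom ℚ))
    (fun o => o.elim (-Qp N M L s0) fun i => Qp N M L (g i)) ?_ ?_ (some i) j (by simpa using hj)
  · rintro (_ | a) (_ | b) hab
    · exact absurd rfl hab
    · simpa [natDegree_map_eq_of_injective hinj] using hp b
    · simpa [natDegree_map_eq_of_injective hinj] using hp a
    · simp only [Option.elim]
      rw [← Polynomial.map_sub, natDegree_map_eq_of_injective hinj]
      exact hp' a b fun h => hab (by rw [h])
  · intro m n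
    have h1 := hL _ (h n)
    rw [← Phi_nul (M := M) hN0 m (h n), map_sub, map_sub, map_sum, map_sum] at h1
    rw [Fintype.sum_option]
    simp only [Option.elim, eval_zero, add_zero, eval_neg]
    have e0 := Qp_eval (N := N) (M := M) L s0 m
    have e1 : ∀ i, (Qp N M L (g i)).eval
        ((m : ℚ) + ((p i).map (Int.castRingHom ℚ)).eval (n : ℚ)) =
        L (Phi N M m (Phi N M ((p i).eval (n : ℤ)) (g i))) := by
      intro i
      rw [← Module.End.mul_apply, ← Phi_add hN, ← Qp_eval, eval_natCast_map]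
      simp
    simp only [e1]
    rw [Int.cast_natCast] at e0
    rw [e0]
    linarith

include hN in
lemma finite_bad (k : ℕ) (g g' : GG ι) (hg : (N ^ (k + 1)) g ∉ Nul ι) :
    {h : ℕ | (N ^ k) (Phi N M h g - g') ∈ Nul ι}.Finite := by
  by_contra hinf
  apply hg
  refine mem_nul_of_forall fun L hL => ?_
  have h1 : Qp N M L ((N ^ k) g) = C (L ((N ^ k) g')) := by
    refine eq_of_infinite_eval_eq _ _ ?_
    refine (Set.Infinite.image (Nat.cast_injective (R := ℚ)).injOn hinf).mono ?_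
    rintro _ ⟨h, hh, rfl⟩
    have h2 := hL _ hh
    have h3 := Qp_eval (N := N) (M := M) L ((N ^ k) g) h
    rw [Int.cast_natCast] at h3
    rw [map_sub, map_sub, ← Module.End.mul_apply, Phi_commute, Module.End.mul_apply] at h2
    simp only [Set.mem_ofPred_eq, eval_C, h3]
    linarith
  have h2 := Qp_vanish hN L ((N ^ k) g) 1 fun l hl => by
    rw [h1, coeff_C, if_neg (by omega)]
  rwa [← Module.End.mul_apply, ← pow_add, add_comm] at h2

end Concrete

end Pool.Agent.Lib.MP_467fc0_an
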