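import Pool.Agent.Lib.MP_467fc0_an.Averages
import Pool.Agent.Lib.MP_467fc0_an.Defs

/-! General estimates for the Host–Kra seminorms. -/

namespace Pool.Agent.Lib.MP_467fc0_an

open Finset Filter Topology MeasureTheory
open scoped ComplexConjugate ENNReal

/-- Real Cesàro averages. -/
noncomputable def ravg (a : ℕ → ℝ) (H : ℕ) : ℝ := (H : ℝ)⁻¹ * ∑ h ∈ Icc 1 H, a h

lemma ravg_nonneg {a : ℕ → ℝ} (h : ∀ n, 0 ≤ a n) (H : ℕ) : 0 ≤ ravg a H :=
  mul_nonneg (by positivity) (sum_nonneg fun n _ => h n)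

lemma ravg_le {a b : ℕ → ℝ} {D C : ℝ} (hD : 0 ≤ D) (h : ∀ n, a n ≤ D + C * b n) (H : ℕ) :
    ravg a H ≤ D + C * ravg b H := by
  rcases Nat.eq_zero_or_pos H with rfl | hH
  · simpa [ravg] using hD
  have hH' : (0 : ℝ) < H := by exact_mod_cast hH
  refine (mul_le_mul_of_nonneg_left (sum_le_sum fun n _ => h n) (by positivity)).trans
    (le_of_eq ?_)
  rw [sum_add_distrib, ← mul_sum, ravg]
  simp only [sum_const, Nat.card_Icc, add_tsub_cancel_right, nsmul_eq_mul]
  field_simp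

lemma sum_le_of_injOn {s t : Finset ℕ} {φ : ℕ → ℕ} (hφ : Set.InjOn φ s) (hm : ∀ x ∈ s, φ x ∈ t)
    {w : ℕ → ℝ} (hw : ∀ n, 0 ≤ w n) : ∑ x ∈ s, w (φ x) ≤ ∑ y ∈ t, w y := by
  rw [← sum_image hφ]
  exact sum_le_sum_of_subset_of_nonneg (image_subset_iff.mpr hm) fun y _ _ => hw y

lemma ravg_mul_le {s : ℕ → ℝ} (hs : ∀ n, 0 ≤ s n) {m : ℕ} (hm : 0 < m) (H : ℕ) :
    ravg (fun h => s (m * h)) H ≤ m * ravg s (m * H) := by
  rcases Nat.eq_zero_or_pos H with rfl | hH
  · simp [ravg]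
  have hH' : (0 : ℝ) < H := by exact_mod_cast hH
  have hm' : (0 : ℝ) < m := by exact_mod_cast hm
  have h1 : ∑ h ∈ Icc 1 H, s (m * h) ≤ ∑ h ∈ Icc 1 (m * H), s h :=
    sum_le_of_injOn (fun a _ b _ h => Nat.eq_of_mul_eq_mul_left hm h) (fun x hx => by
      rw [mem_Icc] at hx ⊢
      exact ⟨Nat.mul_pos hm hx.1, Nat.mul_le_mul_left m hx.2⟩) hs
  refine (mul_le_mul_of_nonneg_left h1 (by positivity)).trans (le_of_eq ?_)
  rw [ravg]
  push_cast
  field_simp

lemma sum_dist_le {w : ℕ → ℝ} (hw : ∀ n, 0 ≤ w n) {H a : ℕ} (ha : a < H) :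
    ∑ b ∈ range H, w (Nat.dist a b) ≤ w 0 + 2 * ∑ d ∈ Icc 1 H, w d := by
  have h1 : ∀ b ∈ range H, w (Nat.dist a b) = (if b = a then w 0 else 0) +
      ((if b < a then w (a - b) else 0) + if a < b then w (b - a) else 0) := by
    intro b _
    rcases lt_trichotomy b a with h | rfl | h
    · rw [if_neg h.ne, if_pos h, if_neg h.not_gt, Nat.dist_eq_sub_of_le_right h.le]
      ring
    · simp
    · rw [if_neg h.ne', if_neg h.not_gt, if_pos h, Nat.dist_eq_sub_of_le h.le]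
      ring
  rw [sum_congr rfl h1, sum_add_distrib, sum_add_distrib, ← sum_filter (fun b => b < a),
    ← sum_filter (fun b => a < b), sum_ite_eq', if_pos (mem_range.mpr ha), two_mul]
  refine add_le_add le_rfl (add_le_add (sum_le_of_injOn ?_ ?_ hw) (sum_le_of_injOn ?_ ?_ hw))
  · intro x hx y hy h
    simp only [coe_filter, mem_range, Set.mem_ofPred_eq] at hx hy h
    omega
  · intro x hx
    simp only [mem_filter, mem_range, mem_Icc] at hx ⊢
    omega
  · intro x hx y hy h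
    simp only [coe_filter, mem_range, Set.mem_ofPred_eq] at hx hy h
    omega
  · intro x hx
    simp only [mem_filter, mem_range, mem_Icc] at hx ⊢
    omega

section Limsup

variable {u : ℕ → ℝ} {B : ℝ} (hu : ∀ n, 0 ≤ u n ∧ u n ≤ B)

include hu

lemma limsup_nonneg' : 0 ≤ limsup u atTop :=
  le_limsup_of_frequently_le (Frequently.of_forall fun n => (hu n).1)
    (isBoundedUnder_of ⟨B, fun n => (hu n).2⟩)

lemma limsup_le' {c : ℝ} (h : ∀ᶠ n in atTop, u n ≤ c) : limsup u atTop ≤ c :=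
  limsup_le_of_le (isCoboundedUnder_le_of_le _ fun n => (hu n).1) h

lemma eventually_le_limsup' {δ : ℝ} (hδ : 0 < δ) : ∀ᶠ n in atTop, u n ≤ limsup u atTop + δ :=
  (eventually_lt_of_limsup_lt (lt_add_of_pos_right _ hδ)
    (isBoundedUnder_of ⟨B, fun n => (hu n).2⟩)).mono fun _ h => h.le

end Limsup

variable {X : Type*} [mX : MeasurableSpace X] {μ : Measure X} [IsProbabilityMeasure μ]
  {T : Equiv.Perm X}

/-- Multiplicative derivative. -/
noncomputable def dlt (T : Equiv.Perm X) (h : ℕ) (f : X → ℂ) : X → ℂ :=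
  fun x => conj (f x) * f ((T ^ h) x)

omit [IsProbabilityMeasure μ] in
lemma hkPow_succ (k : ℕ) (f : X → ℂ) :
    hkPow μ T (k + 1) f = limsup (ravg fun h => hkPow μ T k (dlt T h f)) atTop := rfl

lemma sq_integral_le {u : X → ℝ} (hu : MemLp u 2 μ) : (∫ x, u x ∂μ) ^ 2 ≤ ∫ x, u x ^ 2 ∂μ := by
  have h1 := ProbabilityTheory.variance_nonneg u μ
  rw [ProbabilityTheory.variance_eq_sub hu] at h1
  simpa using h1

lemma norm_integral_sq_le {F : X → ℂ} (hF : MemLp F 2 μ) :
    ‖∫ x, F x ∂μ‖ ^ 2 ≤ ∫ x, ‖F x‖ ^ 2 ∂μ :=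
  (pow_le_pow_left₀ (norm_nonneg _) (norm_integral_le_integral_norm _) 2).trans
    (sq_integral_le hF.norm)

variable (hT : ∀ n : ℕ, MeasurePreserving (T ^ n) μ μ)

include hT

omit [IsProbabilityMeasure μ] in
lemma dlt_bound {f : X → ℂ} {C : ℝ} (hf : ∀ᵐ x ∂μ, ‖f x‖ ≤ C) (h : ℕ) :
    ∀ᵐ x ∂μ, ‖dlt T h f x‖ ≤ C ^ 2 := by
  filter_upwards [hf, (hT h).quasiMeasurePreserving.ae hf] with x h1 h2
  rw [dlt, norm_mul, Complex.norm_conj, sq]
  exact mul_le_mul h1 h2 (norm_nonneg _) ((norm_nonneg _).trans h1)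

omit [IsProbabilityMeasure μ] in
lemma dlt_aesm {f : X → ℂ} (hf : AEStronglyMeasurable f μ) (h : ℕ) :
    AEStronglyMeasurable (dlt T h f) μ :=
  (Complex.continuous_conj.comp_aestronglyMeasurable hf).mul
    (hf.comp_quasiMeasurePreserving (hT h).quasiMeasurePreserving)

omit [IsProbabilityMeasure μ] in
lemma dlt_memLp {f : X → ℂ} (hf : MemLp f ∞ μ) (h : ℕ) : MemLp (dlt T h f) ∞ μ := by
  obtain ⟨C, -, hC⟩ := exists_bound hf
  exact memLp_top_of_bound (dlt_aesm hT hf.1 h) _ (dlt_bound hT hC h)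

lemma hkPow_bounds (k : ℕ) : ∀ C : ℝ, ∃ B : ℝ, ∀ f : X → ℂ, (∀ᵐ x ∂μ, ‖f x‖ ≤ C) →
    0 ≤ hkPow μ T k f ∧ hkPow μ T k f ≤ B := by
  induction k with
  | zero =>
    refine fun C => ⟨C ^ 2, fun f hf => ⟨integral_nonneg fun x => by positivity, ?_⟩⟩
    have h1 := integral_mono_of_nonneg (μ := μ)
      (f := fun x => ‖condExp (MeasurableSpace.invariants T) μ f x‖ ^ 2) (g := fun _ => C ^ 2)
      (Eventually.of_forall fun x => by positivity) (integrable_const _) (by
        filter_upwards [ae_bdd_norm_condExp_of_ae_bdd_norm (m := MeasurableSpace.invariants T) hf]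
          with x hx
        exact pow_le_pow_left₀ (norm_nonneg _) hx 2)
    simpa [hkPow] using h1
  | succ k ih =>
    intro C
    obtain ⟨B, hB⟩ := ih (C ^ 2)
    refine ⟨B, fun f hf => ?_⟩
    have h1 := fun h => hB _ (dlt_bound hT hf h)
    have h2 : ∀ H, 0 ≤ ravg (fun h => hkPow μ T k (dlt T h f)) H ∧
        ravg (fun h => hkPow μ T k (dlt T h f)) H ≤ B := fun H =>
      ⟨ravg_nonneg (fun h => (h1 h).1) H, by
        simpa using ravg_le (b := fun _ => 0) (C := 0) ((h1 0).1.trans (h1 0).2)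
          (fun h => by simpa using (h1 h).2) H⟩
    exact ⟨limsup_nonneg' h2, limsup_le' h2 (Eventually.of_forall fun H => (h2 H).2)⟩

lemma ravg_bounds (k : ℕ) {f : X → ℂ} {C : ℝ} (hf : ∀ᵐ x ∂μ, ‖f x‖ ≤ C) :
    (∀ h, 0 ≤ hkPow μ T k (dlt T h f)) ∧ ∃ B, ∀ H,
      0 ≤ ravg (fun h => hkPow μ T k (dlt T h f)) H ∧
        ravg (fun h => hkPow μ T k (dlt T h f)) H ≤ B := by
  obtain ⟨B, hB⟩ := hkPow_bounds hT k (C ^ 2)
  have h1 := fun h => hB _ (dlt_bound hT hf h)
  exact ⟨fun h => (h1 h).1, B, fun H => ⟨ravg_nonneg (fun h => (h1 h).1) H, by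
    simpa using ravg_le (b := fun _ => 0) (C := 0) ((h1 0).1.trans (h1 0).2)
      (fun h => by simpa using (h1 h).2) H⟩⟩

lemma hkPow_lip (k : ℕ) : ∀ C : ℝ, 0 ≤ C → ∃ L : ℝ, 0 ≤ L ∧ ∀ f g : X → ℂ,
    AEStronglyMeasurable f μ → AEStronglyMeasurable g μ → (∀ᵐ x ∂μ, ‖f x‖ ≤ C) →
    (∀ᵐ x ∂μ, ‖g x‖ ≤ C) → hkPow μ T k f ≤ L * ∫ x, ‖f x - g x‖ ∂μ + hkPow μ T k g := by
  induction k with
  | zero =>
    refine fun C hC => ⟨2 * C, by positivity, fun f g hf hg bf bg => ?_⟩
    have f1 : Integrable f μ := Integrable.of_bound hf C bf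
    have g1 : Integrable g μ := Integrable.of_bound hg C bg
    set m := MeasurableSpace.invariants T
    have h1 : ∫ x, ‖condExp m μ (f - g) x‖ ∂μ ≤ ∫ x, ‖f x - g x‖ ∂μ := integral_norm_condExp_le _
    have g2 : Integrable (fun x => ‖condExp m μ g x‖ ^ 2) μ :=
      ((memLp_top_of_bound hg C bg).mono_exponent (p := 2) le_top).condExp (by norm_num)
        |>.integrable_norm_pow (by norm_num)
    have h2 : ∫ x, ‖condExp m μ f x‖ ^ 2 ∂μ ≤
        ∫ x, (2 * C * ‖condExp m μ (f - g) x‖ + ‖condExp m μ g x‖ ^ 2) ∂μ := by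
      refine integral_mono_of_nonneg (Eventually.of_forall fun x => by positivity)
        ((integrable_condExp.norm.const_mul _).add g2) ?_
      filter_upwards [ae_bdd_norm_condExp_of_ae_bdd_norm (m := m) bf,
        ae_bdd_norm_condExp_of_ae_bdd_norm (m := m) bg, condExp_sub f1 g1 m] with x a1 a2 a3
      rw [a3, Pi.sub_apply]
      have a4 := norm_sub_norm_le (condExp m μ f x) (condExp m μ g x)
      nlinarith [norm_nonneg (condExp m μ f x), norm_nonneg (condExp m μ g x),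
        norm_nonneg (condExp m μ f x - condExp m μ g x)]
    rw [integral_add (integrable_condExp.norm.const_mul _) g2, integral_const_mul] at h2
    exact h2.trans (add_le_add (mul_le_mul_of_nonneg_left h1 (by positivity)) le_rfl)
  | succ k ih =>
    intro C hC
    obtain ⟨L, hL, hB⟩ := ih (C ^ 2) (by positivity)
    refine ⟨L * (2 * C), by positivity, fun f g hf hg bf bg => ?_⟩
    have f1 : Integrable f μ := Integrable.of_bound hf C bf
    have g1 : Integrable g μ := Integrable.of_bound hg C bg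
    have fg : Integrable (fun x => ‖f x - g x‖) μ := (f1.sub g1).norm
    have h0 : 0 ≤ ∫ x, ‖f x - g x‖ ∂μ := integral_nonneg fun x => norm_nonneg _
    have h1 : ∀ h, ∫ x, ‖dlt T h f x - dlt T h g x‖ ∂μ ≤ 2 * C * ∫ x, ‖f x - g x‖ ∂μ := by
      intro h
      have e1 : ∫ x, ‖f ((T ^ h) x) - g ((T ^ h) x)‖ ∂μ = ∫ x, ‖f x - g x‖ ∂μ := by
        conv_rhs => rw [← (hT h).map_eq]
        rw [integral_map (hT h).measurable.aemeasurable (by rw [(hT h).map_eq]; exact fg.1)]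
      have i1 : Integrable (fun x => ‖f ((T ^ h) x) - g ((T ^ h) x)‖) μ :=
        (hT h).integrable_comp_of_integrable fg
      have h2 : ∫ x, ‖dlt T h f x - dlt T h g x‖ ∂μ ≤
          ∫ x, (C * ‖f x - g x‖ + C * ‖f ((T ^ h) x) - g ((T ^ h) x)‖) ∂μ := by
        refine integral_mono_of_nonneg (Eventually.of_forall fun x => norm_nonneg _)
          ((fg.const_mul _).add (i1.const_mul _)) ?_
        filter_upwards [bg, (hT h).quasiMeasurePreserving.ae bf] with x a1 a2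
        have e : dlt T h f x - dlt T h g x = conj (f x - g x) * f ((T ^ h) x) +
            conj (g x) * (f ((T ^ h) x) - g ((T ^ h) x)) := by
          simp only [dlt, map_sub]
          ring
        rw [e]
        refine (norm_add_le _ _).trans (add_le_add ?_ ?_)
        · rw [norm_mul, Complex.norm_conj, mul_comm]
          exact mul_le_mul_of_nonneg_right a2 (norm_nonneg _)
        · rw [norm_mul, Complex.norm_conj]
          exact mul_le_mul_of_nonneg_right a1 (norm_nonneg _)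
      rw [integral_add (fg.const_mul _) (i1.const_mul _), integral_const_mul, integral_const_mul,
        e1] at h2
      linarith
    obtain ⟨-, Bf, hBf⟩ := ravg_bounds hT k bf
    obtain ⟨-, Bg, hBg⟩ := ravg_bounds hT k bg
    refine le_of_forall_pos_le_add fun δ hδ => limsup_le' hBf ?_
    filter_upwards [eventually_le_limsup' hBg hδ] with H hH
    have h3 := ravg_le (a := fun h => hkPow μ T k (dlt T h f))
      (b := fun h => hkPow μ T k (dlt T h g)) (D := L * (2 * C) * ∫ x, ‖f x - g x‖ ∂μ) (C := 1)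
      (by positivity) (fun h => by
        have a1 := hB _ _ (dlt_aesm hT hf h) (dlt_aesm hT hg h) (dlt_bound hT bf h)
          (dlt_bound hT bg h)
        have a2 := mul_le_mul_of_nonneg_left (h1 h) hL
        linarith) H
    rw [hkPow_succ]
    linarith

lemma vdc_integral {F : X → ℂ} (hF : MemLp F ∞ μ) (m : ℕ) {H : ℕ} (hH : 0 < H) :
    ‖∫ x, F x ∂μ‖ ^ 2 ≤ ‖∫ x, dlt T 0 F x ∂μ‖ / H +
      2 * ravg (fun d => ‖∫ x, dlt T (m * d) F x ∂μ‖) H := by
  have hH' : (0 : ℝ) < H := by exact_mod_cast hH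
  have hH'' : (H : ℂ) ≠ 0 := by exact_mod_cast hH.ne'
  have hc : ∀ {G : X → ℂ}, MemLp G ∞ μ → ∀ n : ℕ, ∫ x, G ((T ^ n) x) ∂μ = ∫ x, G x ∂μ := by
    intro G hG n
    conv_rhs => rw [← (hT n).map_eq]
    rw [integral_map (hT n).measurable.aemeasurable (by rw [(hT n).map_eq]; exact hG.1)]
  have hm : ∀ n : ℕ, MemLp (fun x => F ((T ^ n) x)) ∞ μ := fun n => hF.comp_measurePreserving (hT n)
  have hi : ∀ a b : ℕ, Integrable (fun x => conj (F ((T ^ a) x)) * F ((T ^ b) x)) μ := by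
    intro a b
    have h1 : MemLp (fun x => conj (F ((T ^ a) x))) ∞ μ := (hm a).star
    exact memLp_one_iff_integrable.mp
      ((MemLp.mul' (r := ∞) (hm b) h1).mono_exponent le_top)
  let w : ℕ → ℝ := fun d => ‖∫ x, dlt T (m * d) F x ∂μ‖
  have hw : ∀ a b : ℕ, ‖∫ x, conj (F ((T ^ (m * a)) x)) * F ((T ^ (m * b)) x) ∂μ‖ =
      w (Nat.dist a b) := by
    have key : ∀ a b : ℕ, a ≤ b → ‖∫ x, conj (F ((T ^ (m * a)) x)) * F ((T ^ (m * b)) x) ∂μ‖ =
        w (Nat.dist a b) := by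
      intro a b hab
      obtain ⟨d, rfl⟩ := Nat.exists_eq_add_of_le hab
      rw [Nat.dist_eq_sub_of_le hab, add_tsub_cancel_left]
      simp only [w]
      rw [← hc (dlt_memLp hT hF (m * d)) (m * a)]
      simp only [dlt, ← Equiv.Perm.mul_apply, ← pow_add, mul_add, add_comm]
    intro a b
    rcases le_total a b with h | h
    · exact key a b h
    · rw [Nat.dist_comm, ← key b a h, ← Complex.norm_conj, ← integral_conj]
      simp only [map_mul, Complex.conj_conj, mul_comm]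
  let G : X → ℂ := fun x => (H : ℂ)⁻¹ * ∑ a ∈ range H, F ((T ^ (m * a)) x)
  have hG : MemLp G 2 μ :=
    (memLp_finsetSum _ fun a _ => (hm _).mono_exponent le_top).const_mul _
  have e1 : ∫ x, G x ∂μ = ∫ x, F x ∂μ := by
    rw [integral_const_mul, integral_finsetSum _ fun a _ =>
      memLp_one_iff_integrable.mp ((hm _).mono_exponent le_top)]
    simp only [hc hF, sum_const, card_range, nsmul_eq_mul]
    field_simp
  have e2 : ((∫ x, ‖G x‖ ^ 2 ∂μ : ℝ) : ℂ) = (H : ℂ)⁻¹ ^ 2 * ∑ a ∈ range H, ∑ b ∈ range H,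
      ∫ x, conj (F ((T ^ (m * a)) x)) * F ((T ^ (m * b)) x) ∂μ := by
    have e : ∀ x, ((‖G x‖ ^ 2 : ℝ) : ℂ) = (H : ℂ)⁻¹ ^ 2 * ∑ a ∈ range H, ∑ b ∈ range H,
        conj (F ((T ^ (m * a)) x)) * F ((T ^ (m * b)) x) := by
      intro x
      rw [Complex.ofReal_pow, ← Complex.conj_mul']
      simp only [G, map_mul, map_sum, map_inv₀, Complex.conj_natCast]
      rw [← sum_mul_sum]
      ring
    rw [← integral_complex_ofReal]
    simp only [e]
    rw [integral_const_mul, integral_finsetSum _ fun a _ =>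
      integrable_finsetSum _ fun b _ => hi _ _]
    congr 1
    exact sum_congr rfl fun a _ => integral_finsetSum _ fun b _ => hi _ _
  have e3 := congrArg norm e2
  rw [Complex.norm_real, norm_mul, norm_pow, norm_inv, Complex.norm_natCast] at e3
  have e4 : ‖∑ a ∈ range H, ∑ b ∈ range H,
      ∫ x, conj (F ((T ^ (m * a)) x)) * F ((T ^ (m * b)) x) ∂μ‖ ≤
      H * (w 0 + 2 * ∑ d ∈ Icc 1 H, w d) := by
    refine (norm_sum_le_of_le _ (n := fun _ => w 0 + 2 * ∑ d ∈ Icc 1 H, w d)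
      fun a ha => ?_).trans (by rw [sum_const, card_range, nsmul_eq_mul])
    exact (norm_sum_le_of_le _ fun b _ => (hw a b).le).trans
      (sum_dist_le (w := w) (fun _ => norm_nonneg _) (mem_range.mp ha))
  rw [← e1]
  refine (norm_integral_sq_le hG).trans ((le_abs_self _).trans ?_)
  rw [← Real.norm_eq_abs, e3]
  refine (mul_le_mul_of_nonneg_left e4 (by positivity)).trans (le_of_eq ?_)
  simp only [w, ravg, mul_zero]
  field_simp

end Pool.Agent.Lib.MP_467fc0_an
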