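import Pool.Agent.Lib.MP_467fc0_an.Newton

/-! The Newton polygon bound improves by one for every further separated pair. -/

namespace Pool.Agent.Lib.MP_467fc0_an

open Finset Polynomial
open scoped PowerSeries

variable {K : Type*} [Field K] [CharZero K] {ι : Type*}

/-- The pairs `(u t, v t)`, `t ∈ τ`, lie in `s` and are separated for the degree. -/
def Sep {σ R : Type*} [Ring R] (s : Finset ι) (τ : Finset σ) (u v : σ → ι) (p : ι → R[X]) : Prop :=
  (∀ t ∈ τ, u t ∈ s ∧ v t ∈ s ∧ u t ≠ v t) ∧ ∀ t ∈ τ, ∀ t' ∈ τ, t ≠ t' →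
    (p (u t) - p (v t)).natDegree < (p (u t) - p (u t')).natDegree

lemma Sep.card_lt {σ R : Type*} [Ring R] {s : Finset ι} {τ : Finset σ} {u v : σ → ι}
    {p : ι → R[X]} (h : Sep s τ u v p) (hs : s.Nonempty) : τ.card < s.card := by
  classical
  rcases τ.eq_empty_or_nonempty with rfl | ⟨t, ht⟩
  · exact card_pos.mpr hs
  refine lt_of_le_of_lt (card_le_card_of_injOn u (t := s.erase (v t)) (fun x hx => ?_)
    fun x hx y hy e => ?_) (card_erase_lt_of_mem (h.1 t ht).2.1)
  · refine mem_coe.mpr (mem_erase.mpr ⟨fun e => ?_, (h.1 x hx).1⟩)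
    by_cases h1 : t = x
    · exact (h.1 x hx).2.2 (h1 ▸ e)
    · have := h.2 t ht x hx h1
      rw [e] at this
      exact lt_irrefl _ this
  · by_contra h1
    have := h.2 x hx y hy h1
    rw [e, sub_self, natDegree_zero] at this
    exact Nat.not_lt_zero _ this

theorem newton_sep {σ : Type*} (u v : σ → ι) (d : ℕ) :
    ∀ (s : Finset ι) (τ : Finset σ) (p : ι → K[X]) (R : ι → K⟦X⟧) (b : ℕ),
    (∀ i ∈ s, (p i).natDegree ≤ d) → (∀ i ∈ s, ∀ j ∈ s, i ≠ j → 0 < (p i - p j).natDegree) →
    Sep s τ u v p → (∃ i ∈ s, PowerSeries.coeff b (R i) ≠ 0) →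
    ∃ m0 l0 : ℕ, (m0 + 1 ≤ b + s.card ∧ m0 + τ.card ≤ b + s.card) ∧ cf (FF s p R) m0 l0 ≠ 0 ∧
      ∀ m l, cf (FF s p R) m l ≠ 0 → (l : ℤ) - m * d ≤ l0 - m0 * d := by
  classical
  induction d with
  | zero =>
    rintro s τ p R b hp hne hτ ⟨i, hi, hb⟩
    have hs : s = {i} := by
      refine eq_singleton_iff_unique_mem.mpr ⟨hi, fun j hj => ?_⟩
      by_contra h
      have h1 := hne j hj i hi h
      have h2 := natDegree_sub_le (p j) (p i)
      have h3 := hp j hj
      have h4 := hp i hi
      omega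
    have hex : ∃ b, PowerSeries.coeff b (R i) ≠ 0 := ⟨b, hb⟩
    refine ⟨Nat.find hex, 0, ?_, ?_, ?_⟩
    · have := Nat.find_min' hex hb
      have h1 := hτ.card_lt ⟨i, hi⟩
      rw [hs, card_singleton] at h1 ⊢
      omega
    · rw [hs, FF, sum_singleton, cf, PowerSeries.coeff_mul,
        sum_eq_single_of_mem (Nat.find hex, 0) (by simp)]
      · simpa [coeff_EP] using Nat.find_spec hex
      · intro x hx hne'
        have h4 : x.1 + x.2 = Nat.find hex := mem_antidiagonal.mp hx
        have h5 : x.1 < Nat.find hex := by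
          by_contra h6
          exact hne' (Prod.ext (by simp only; omega) (by simp only; omega))
        have h6 := Nat.find_min hex h5
        rw [not_not] at h6
        rw [PowerSeries.coeff_map, h6, map_zero, zero_mul]
    · intro m l h
      simpa using cf_FF_bound s p R 0 0 hp (by simp) m l h
  | succ d ih =>
    rintro s τ p R b hp hne hτ ⟨i0, hi0, hb⟩
    let lc : ι → K := fun i => (p i).coeff (d + 1)
    let A : Finset K := s.image lc
    let cls : K → Finset ι := fun a => s.filter fun i => lc i = a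
    let q : ι → K[X] := fun i => p i - C (lc i) * X ^ (d + 1)
    have hq : ∀ i ∈ s, (q i).natDegree ≤ d := by
      intro i hi
      rw [natDegree_le_iff_coeff_eq_zero]
      intro N hN
      simp only [q, coeff_sub, coeff_C_mul, coeff_X_pow]
      by_cases h : N = d + 1
      · simp [h, lc]
      · rw [if_neg h, coeff_eq_zero_of_natDegree_lt (by have := hp i hi; omega)]
        simp
    let G : K → K[X]⟦X⟧ := fun a => FF (cls a) q R
    have hdec : FF s p R = ∑ a ∈ A, EP (C a * X ^ (d + 1)) * G a := by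
      rw [FF, ← sum_fiberwise_of_maps_to (g := lc) (t := A) fun i hi => mem_image_of_mem lc hi]
      refine sum_congr rfl fun a _ => ?_
      simp only [G, FF, mul_sum]
      refine sum_congr rfl fun i hi => ?_
      have h1 : lc i = a := (mem_filter.mp hi).2
      have h2 : p i = C a * X ^ (d + 1) + q i := by simp [q, h1]
      rw [h2, EP_add]
      ring
    have hcard : ∑ a ∈ A, (cls a).card = s.card :=
      (card_eq_sum_card_fiberwise fun i hi => mem_image_of_mem lc hi).symm
    let tc : K → Finset σ := fun a => τ.filter fun t => lc (u t) = a ∧ lc (v t) = a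
    have hqp : ∀ a, ∀ i ∈ cls a, ∀ j ∈ cls a, q i - q j = p i - p j := fun a i hi j hj => by
      simp only [q, (mem_filter.mp hi).2, (mem_filter.mp hj).2]
      ring
    have hsep : ∀ a, Sep (cls a) (tc a) u v q := fun a => by
      have h1 : ∀ t ∈ tc a, u t ∈ cls a ∧ v t ∈ cls a := fun t ht =>
        ⟨mem_filter.mpr ⟨(hτ.1 t (mem_filter.mp ht).1).1, (mem_filter.mp ht).2.1⟩,
          mem_filter.mpr ⟨(hτ.1 t (mem_filter.mp ht).1).2.1, (mem_filter.mp ht).2.2⟩⟩
      refine ⟨fun t ht => ⟨(h1 t ht).1, (h1 t ht).2, (hτ.1 t (mem_filter.mp ht).1).2.2⟩,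
        fun t ht t' ht' h => ?_⟩
      rw [hqp a _ (h1 t ht).1 _ (h1 t ht).2, hqp a _ (h1 t ht).1 _ (h1 t' ht').1]
      exact hτ.2 t (mem_filter.mp ht).1 t' (mem_filter.mp ht').1 h
    have htc : ∀ a ∈ A, (tc a).card < (cls a).card := fun a ha => by
      obtain ⟨i, hi, e⟩ := mem_image.mp ha
      exact (hsep a).card_lt ⟨i, mem_filter.mpr ⟨hi, e⟩⟩
    have hτc : τ.card ≤ 1 ∨ ∑ a ∈ A, (tc a).card = τ.card := by
      by_cases h : ∀ t ∈ τ, lc (u t) = lc (v t)
      · right
        rw [card_eq_sum_card_fiberwise (f := fun t => lc (u t)) (t := A)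
          fun t ht => mem_image_of_mem lc (hτ.1 t ht).1]
        refine sum_congr rfl fun a _ => congrArg card (filter_congr fun t ht => ?_)
        rw [← h t ht, and_self]
      · left
        push Not at h
        obtain ⟨t, ht, h⟩ := h
        refine card_le_one.mpr fun x hx y hy => ?_
        have key : ∀ x ∈ τ, x = t := fun x hx => by
          by_contra h1
          have h2 := hτ.2 t ht x hx (Ne.symm h1)
          have h3 := le_natDegree_of_ne_zero (p := p (u t) - p (v t)) (n := d + 1)
            (by rw [coeff_sub]; exact sub_ne_zero.mpr h)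
          have h4 := natDegree_sub_le (p (u t)) (p (u x))
          have h5 := hp _ (hτ.1 t ht).1
          have h6 := hp _ (hτ.1 x hx).1
          omega
        rw [key x hx, key y hy]
    have hcls : ∀ a, G a ≠ 0 ∨ a = lc i0 → ∃ ba ma la : ℕ, (a = lc i0 → ba ≤ b) ∧
        (ma + 1 ≤ ba + (cls a).card ∧ ma + (tc a).card ≤ ba + (cls a).card) ∧
        cf (G a) ma la ≠ 0 ∧
        (∀ m l, cf (G a) m l ≠ 0 → (l : ℤ) - m * d ≤ la - ma * d) ∧
        (∀ m l, cf (G a) m l ≠ 0 → (l : ℤ) - m * (d + 1 : ℕ) ≤ -(ba * (d + 1 : ℕ))) ∧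
        (∀ m l, cf (G a) m l ≠ 0 → (l : ℤ) - m * d ≤ -(ba * d)) := by
      intro a ha
      have hex : ∃ b, ∃ i ∈ cls a, PowerSeries.coeff b (R i) ≠ 0 := by
        rcases ha with ha | ha
        · obtain ⟨i, hi, h⟩ := exists_ne_zero_of_sum_ne_zero ha
          by_contra hcon
          push Not at hcon
          have : R i = 0 := PowerSeries.ext fun n => by simpa using hcon n i hi
          exact h (by rw [this, map_zero, zero_mul])
        · exact ⟨b, i0, mem_filter.mpr ⟨hi0, ha.symm⟩, hb⟩
      obtain ⟨ma, la, h1, h2, h3⟩ := ih (cls a) (tc a) q R (Nat.find hex)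
        (fun i hi => hq i (mem_filter.mp hi).1)
        (fun i hi j hj hij => by
          rw [hqp a i hi j hj]
          exact hne i (mem_filter.mp hi).1 j (mem_filter.mp hj).1 hij) (hsep a)
        (Nat.find_spec hex)
      have h4 : ∀ i ∈ cls a, ∀ c < Nat.find hex, PowerSeries.coeff c (R i) = 0 := by
        intro i hi c hc
        by_contra h
        exact Nat.find_min hex hc ⟨i, hi, h⟩
      exact ⟨Nat.find hex, ma, la,
        fun h => Nat.find_min' hex ⟨i0, mem_filter.mpr ⟨hi0, h.symm⟩, hb⟩, h1, h2, h3,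
        cf_FF_bound (cls a) q R (d + 1) _
          (fun i hi => (hq i (mem_filter.mp hi).1).trans (Nat.le_succ d)) h4,
        cf_FF_bound (cls a) q R d _ (fun i hi => hq i (mem_filter.mp hi).1) h4⟩
    choose! ba ma la c1 c2 c3 c4 c5 c6 using hcls
    have ha0 : lc i0 ∈ A := mem_image_of_mem lc hi0
    have hGne : ∀ a m l, cf (G a) m l ≠ 0 → G a ≠ 0 := by
      intro a m l h h0
      exact h (by simp [h0, cf])
    obtain ⟨w, ⟨a2, ha2, m2, l2, hw1, hw2⟩, hw⟩ := Int.exists_greatest_of_bdd
      (P := fun z => ∃ a ∈ A, ∃ m l : ℕ, cf (G a) m l ≠ 0 ∧ z = (l : ℤ) - m * (d + 1 : ℕ))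
      ⟨0, by
        rintro z ⟨a, _, m, l, h, rfl⟩
        have h1 := c5 a (Or.inl (hGne a m l h)) m l h
        have h2 : (0 : ℤ) ≤ ba a * (d + 1 : ℕ) := by positivity
        linarith⟩
      ⟨_, lc i0, ha0, ma (lc i0), la (lc i0), c3 _ (Or.inr rfl), rfl⟩
    have hwb : ∀ a ∈ A, ∀ m l, cf (G a) m l ≠ 0 → (l : ℤ) - m * (d + 1 : ℕ) ≤ w :=
      fun a ha m l h => hw _ ⟨a, ha, m, l, h, rfl⟩
    have hμex : ∃ m : ℕ, 0 ≤ w + m * (d + 1 : ℕ) := ⟨m2, by rw [hw2]; simp⟩
    let μ := Nat.find hμex
    have hμ : 0 ≤ w + μ * (d + 1 : ℕ) := Nat.find_spec hμex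
    let T : K → K⟦X⟧ := fun a => top (d + 1) w (G a)
    have hT : ∀ a ∈ A, ∀ m, PowerSeries.coeff m (T a) ≠ 0 →
        G a ≠ 0 ∧ μ ≤ m ∧ m ≤ ma a ∧ ba a ≤ μ ∧ w ≤ -(ba a * (d + 1 : ℕ)) ∧
          (ba a = μ → m ≤ μ) := by
      intro a ha m h
      simp only [T, top, PowerSeries.coeff_mk] at h
      split_ifs at h with h1
      swap
      · exact absurd rfl h
      have h2 := hGne a _ _ h
      have h3 := c4 a (Or.inl h2) _ _ h
      have h4 := c5 a (Or.inl h2) _ _ h
      have h5 := hwb a ha _ _ (c3 a (Or.inl h2))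
      have h9 := c6 a (Or.inl h2) _ _ h
      rw [Int.toNat_of_nonneg h1] at h3 h4 h9
      have h6 : w ≤ -(ba a * (d + 1 : ℕ)) := by linarith
      refine ⟨h2, Nat.find_min' hμex h1, ?_, ?_, h6, fun e => ?_⟩
      · push_cast at h3 h5
        have : (m : ℤ) ≤ ma a := by nlinarith
        exact_mod_cast this
      · have h7 : (ba a : ℤ) * (d + 1 : ℕ) ≤ μ * (d + 1 : ℕ) := by linarith
        have h8 : (0 : ℤ) < (d + 1 : ℕ) := by positivity
        exact_mod_cast le_of_mul_le_mul_right h7 h8
      · rw [e] at h9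
        have h7 := hμ
        push_cast at h7 h9
        have : (m : ℤ) ≤ μ := by nlinarith
        exact_mod_cast this
    have hT2 : PowerSeries.coeff m2 (T a2) ≠ 0 := by
      simp only [T, top, PowerSeries.coeff_mk]
      rw [if_pos (by rw [hw2]; simp), hw2]
      simpa using hw1
    let nn : K → ℕ := fun a => if T a = 0 then 0 else if ba a = μ then 1 else ma a + 1 - μ
    have hTne : ∀ a, T a ≠ 0 → ∃ m, PowerSeries.coeff m (T a) ≠ 0 := by
      intro a h
      by_contra hcon
      push Not at hcon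
      exact h (PowerSeries.ext fun n => by simpa using hcon n)
    obtain ⟨m0, hm0, hc0⟩ := exp_poly_order A T nn μ
      (by
        intro a ha m h
        obtain ⟨h1, h2, h3, h4, -, h5⟩ := hT a ha m h
        have h6 : T a ≠ 0 := fun h0 => h (by rw [h0, map_zero])
        simp only [nn, if_neg h6]
        split_ifs with h7
        · have := h5 h7
          omega
        · omega)
      ⟨a2, ha2, fun h0 => hT2 (by rw [h0, map_zero])⟩
    have htop : top (d + 1) w (FF s p R) = ∑ a ∈ A, ex a * T a := by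
      rw [hdec, top_sum]
      exact sum_congr rfl fun a _ => top_EP_mul a (d + 1) w (G a)
    rw [← htop] at hc0
    simp only [top, PowerSeries.coeff_mk] at hc0
    split_ifs at hc0 with h1
    swap
    · exact absurd rfl hc0
    have hnn : ∀ a ∈ A, nn a + (tc a).card ≤ (cls a).card := by
      intro a ha
      have g0 := htc a ha
      simp only [nn]
      split_ifs with h h'
      · omega
      · omega
      · obtain ⟨m, hm⟩ := hTne a h
        obtain ⟨g1, g2, g3, g4, -⟩ := hT a ha m hm
        have := (c2 a (Or.inl g1)).2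
        omega
    have hnm : ∀ a ∈ A, T a ≠ 0 → μ + nn a ≤ ma a + 1 := by
      intro a ha h
      obtain ⟨m, hm⟩ := hTne a h
      obtain ⟨g1, g2, g3, -⟩ := hT a ha m hm
      simp only [nn, if_neg h]
      split_ifs <;> omega
    have hsum : ∀ B ⊆ A, ∑ a ∈ B, nn a + ∑ a ∈ B, (tc a).card ≤ ∑ a ∈ B, (cls a).card := by
      intro B hB
      rw [← sum_add_distrib]
      exact sum_le_sum fun a ha => hnn a (hB ha)
    refine ⟨m0, (w + m0 * (d + 1 : ℕ)).toNat, ?_, hc0, ?_⟩
    · have g8 := c2 _ (Or.inr rfl)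
      have g9 := c1 _ (Or.inr rfl) rfl
      by_cases h0 : T (lc i0) = 0
      · have hne2 : a2 ≠ lc i0 := by
          rintro rfl
          exact hT2 (by rw [h0, map_zero])
        obtain ⟨g1, g2, g3, g4, g5, -⟩ := hT a2 ha2 m2 hT2
        have g6 := c2 a2 (Or.inl g1)
        have g7 := hwb _ ha0 _ _ (c3 _ (Or.inr rfl))
        have g10 : ba a2 ≤ ma (lc i0) := by
          have h7 : (ba a2 : ℤ) * (d + 1 : ℕ) ≤ ma (lc i0) * (d + 1 : ℕ) := by
            have : (0 : ℤ) ≤ la (lc i0) := by positivity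
            linarith
          have h8 : (0 : ℤ) < (d + 1 : ℕ) := by positivity
          exact_mod_cast le_of_mul_le_mul_right h7 h8
        have ha2' : a2 ∈ A.erase (lc i0) := mem_erase.mpr ⟨hne2, ha2⟩
        rw [← add_sum_erase _ _ ha0, ← add_sum_erase _ _ ha2'] at hm0 hcard hτc
        have g11 := hsum ((A.erase (lc i0)).erase a2)
          ((erase_subset _ _).trans (erase_subset _ _))
        have g12 : nn (lc i0) = 0 := by simp [nn, h0]
        have g13 := hnm a2 ha2 fun h0 => hT2 (by rw [h0, map_zero])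
        omega
      · rw [← add_sum_erase _ _ ha0] at hm0 hcard hτc
        have g11 := hsum (A.erase (lc i0)) (erase_subset _ _)
        have g13 := hnm _ ha0 h0
        omega
    · intro m l h
      rw [Int.toNat_of_nonneg h1, add_sub_cancel_right]
      rw [hdec, cf_sum] at h
      obtain ⟨a, ha, h⟩ := exists_ne_zero_of_sum_ne_zero h
      exact bd_EP_mul a (d + 1) w (G a) (hwb a ha) m l h

/-- The bound on the degree of a relation improves by one for every further separated pair. -/
theorem algebraic_sep [Fintype ι] {σ : Type*} [Fintype σ] (u v : σ → ι) (P Q : ι → K[X])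
    (hP : ∀ i j, i ≠ j → 0 < (P i - P j).natDegree) (hs' : Sep univ univ u v P)
    (h : ∀ m n : ℕ, ∑ i, (Q i).eval ((m : K) + (P i).eval (n : K)) = 0) (i : ι) (j : ℕ)
    (hj : Fintype.card ι ≤ j + Fintype.card σ) : (Q i).coeff j = 0 := by
  classical
  have hinf : ∀ f : K[X], (∀ n : ℕ, f.eval (n : K) = 0) → f = 0 := by
    intro f hf
    refine eq_zero_of_infinite_isRoot f ?_
    refine (Set.infinite_range_of_injective (Nat.cast_injective (R := K))).mono ?_
    rintro _ ⟨n, rfl⟩
    exact hf n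
  have h1 : ∀ k, ∑ i, (hasseDeriv k (Q i)).comp (P i) = 0 := by
    intro k
    refine hinf _ fun n => ?_
    have h2 : ∑ i, taylor ((P i).eval (n : K)) (Q i) = 0 := by
      refine hinf _ fun m => ?_
      simp only [eval_finsetSum, taylor_eval]
      exact h m n
    have h3 := congrArg (fun f : K[X] => f.coeff k) h2
    simpa only [finsetSum_coeff, taylor_coeff, coeff_zero, eval_finsetSum, eval_comp] using h3
  by_contra hne
  obtain ⟨i1, hi0, hi1⟩ := exists_max_image (univ.filter fun i => Q i ≠ 0) (fun i => (Q i).natDegree)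
    ⟨i, by simpa using fun h0 : Q i = 0 => hne (by rw [h0, coeff_zero])⟩
  have hQ1 : Q i1 ≠ 0 := (mem_filter.mp hi0).2
  set s := (Q i1).natDegree with hs
  have hdeg : ∀ i, (Q i).natDegree ≤ s := by
    intro i
    by_cases h0 : Q i = 0
    · simp [h0]
    · exact hi1 i (by simpa using h0)
  let R : ι → K⟦X⟧ := fun i => PowerSeries.mk fun a => ((s - a).factorial : K) * (Q i).coeff (s - a)
  obtain ⟨m0, l0, ⟨-, e1⟩, e2, -⟩ := newton_sep u v (univ.sup fun i => (P i).natDegree) univ univ P R 0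
    (fun i hi => le_sup (f := fun i => (P i).natDegree) hi) (fun i _ j _ hij => hP i j hij) hs'
    ⟨i1, mem_univ _, by
      simp only [R, PowerSeries.coeff_mk, Nat.sub_zero]
      exact mul_ne_zero (by exact_mod_cast s.factorial_ne_zero) (leadingCoeff_ne_zero.mpr hQ1)⟩
  have hm : m0 ≤ s := by
    have := (le_natDegree_of_ne_zero hne).trans (hdeg i)
    rw [card_univ, card_univ] at e1
    omega
  obtain ⟨k, hk⟩ := Nat.exists_eq_add_of_le hm
  apply e2
  have e3 : PowerSeries.coeff m0 (FF univ P R) =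
      C (k.factorial : K) * ∑ i, (hasseDeriv k (Q i)).comp (P i) := by
    rw [FF, map_sum, mul_sum]
    refine sum_congr rfl fun i _ => ?_
    rw [mul_comm, PowerSeries.coeff_mul, Nat.sum_antidiagonal_eq_sum_range_succ_mk, comp,
      eval₂_eq_sum_range' _ (n := m0 + 1)
        ((natDegree_hasseDeriv_le _ _).trans_lt (by have := hdeg i; omega)), mul_sum]
    refine sum_congr rfl fun b hb => ?_
    have hb' : b ≤ m0 := Nat.lt_succ_iff.mp (mem_range.mp hb)
    have e4 : s - (m0 - b) = b + k := by omega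
    simp only [coeff_EP, PowerSeries.coeff_map, R, PowerSeries.coeff_mk, e4, hasseDeriv_coeff]
    rw [mul_right_comm, ← map_mul, ← mul_assoc (C (k.factorial : K)), ← map_mul]
    congr 2
    rw [← Nat.add_choose_mul_factorial_mul_factorial b k]
    have h1 : ((b.factorial : ℕ) : K) ≠ 0 := by exact_mod_cast b.factorial_ne_zero
    push_cast
    field_simp
  rw [cf, e3, h1, mul_zero, coeff_zero]

end Pool.Agent.Lib.MP_467fc0_an
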