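import Pool.Agent.Lib.MP_467fc0_an.Seminorm

/-! The Host–Kra seminorms of a Weyl system, read on the Fourier side. -/

namespace Pool.Agent.Lib.MP_467fc0_an

open Finset Filter Topology MeasureTheory UnitAddTorus
open scoped ComplexConjugate ENNReal

lemma le_of_sq_le {x s ε : ℝ} (hε : 0 < ε) (h : x ^ 2 ≤ s) : x ≤ ε + ε⁻¹ * s := by
  have hs : 0 ≤ s := (sq_nonneg x).trans h
  by_cases hx : x ≤ ε
  · exact hx.trans (le_add_of_nonneg_right (by positivity))
  · push Not at hx
    have h1 : x ≤ ε⁻¹ * s := by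
      rw [← div_eq_inv_mul, le_div_iff₀ hε]
      nlinarith
    linarith

lemma norm_integral_mul_le {X : Type*} {m : MeasurableSpace X} [mX : MeasurableSpace X]
    {μ : Measure X} [IsProbabilityMeasure μ] (hm : m ≤ mX) {f u : X → ℂ} (hf : Integrable f μ)
    (hu : Measurable[m] u) (hb : ∀ x, ‖u x‖ ≤ 1) :
    ‖∫ x, f x * u x ∂μ‖ ≤ ∫ x, ‖condExp m μ f x‖ ∂μ := by
  have hi : Integrable (fun x => f x * u x) μ :=
    hf.mul_bdd (c := 1) (hu.mono hm le_rfl).aestronglyMeasurable (Eventually.of_forall hb)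
  have h1 := condExp_bilin_of_aestronglyMeasurable_right (m := m) (ContinuousLinearMap.mul ℝ ℂ)
    hu.stronglyMeasurable.aestronglyMeasurable hi hf
  simp only [ContinuousLinearMap.mul_apply'] at h1
  rw [← integral_condExp hm, integral_congr_ae h1]
  refine (norm_integral_le_integral_norm _).trans (integral_mono_of_nonneg
    (Eventually.of_forall fun x => norm_nonneg _) integrable_condExp.norm
    (Eventually.of_forall fun x => ?_))
  simp only [norm_mul]
  exact mul_le_of_le_one_right (norm_nonneg _) (hb x)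

variable {ι : Type} [Fintype ι]

lemma measurable_inv_of_comp {S : Tor ι → Tor ι} {u : Tor ι → ℂ} (hu : Continuous u)
    (h : ∀ x, u (S x) = u x) : Measurable[MeasurableSpace.invariants S] u :=
  MeasurableSpace.measurable_invariants_dom.mpr ⟨hu.measurable, fun s _ => by
    rw [show u ∘ S = u from funext h]⟩

variable {T : Equiv.Perm (Tor ι)} {N : Module.End ℤ (GG ι)} {M : ℕ} (hW : Setup T N M)

include hW

lemma Setup.mpn (n : ℕ) : MeasurePreserving (T ^ n) (haar ι) (haar ι) := by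
  simpa only [zpow_natCast] using hW.mp n

lemma Setup.chiN (g : GG ι) (n : ℕ) (x : Tor ι) : chi g ((T ^ n) x) = chi (Phi N M n g) x := by
  simpa only [zpow_natCast] using hW.chiT g n x

lemma fc_base {ε : ℝ} (hε : 0 < ε) {f : Tor ι → ℂ} (hf : MemLp f ∞ (haar ι)) {g : GG ι} {z : ℤ}
    (hg : N g = (0, (z : ℝ))) : ‖fc f g‖ ≤ ε + ε⁻¹ * hkPow (haar ι) T 0 f := by
  refine le_of_sq_le hε ?_
  have h1 : ∀ x, conj (chi g (T x)) = conj (chi g x) := by
    intro x
    have h2 := hW.chiT g 1 x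
    rw [zpow_one, Phi_one hW.hN, LinearMap.add_apply, Module.End.one_apply, hg, chi_add] at h2
    rw [h2]
    simp [chi, ee_int, mFourier_zero]
  have h2 := norm_integral_mul_le (μ := haar ι) (MeasurableSpace.invariants_le T)
    (memLp_one_iff_integrable.mp (hf.mono_exponent le_top))
    (measurable_inv_of_comp (u := fun x => conj (chi g x))
      (Complex.continuous_conj.comp (continuous_chi g)) h1)
    (fun x => by rw [Complex.norm_conj, norm_chi])
  exact (pow_le_pow_left₀ (norm_nonneg _) h2 2).trans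
    (sq_integral_le ((hf.mono_exponent le_top).condExp (by norm_num)).norm)

lemma fc_step (k : ℕ) (ih : ∀ ε : ℝ, 0 < ε → ∃ C : ℝ, 0 ≤ C ∧ ∀ f : Tor ι → ℂ,
      MemLp f ∞ (haar ι) → ∀ (g : GG ι) (z : ℤ), (N ^ (k + 1)) g = (0, (z : ℝ)) →
      ‖fc f g‖ ≤ ε + C * hkPow (haar ι) T k f) {m : ℕ} (hm : 0 < m) {ε : ℝ} (hε : 0 < ε) :
    ∃ C : ℝ, 0 ≤ C ∧ ∀ f : Tor ι → ℂ, MemLp f ∞ (haar ι) → ∀ (g : GG ι) (z : ℤ),
      m • (N ^ (k + 2)) g = (0, (z : ℝ)) →
      ‖fc f g‖ ≤ ε + C * hkPow (haar ι) T (k + 1) f := by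
  obtain ⟨C, hC, hb⟩ := ih (ε ^ 2 / 8) (by positivity)
  refine ⟨(ε / 2)⁻¹ * (2 * C * m), by positivity, fun f hf g z hg => ?_⟩
  let F : Tor ι → ℂ := fun x => f x * conj (chi g x)
  have hF : MemLp F ∞ (haar ι) := MemLp.mul' (r := ∞)
    (memLp_of_continuous (Complex.continuous_conj.comp (continuous_chi g)) ∞) hf
  have h1 : ∀ n : ℕ, ∫ x, dlt T n F x ∂(haar ι) = fc (dlt T n f) (Phi N M n g - g) := by
    intro n
    refine integral_congr_ae (Eventually.of_forall fun x => ?_)
    simp only [dlt, F, hW.chiN, sub_eq_add_neg, chi_add, chi_neg, map_mul]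
    ring
  have h2 : N ((N ^ (k + 2)) g) = 0 := by
    refine hW.hN0 _ ?_
    have h3 := congrArg Prod.fst hg
    funext i
    have h4 := congrFun h3 i
    simpa [hm.ne'] using h4
  have h3 : ∀ d : ℕ, (N ^ (k + 1)) (Phi N M (m * d : ℕ) g - g) = (0, ((d * z : ℤ) : ℝ)) := by
    intro d
    have e : N ((N ^ (k + 1)) g) = (N ^ (k + 2)) g := by
      rw [← Module.End.mul_apply, ← pow_succ']
    rw [map_sub, ← Module.End.mul_apply, Phi_commute, Module.End.mul_apply,
      Phi_of_ker_sq hW.hN _ (by rw [e, h2]), add_sub_cancel_left, e, mul_nsmul, hg]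
    simp
  obtain ⟨B, -, hB⟩ := exists_bound hf
  obtain ⟨h4, B', h5⟩ := ravg_bounds hW.mpn k hB
  have h6 : ‖fc f g‖ ^ 2 ≤ ε ^ 2 / 4 + 2 * C * m * hkPow (haar ι) T (k + 1) f := by
    refine le_of_forall_pos_le_add fun δ hδ => ?_
    have t1 := (tendsto_const_div_atTop_nhds_zero_nat ‖∫ x, dlt T 0 F x ∂(haar ι)‖).eventually
      (gt_mem_nhds (half_pos hδ))
    have hp : (0 : ℝ) < 2 * C * m + 1 := by positivity
    have t2 := (tendsto_id.const_mul_atTop' hm).eventually
      (eventually_le_limsup' h5 (δ := δ / 2 / (2 * C * m + 1)) (by positivity))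
    obtain ⟨H, a1, a2, a3⟩ := (t1.and (t2.and (eventually_gt_atTop 0))).exists
    have a4 := vdc_integral hW.mpn hF m a3
    have a5 := ravg_le (a := fun d => ‖∫ x, dlt T (m * d) F x ∂(haar ι)‖)
      (b := fun d => hkPow (haar ι) T k (dlt T (m * d) f)) (D := ε ^ 2 / 8) (C := C)
      (by positivity) (fun d => by
        rw [h1]
        exact hb _ (dlt_memLp hW.mpn hf _) _ _ (h3 d)) H
    have a6 := mul_le_mul_of_nonneg_left (ravg_mul_le h4 hm H) hC
    have a7 := mul_le_mul_of_nonneg_left a2 (show (0 : ℝ) ≤ 2 * C * m by positivity)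
    have a8 : 2 * C * m * (δ / 2 / (2 * C * m + 1)) ≤ δ / 2 := by
      rw [← mul_div_assoc, div_le_iff₀ hp]
      nlinarith
    rw [← hkPow_succ] at a7
    simp only [id] at a7
    change ‖fc f g‖ ^ 2 ≤ _ at a4
    nlinarith
  refine (le_of_sq_le (half_pos hε) h6).trans (le_of_eq ?_)
  field_simp
  ring

lemma fc_le (k : ℕ) : ∀ ε : ℝ, 0 < ε → ∃ C : ℝ, 0 ≤ C ∧ ∀ f : Tor ι → ℂ,
    MemLp f ∞ (haar ι) → ∀ (g : GG ι) (z : ℤ), (N ^ (k + 1)) g = (0, (z : ℝ)) →
    ‖fc f g‖ ≤ ε + C * hkPow (haar ι) T k f := by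
  induction k with
  | zero =>
    exact fun ε hε => ⟨ε⁻¹, by positivity, fun f hf g z hg => fc_base hW hε hf (by simpa using hg)⟩
  | succ k ih =>
    intro ε hε
    simpa only [one_smul] using fc_step hW k ih one_pos hε

theorem fc_eq_zero (k : ℕ) {f : Tor ι → ℂ} (hf : MemLp f ∞ (haar ι))
    (h0 : hkPow (haar ι) T (k + 1) f = 0) {g : GG ι} (hg : (N ^ (k + 2)) g ∈ Nul ι) :
    fc f g = 0 := by
  obtain ⟨h1, q, hq⟩ := hg
  refine norm_le_zero_iff.mp (le_of_forall_pos_le_add fun ε hε => ?_)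
  obtain ⟨C, -, hC⟩ := fc_step hW k (fc_le hW k) q.den_pos hε
  have h2 := hC f hf g q.num (by
    refine Prod.ext (by simp [h1]) ?_
    rw [Prod.smul_snd, ← hq, nsmul_eq_mul]
    change _ = ((q.num : ℤ) : ℝ)
    exact_mod_cast Rat.den_mul_eq_num q)
  rwa [h0, mul_zero, add_comm] at h2

lemma condExp_chi_invariants {g : GG ι} (hg : N g ∉ Nul ι) :
    condExp (MeasurableSpace.invariants T) (haar ι) (chi g) =ᵐ[haar ι] 0 := by
  refine (ae_eq_condExp_of_forall_setIntegral_eq (MeasurableSpace.invariants_le T)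
    (integrable_of_continuous (continuous_chi g)) (fun s _ _ => integrableOn_zero)
    (fun s hs _ => ?_) aestronglyMeasurable_zero).symm
  have h1 := chi_avg_tendsto (fun n : ℕ => Phi N M n g)
    (fun L => ⟨Qp N M L g, fun n => by rw [← Qp_eval, Int.cast_natCast]⟩)
    (fun h => hg (by simpa [Phi_one hW.hN, Phi_zero] using h 1))
  have hc : ∀ n, Continuous fun x => avg (fun n : ℕ => chi (Phi N M n g) x) n := fun n =>
    continuous_const.mul (continuous_finsetSum _ fun n _ => continuous_chi _)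
  have h2 : ∀ n : ℕ, ∫ x in s, chi (Phi N M n g) x ∂(haar ι) = ∫ x in s, chi g x ∂(haar ι) := by
    intro n
    have h3 : (T ^ n : Equiv.Perm (Tor ι)) ⁻¹' s = s := by
      rw [Equiv.Perm.coe_pow]
      exact (MeasurableSpace.le_invariants_iterate T n s hs).2
    have h4 := (hW.mpn n).restrict_preimage hs.1
    rw [h3] at h4
    simp only [← hW.chiN]
    conv_rhs => rw [← h4.map_eq]
    rw [integral_map h4.measurable.aemeasurable (continuous_chi g).aestronglyMeasurable]
  have h3 := tendsto_setIntegral_of_L1' (μ := haar ι) (0 : Tor ι → ℂ) aestronglyMeasurable_zero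
    (F := fun n x => avg (fun n : ℕ => chi (Phi N M n g) x) n)
    (Eventually.of_forall fun n => integrable_of_continuous (hc n))
    (tendsto_of_tendsto_of_tendsto_of_le_of_le tendsto_const_nhds h1 (fun _ => zero_le) fun n => by
      rw [sub_zero]
      exact eLpNorm_le_eLpNorm_of_exponent_le (by norm_num) (hc n).aestronglyMeasurable) s
  refine tendsto_nhds_unique h3 (tendsto_const_nhds.congr' ?_)
  filter_upwards [eventually_gt_atTop 0] with n hn
  have hn' : (n : ℂ) ≠ 0 := by exact_mod_cast hn.ne'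
  simp only [avg]
  rw [integral_const_mul, integral_finsetSum _ fun n _ =>
    (integrable_of_continuous (continuous_chi _)).integrableOn]
  simp only [h2, sum_const, card_range, nsmul_eq_mul]
  field_simp

theorem hkPow_trig (k : ℕ) : ∀ (κ : Type) (s : Finset κ) (c : κ → ℂ) (g : κ → GG ι),
    (∀ i ∈ s, (N ^ (k + 1)) (g i) ∉ Nul ι) →
    hkPow (haar ι) T k (fun x => ∑ i ∈ s, c i * chi (g i) x) = 0 := by
  induction k with
  | zero =>
    intro κ s c g hg
    have e : (fun x => ∑ i ∈ s, c i * chi (g i) x) = ∑ i ∈ s, c i • chi (g i) := by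
      funext x
      simp
    have h1 := condExp_finsetSum (μ := haar ι) (s := s) (f := fun i => c i • chi (g i))
      (fun i _ => (integrable_of_continuous (continuous_chi _)).smul _)
      (MeasurableSpace.invariants T)
    have h2 : ∀ᵐ x ∂(haar ι), ∀ i ∈ s,
        condExp (MeasurableSpace.invariants T) (haar ι) (c i • chi (g i)) x = 0 := by
      refine (eventually_all_finset s).mpr fun i hi => ?_
      filter_upwards [condExp_smul (μ := haar ι) (c i) (chi (g i)) (MeasurableSpace.invariants T),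
        condExp_chi_invariants hW (by simpa using hg i hi)] with x a1 a2
      rw [a1, Pi.smul_apply, a2]
      simp
    rw [e, hkPow]
    refine integral_eq_zero_of_ae ?_
    filter_upwards [h1, h2] with x a1 a2
    rw [a1, Finset.sum_apply, sum_eq_zero a2]
    simp
  | succ k ih =>
    intro κ s c g hg
    have h1 : {h : ℕ | hkPow (haar ι) T k
        (dlt T h fun x => ∑ i ∈ s, c i * chi (g i) x) ≠ 0}.Finite := by
      refine ((s ×ˢ s).finite_toSet.biUnion fun ij hij =>
        finite_bad hW.hN (k + 1) (g ij.2) (g ij.1) (hg _ (mem_product.mp hij).2)).subset ?_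
      intro h hh
      by_contra hcon
      simp only [Set.mem_iUnion, Set.mem_ofPred_eq, not_exists] at hcon
      refine hh ?_
      rw [← ih (κ × κ) (s ×ˢ s) (fun ij => conj (c ij.1) * c ij.2)
        (fun ij => Phi N M h (g ij.2) - g ij.1) fun ij hij => hcon ij hij]
      congr 1
      funext x
      simp only [dlt, hW.chiN, map_sum, map_mul, sum_mul_sum, sum_product, sub_eq_add_neg,
        chi_add, chi_neg]
      refine sum_congr rfl fun i _ => sum_congr rfl fun j _ => ?_
      ring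
    rw [hkPow_succ]
    refine Tendsto.limsup_eq ?_
    obtain ⟨B, hB⟩ := h1.bddAbove
    refine (tendsto_const_div_atTop_nhds_zero_nat (∑ h ∈ Icc 1 B, hkPow (haar ι) T k
      (dlt T h fun x => ∑ i ∈ s, c i * chi (g i) x))).congr' ?_
    filter_upwards [eventually_ge_atTop B] with H hH
    rw [ravg, div_eq_inv_mul]
    congr 1
    refine sum_subset (Icc_subset_Icc_right hH) fun h h2 h3 => ?_
    by_contra h4
    exact h3 (mem_Icc.mpr ⟨(mem_Icc.mp h2).1, hB h4⟩)

end Pool.Agent.Lib.MP_467fc0_an
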