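import Pool.Agent.Lib.MP_467fc0_an.Main
import Pool.Agent.Lib.MP_467fc0_an.Sep

/-! The order of the characteristic factor drops by one for every further separated pair. -/

namespace Pool.Agent.Lib.MP_467fc0_an

open Finset Filter Topology MeasureTheory Polynomial
open scoped ComplexConjugate ENNReal

variable {ι : Type} [Fintype ι] {T : Equiv.Perm (Tor ι)} {N : Module.End ℤ (GG ι)} {M : ℕ}
  (hW : Setup T N M)

include hW in
lemma nul_of_sep {l κ e : ℕ} (he : l + 1 ≤ e + κ) (P : Option (Fin l) → ℤ[X]) (h0 : P none = 0)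
    (hP : ∀ i j, i ≠ j → 0 < (P i - P j).natDegree) {u v : Fin κ → Option (Fin l)}
    (hs : Sep univ univ u v P) (g : Fin l → GG ι) (s0 : GG ι)
    (h : ∀ n : ℕ, ∑ i, Phi N M ((P (some i)).eval (n : ℤ)) (g i) - s0 ∈ Nul ι) (i : Fin l) :
    (N ^ e) (g i) ∈ Nul ι := by
  refine mem_nul_of_forall fun L hL => Qp_vanish hW.hN L (g i) e fun j hj => ?_
  have hinj : Function.Injective (Int.castRingHom ℚ) := Int.cast_injective
  have hd : ∀ a b, ((P a).map (Int.castRingHom ℚ) - (P b).map (Int.castRingHom ℚ)).natDegree =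
      (P a - P b).natDegree := fun a b => by
    rw [← Polynomial.map_sub, natDegree_map_eq_of_injective hinj]
  refine algebraic_sep u v (fun o => (P o).map (Int.castRingHom ℚ))
    (fun o => o.elim (-Qp N M L s0) fun i => Qp N M L (g i)) (fun a b hab => ?_)
    ⟨hs.1, fun t ht t' ht' h => ?_⟩ ?_ (some i) j (by simp; omega)
  · rw [hd]; exact hP a b hab
  · rw [hd, hd]; exact hs.2 t ht t' ht' h
  · intro m n
    have h1 := hL _ (h n)
    rw [← Phi_nul (M := M) hW.hN0 m (h n), map_sub, map_sub, map_sum, map_sum] at h1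
    rw [Fintype.sum_option]
    simp only [Option.elim, h0, Polynomial.map_zero, eval_zero, add_zero, eval_neg]
    have e0 := Qp_eval (N := N) (M := M) L s0 m
    have e1 : ∀ i, (Qp N M L (g i)).eval
        ((m : ℚ) + ((P (some i)).map (Int.castRingHom ℚ)).eval (n : ℚ)) =
        L (Phi N M m (Phi N M ((P (some i)).eval (n : ℤ)) (g i))) := by
      intro i
      rw [← Module.End.mul_apply, ← Phi_add hW.hN, ← Qp_eval, eval_natCast_map]
      simp
    simp only [e1]
    rw [Int.cast_natCast] at e0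
    rw [e0]
    linarith

include hW in
theorem mavg_of_rel {l e : ℕ} (p : Fin l → ℤ[X]) (hrel : ∀ (g : Fin l → GG ι) (s0 : GG ι),
      (∀ n : ℕ, ∑ i, Phi N M ((p i).eval (n : ℤ)) (g i) - s0 ∈ Nul ι) → ∀ i, (N ^ e) (g i) ∈ Nul ι)
    (i0 : Fin l) (f : Fin l → Tor ι → ℂ)
    (hf : ∀ i, MemLp (f i) ∞ (haar ι))
    (h0 : ∀ ξ, (N ^ e) (ξ, 0) ∈ Nul ι → fc (f i0) (ξ, 0) = 0) :
    Tendsto (fun n => eLpNorm (mavg (fun n i => (T ^ (p i).eval (n : ℤ) : Equiv.Perm (Tor ι))) f n)
      2 (haar ι)) atTop (𝓝 0) := by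
  classical
  have hS : ∀ (n : ℕ) (i : Fin l), MeasurePreserving
      (T ^ (p i).eval (n : ℤ) : Equiv.Perm (Tor ι)) (haar ι) (haar ι) := fun n i => hW.mp _
  have key : ∀ s : Finset (Fin l), ∀ f : Fin l → Tor ι → ℂ, (∀ i, MemLp (f i) ∞ (haar ι)) →
      (∀ j ∉ s, ∃ ξ, f j = chi (ξ, 0)) →
      (∀ ξ, (N ^ e) (ξ, 0) ∈ Nul ι → fc (f i0) (ξ, 0) = 0) →
      Tendsto (fun n => eLpNorm
        (mavg (fun n i => (T ^ (p i).eval (n : ℤ) : Equiv.Perm (Tor ι))) f n) 2 (haar ι))
        atTop (𝓝 0) := by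
    intro s
    induction s using Finset.induction_on with
    | empty =>
      intro f _ hc h0
      choose ξ hξ using fun j => hc j (notMem_empty j)
      have h1 := chi_avg_tendsto (fun n : ℕ => ∑ i, Phi N M ((p i).eval (n : ℤ)) (ξ i, 0))
        (fun L => ⟨∑ i, (Qp N M L (ξ i, 0)).comp ((p i).map (Int.castRingHom ℝ)), fun n => by
          rw [map_sum, eval_finsetSum]
          refine sum_congr rfl fun i _ => ?_
          rw [eval_comp, eval_natCast_map, ← Qp_eval]
          rfl⟩)
        (fun h => by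
          have h2 := h0 _ (hrel (fun i => (ξ i, 0)) _ h i0)
          rw [hξ, fc_chi, sub_self] at h2
          simp [chi_zero] at h2)
      refine h1.congr fun n => ?_
      congr 1
      funext x
      simp only [mavg, hξ, hW.chiT, chi_sum]
    | insert j s hj ih =>
      intro f hf hc h0
      refine tendsto_of_approx hS hf j fun ε hε => ?_
      obtain ⟨P, hP, hε'⟩ := fourier_approx ((hf j).mono_exponent le_top) hε
      have h1 := tendsto_of_span hS hf j _ ?_ hP
      · exact ⟨P, h1.1, hε', h1.2⟩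
      rintro _ ⟨ξ, hξ, rfl⟩
      have h2 := memLp_of_continuous (continuous_chi (ξ, 0)) ∞
      refine ⟨h2, ih _ (memLp_update hf j h2) (fun j' hj' => ?_) fun ξ' hξ' => ?_⟩
      · by_cases h : j' = j
        · subst h
          exact ⟨ξ, Function.update_self ..⟩
        · rw [Function.update_of_ne h]
          exact hc j' (by simp [h, hj'])
      · by_cases h : i0 = j
        · subst h
          rw [Function.update_self, fc_chi]
          refine integral_chi_ne fun h3 => hξ ?_
          have h4 : ξ = ξ' := sub_eq_zero.mp h3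
          rw [h4]
          exact h0 ξ' hξ'
        · rw [Function.update_of_ne h]
          exact h0 ξ' hξ'
  exact key univ f hf (fun j hj => absurd (mem_univ j) hj) h0

include hW in
theorem isCharacteristic_sep {l κ k : ℕ} (he : l ≤ k + 1 + κ) (P : Option (Fin l) → ℤ[X])
    (h0 : P none = 0) (hP : ∀ i j, i ≠ j → 0 < (P i - P j).natDegree)
    {u v : Fin κ → Option (Fin l)} (hs : Sep univ univ u v P) :
    ∀ Z, @IsHostKraFactor _ Z MeasurableSpace.pi (haar ι) T (k + 1) →
      @IsCharacteristic _ Z MeasurableSpace.pi _ (haar ι) T (fun i => P (some i)) := by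
  have hd : ∀ a b, (taylor 1 (P a) - taylor 1 (P b)).natDegree = (P a - P b).natDegree :=
    fun a b => by rw [← map_sub, natDegree_taylor]
  have key := mavg_of_rel hW (e := k + 2) (fun i => taylor 1 (P (some i)))
    (nul_of_sep hW (by omega) (fun o => taylor 1 (P o)) (by simp [h0])
      (fun a b h => by rw [hd]; exact hP a b h) (u := u) (v := v)
      ⟨hs.1, fun t ht t' ht' h => by rw [hd, hd]; exact hs.2 t ht t' ht' h⟩)
  have h1 := fun f hf h0 g hg => fc_eq_zero hW k (f := f) hf h0 (g := g) hg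
  have h2 := hW.mp
  intro Z hZ f hf
  simp only [polyAvg_eq]
  exact @telescope _ Z MeasurableSpace.pi _ _ hZ.1 _ _ (fun n i => h2 _)
    (fun j f hf h0 => key j f hf fun ξ hξ => h1 _ (hf j) ((hZ.2.2 _ (hf j)).mp h0) _ hξ) _ hf

end Pool.Agent.Lib.MP_467fc0_an
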